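import Pool.Agent.Lib.MP_6659c6_co.Hyper

/-!
Lower bounds for `r_Δ` for all degrees: regular subgraphs of blow-ups of the point-hyperplane
non-incidence graphs over `𝔽₂`.
-/

namespace Pool.Agent.Lib.MP_6659c6_co.AllDeg

open Finset

section Matching

variable {X : Type} [Fintype X]

open Classical in
/-- All row and column degrees of the relation `R` are `D`. -/
def Reg (R : X → X → Prop) (D : ℕ) : Prop :=
  (∀ x, (univ.filter fun y => R x y).card = D) ∧ (∀ y, (univ.filter fun x => R x y).card = D)

lemma exists_perm (R : X → X → Prop) (D : ℕ) (hD : 0 < D) (h : Reg R D) :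
    ∃ f : Equiv.Perm X, ∀ x, R x (f x) := by
  classical
  obtain ⟨h1, h2⟩ := h
  have hall : ∀ s : Finset X, s.card ≤ (s.biUnion fun x => univ.filter fun y => R x y).card := by
    intro s
    have := Finset.card_mul_le_card_mul (s := s)
      (t := s.biUnion fun x => univ.filter fun y => R x y) (m := D) (n := D) R ?_ ?_
    · exact Nat.le_of_mul_le_mul_right this hD
    · intro a ha
      rw [← h1 a]
      apply Finset.card_le_card
      intro y hy
      rw [Finset.mem_filter] at hy
      rw [Finset.mem_bipartiteAbove, Finset.mem_biUnion]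
      refine ⟨⟨a, ha, ?_⟩, ?_⟩
      · convert Finset.mem_filter.2 ⟨Finset.mem_univ y, hy.2⟩
      · exact hy.2
    · intro b _
      rw [← h2 b]
      apply Finset.card_le_card
      intro x hx
      rw [Finset.mem_bipartiteBelow] at hx
      rw [Finset.mem_filter]
      exact ⟨Finset.mem_univ _, hx.2⟩
  obtain ⟨f, hf, hR⟩ := (Finset.all_card_le_biUnion_card_iff_exists_injective _).1 hall
  refine ⟨Equiv.ofBijective f (Finite.injective_iff_bijective.1 hf), fun x => ?_⟩
  have := hR x
  rw [Finset.mem_filter] at this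
  exact this.2

lemma reg_sub (D' : ℕ) : ∀ (R : X → X → Prop), Reg R D' → ∀ D, D ≤ D' →
    ∃ R' : X → X → Prop, (∀ x y, R' x y → R x y) ∧ Reg R' D := by
  classical
  induction D' with
  | zero =>
    intro R hR D hD
    have : D = 0 := by omega
    subst this
    exact ⟨R, fun _ _ h => h, hR⟩
  | succ n ih =>
    intro R hR D hD
    rcases Nat.lt_or_ge n D with h | h
    · have : D = n + 1 := by omega
      subst this
      exact ⟨R, fun _ _ h => h, hR⟩
    · obtain ⟨f, hf⟩ := exists_perm R (n + 1) (by omega) hR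
      have hreg : Reg (fun x y => R x y ∧ f x ≠ y) n := by
        constructor
        · intro x
          have e : (univ.filter fun y => R x y ∧ f x ≠ y)
              = (univ.filter fun y => R x y).erase (f x) := by
            ext y
            simp only [Finset.mem_filter, Finset.mem_univ, true_and, Finset.mem_erase]
            constructor
            · rintro ⟨a, b⟩
              exact ⟨fun h => b h.symm, a⟩
            · rintro ⟨a, b⟩
              exact ⟨b, fun h => a h.symm⟩
          have hx := hR.1 x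
          have hmem : f x ∈ (univ.filter fun y => R x y) := by
            simpa using hf x
          have h3 := Finset.card_erase_of_mem hmem
          rw [← e] at h3
          have h4 : (univ.filter fun y => R x y).card = n + 1 := by
            convert hx
          rw [h4, Nat.add_sub_cancel] at h3
          convert h3
        · intro y
          have e : (univ.filter fun x => R x y ∧ f x ≠ y)
              = (univ.filter fun x => R x y).erase (f.symm y) := by
            ext x
            simp only [Finset.mem_filter, Finset.mem_univ, true_and, Finset.mem_erase]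
            constructor
            · rintro ⟨a, b⟩
              exact ⟨fun h => b (by rw [h]; simp), a⟩
            · rintro ⟨a, b⟩
              exact ⟨b, fun h => a (by rw [← h]; simp)⟩
          have hx := hR.2 y
          have hmem : f.symm y ∈ (univ.filter fun x => R x y) := by
            have := hf (f.symm y)
            simpa using this
          have h3 := Finset.card_erase_of_mem hmem
          rw [← e] at h3
          have h4 : (univ.filter fun x => R x y).card = n + 1 := by
            convert hx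
          rw [h4, Nat.add_sub_cancel] at h3
          convert h3
      obtain ⟨R', hR', hreg'⟩ := ih _ hreg D h
      exact ⟨R', fun x y hxy => (hR' x y hxy).1, hreg'⟩

/-- The bipartite graph on two copies of `X` given by the relation `R`. -/
def bipR (R : X → X → Prop) : SimpleGraph (X × Bool) where
  Adj u v := (u.2 = false ∧ v.2 = true ∧ R u.1 v.1) ∨ (u.2 = true ∧ v.2 = false ∧ R v.1 u.1)
  symm := ⟨by
    rintro u v (⟨h1, h2, h3⟩ | ⟨h1, h2, h3⟩)
    · exact Or.inr ⟨h2, h1, h3⟩
    · exact Or.inl ⟨h2, h1, h3⟩⟩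
  loopless := ⟨by
    rintro u (⟨h1, h2, _⟩ | ⟨h1, h2, _⟩)
    · rw [h1] at h2; exact absurd h2 (by decide)
    · rw [h1] at h2; exact absurd h2 (by decide)⟩

lemma bipR_ncard (R : X → X → Prop) (D : ℕ) (h : Reg R D) (v : X × Bool) :
    ((bipR R).neighborSet v).ncard = D := by
  classical
  obtain ⟨x, b⟩ := v
  cases b
  · have e : (bipR R).neighborSet (x, false)
        = (fun y => (y, true)) '' ((univ.filter fun y => R x y : Finset X) : Set X) := by
      ext ⟨y, c⟩
      rw [SimpleGraph.mem_neighborSet]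
      constructor
      · rintro (⟨_, h2, h3⟩ | ⟨h1, _, _⟩)
        · refine ⟨y, ?_, Prod.ext rfl h2.symm⟩
          rw [Finset.mem_coe, Finset.mem_filter]
          exact ⟨Finset.mem_univ _, h3⟩
        · exact absurd h1 (by simp)
      · rintro ⟨z, hz, hzz⟩
        rw [Finset.mem_coe, Finset.mem_filter] at hz
        obtain ⟨rfl, rfl⟩ := Prod.mk.inj hzz
        exact Or.inl ⟨rfl, rfl, hz.2⟩
    rw [e, Set.ncard_image_of_injective _ (fun a b h => (Prod.mk.inj h).1), Set.ncard_coe_finset]
    convert h.1 x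
  · have e : (bipR R).neighborSet (x, true)
        = (fun y => (y, false)) '' ((univ.filter fun y => R y x : Finset X) : Set X) := by
      ext ⟨y, c⟩
      rw [SimpleGraph.mem_neighborSet]
      constructor
      · rintro (⟨h1, _, _⟩ | ⟨_, h2, h3⟩)
        · exact absurd h1 (by simp)
        · refine ⟨y, ?_, Prod.ext rfl h2.symm⟩
          rw [Finset.mem_coe, Finset.mem_filter]
          exact ⟨Finset.mem_univ _, h3⟩
      · rintro ⟨z, hz, hzz⟩
        rw [Finset.mem_coe, Finset.mem_filter] at hz
        obtain ⟨rfl, rfl⟩ := Prod.mk.inj hzz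
        exact Or.inr ⟨rfl, rfl, hz.2⟩
    rw [e, Set.ncard_image_of_injective _ (fun a b h => (Prod.mk.inj h).1), Set.ncard_coe_finset]
    convert h.2 x

end Matching

section Components

lemma two_edges {W : Type} [Fintype W] (H : SimpleGraph W) (D : ℕ)
    (hH : ∀ v, (H.neighborSet v).ncard = D) : 2 * H.edgeSet.ncard = D * Fintype.card W := by
  classical
  have h := H.sum_degrees_eq_twice_card_edges
  have hdeg : ∀ v, H.degree v = D := by
    intro v
    have := hH v
    rwa [Set.ncard_eq_toFinset_card', Set.toFinset_card, SimpleGraph.card_neighborSet_eq_degree]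
      at this
  simp only [hdeg] at h
  rw [Finset.sum_const, Finset.card_univ, smul_eq_mul] at h
  have hm : H.edgeSet.ncard = H.edgeFinset.card := by
    rw [Set.ncard_eq_toFinset_card']
    rfl
  rw [hm, ← h, mul_comm]

lemma card_ge_three {W : Type} [Fintype W] (H : SimpleGraph W) (D : ℕ) (hD : 2 ≤ D)
    (hH : ∀ v, (H.neighborSet v).ncard = D) (v : W) : 3 ≤ Fintype.card W := by
  classical
  have h1 : (H.neighborSet v) ⊆ ({v}ᶜ : Set W) := by
    intro w hw
    rw [SimpleGraph.mem_neighborSet] at hw
    simp only [Set.mem_compl_iff, Set.mem_singleton_iff]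
    rintro rfl
    exact H.loopless.irrefl _ hw
  have h2 := Set.ncard_le_ncard h1
  rw [hH, Set.ncard_compl, Set.ncard_singleton, Nat.card_eq_fintype_card] at h2
  omega

lemma exists_min_dom {W : Type} [Fintype W] (H : SimpleGraph W) (hne : ∀ v, ∃ w, H.Adj v w) :
    ∃ S : Finset W, IsTotalDominating H S ∧ S.card = totalDomNumber H := by
  have hmem : totalDomNumber H ∈ {k | ∃ S : Finset W, IsTotalDominating H S ∧ S.card = k} := by
    apply Nat.sInf_mem
    exact ⟨_, Finset.univ, fun v => (hne v).imp fun w hw => ⟨Finset.mem_univ w, hw⟩, rfl⟩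
  exact hmem

lemma connected_bound {W : Type} [Fintype W] (H : SimpleGraph W) (D : ℕ) (hD : 2 ≤ D)
    (hH : ∀ v, (H.neighborSet v).ncard = D) (hc : H.Connected) (r : ℝ) (hr : Admissible D r) :
    ∃ S : Finset W, IsTotalDominating H S ∧
      (D : ℝ) * Fintype.card W ≤ (D + r) * ((Fintype.card W : ℝ) - S.card) := by
  obtain ⟨v⟩ := hc.nonempty
  have h3 := card_ge_three H D hD hH v
  have hne : ∀ v, ∃ w, H.Adj v w := by
    intro v
    have h1 : (H.neighborSet v).Nonempty := by
      apply Set.nonempty_of_ncard_ne_zero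
      rw [hH]
      omega
    obtain ⟨w, hw⟩ := h1
    exact ⟨w, hw⟩
  obtain ⟨S, hS, hcard⟩ := exists_min_dom H hne
  refine ⟨S, hS, ?_⟩
  have h := hr W H hc h3 (fun v => (hH v).le)
  have h2 := two_edges H D hH
  have h2' : (2 : ℝ) * H.edgeSet.ncard = D * Fintype.card W := by exact_mod_cast h2
  rw [hcard]
  linarith

theorem regular_bound {V : Type} [Fintype V] [Nonempty V] (G : SimpleGraph V) (D : ℕ)
    (hD : 2 ≤ D) (hG : ∀ v, (G.neighborSet v).ncard = D) (r : ℝ) (hr : Admissible D r) :
    ∃ S : Finset V, IsTotalDominating G S ∧ 0 ≤ (D : ℝ) + r ∧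
      (D : ℝ) * Fintype.card V ≤ (D + r) * ((Fintype.card V : ℝ) - S.card) := by
  classical
  have hreg : ∀ (C : G.ConnectedComponent) (v : C), (C.toSimpleGraph.neighborSet v).ncard = D := by
    intro C v
    have e : (Subtype.val : C → V) '' (C.toSimpleGraph.neighborSet v) = G.neighborSet v.1 := by
      ext w
      simp only [Set.mem_image, SimpleGraph.mem_neighborSet]
      constructor
      · rintro ⟨u, hu, rfl⟩
        exact hu
      · intro hw
        exact ⟨⟨w, C.mem_supp_of_adj_mem_supp v.2 hw⟩, hw, rfl⟩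
    rw [← hG v.1, ← e, Set.ncard_image_of_injective _ Subtype.val_injective]
  have hC : ∀ C : G.ConnectedComponent, ∃ S : Finset C, IsTotalDominating C.toSimpleGraph S ∧
      (D : ℝ) * Fintype.card C ≤ (D + r) * ((Fintype.card C : ℝ) - S.card) := fun C =>
    connected_bound C.toSimpleGraph D hD (hreg C) C.connected_toSimpleGraph r hr
  choose T hT hTc using hC
  have hpos : 0 ≤ (D : ℝ) + r := by
    obtain ⟨v⟩ : Nonempty V := inferInstance
    have h := hTc (G.connectedComponentMk v)
    have h1 : (0 : ℝ) < Fintype.card (G.connectedComponentMk v) := by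
      have : 0 < Fintype.card (G.connectedComponentMk v) := Fintype.card_pos_iff.2 ⟨⟨v, rfl⟩⟩
      exact_mod_cast this
    have h2 : ((T (G.connectedComponentMk v)).card : ℝ)
        ≤ Fintype.card (G.connectedComponentMk v) := by
      exact_mod_cast Finset.card_le_univ _
    have h3 : (0 : ℝ) < D := by exact_mod_cast (by omega : 0 < D)
    by_contra hneg
    push Not at hneg
    have h4 : ((D : ℝ) + r) * ((Fintype.card (G.connectedComponentMk v) : ℝ)
        - (T (G.connectedComponentMk v)).card) ≤ 0 :=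
      mul_nonpos_of_nonpos_of_nonneg hneg.le (by linarith)
    have h5 : 0 < (D : ℝ) * Fintype.card (G.connectedComponentMk v) := by positivity
    linarith
  refine ⟨univ.biUnion fun C : G.ConnectedComponent => (T C).image Subtype.val, ?_, hpos, ?_⟩
  · intro v
    obtain ⟨u, hu, hadj⟩ := hT (G.connectedComponentMk v) ⟨v, rfl⟩
    refine ⟨u.1, ?_, hadj⟩
    rw [Finset.mem_biUnion]
    exact ⟨_, Finset.mem_univ _, Finset.mem_image_of_mem _ hu⟩
  · have hV : Fintype.card V = ∑ C : G.ConnectedComponent, Fintype.card C := by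
      rw [← Fintype.card_congr (Equiv.sigmaFiberEquiv G.connectedComponentMk),
        Fintype.card_sigma]
      apply Finset.sum_congr rfl
      intro C _
      exact Fintype.card_congr (Equiv.refl _)
    have hS : (univ.biUnion fun C : G.ConnectedComponent => (T C).image Subtype.val).card
        ≤ ∑ C : G.ConnectedComponent, (T C).card :=
      Finset.card_biUnion_le.trans (Finset.sum_le_sum fun C _ => Finset.card_image_le)
    have hS' : ((univ.biUnion fun C : G.ConnectedComponent => (T C).image Subtype.val).card : ℝ)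
        ≤ ∑ C : G.ConnectedComponent, ((T C).card : ℝ) := by exact_mod_cast hS
    have hV' : (Fintype.card V : ℝ) = ∑ C : G.ConnectedComponent, (Fintype.card C : ℝ) := by
      rw [hV]; push_cast; rfl
    have hsum : ∑ C : G.ConnectedComponent, (D : ℝ) * Fintype.card C
        ≤ ∑ C : G.ConnectedComponent, ((D : ℝ) + r) * ((Fintype.card C : ℝ) - (T C).card) :=
      Finset.sum_le_sum fun C _ => hTc C
    rw [← Finset.mul_sum, ← Finset.mul_sum, Finset.sum_sub_distrib, ← hV'] at hsum
    refine hsum.trans ?_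
    apply mul_le_mul_of_nonneg_left _ hpos
    linarith

end Components

section Blowup

/-- The `t`-fold blow-up of the non-incidence relation `x ⬝ y = 1` on nonzero vectors. -/
def blow (d t : ℕ) : NZ d × Fin t → NZ d × Fin t → Prop := fun u v => u.1.1 ⬝ᵥ v.1.1 = 1

lemma card_NZ_dot (d : ℕ) (hd : 1 ≤ d) (x : NZ d) :
    (univ.filter fun y : NZ d => x.1 ⬝ᵥ y.1 = 1).card = 2 ^ (d - 1) := by
  have h := card_dot_one d x.1 x.2
  have h2 : (2 : ℕ) ^ d = 2 * 2 ^ (d - 1) := by
    rw [← pow_succ']
    congr 1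
    omega
  have h3 : (univ.filter fun y : Fin d → ZMod 2 => x.1 ⬝ᵥ y = 1).card = 2 ^ (d - 1) := by omega
  rw [← h3]
  apply Finset.card_bij (fun y _ => y.1)
  · intro y hy
    rw [Finset.mem_filter] at hy ⊢
    exact ⟨Finset.mem_univ _, hy.2⟩
  · intro a _ b _ h
    exact Subtype.ext h
  · intro b hb
    rw [Finset.mem_filter] at hb
    refine ⟨⟨b, ?_⟩, ?_, rfl⟩
    · rintro rfl
      simp at hb
    · rw [Finset.mem_filter]
      exact ⟨Finset.mem_univ _, hb.2⟩

lemma blow_reg (d t : ℕ) (hd : 1 ≤ d) : Reg (blow d t) (t * 2 ^ (d - 1)) := by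
  classical
  have key : ∀ x : NZ d × Fin t, (univ.filter fun y : NZ d × Fin t => x.1.1 ⬝ᵥ y.1.1 = 1).card
      = t * 2 ^ (d - 1) := by
    intro x
    have e : (univ.filter fun y : NZ d × Fin t => x.1.1 ⬝ᵥ y.1.1 = 1)
        = (univ.filter fun y : NZ d => x.1.1 ⬝ᵥ y.1 = 1) ×ˢ (univ : Finset (Fin t)) := by
      ext ⟨y, i⟩
      simp
    rw [e, Finset.card_product, card_NZ_dot d hd, Finset.card_univ, Fintype.card_fin, mul_comm]
  constructor
  · intro x
    rw [← key x]
    congr 1
    ext y
    simp [blow]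
  · intro y
    have h := key y
    have e : (univ.filter fun x : NZ d × Fin t => blow d t x y)
        = (univ.filter fun x : NZ d × Fin t => y.1.1 ⬝ᵥ x.1.1 = 1) := by
      apply Finset.filter_congr
      intro x _
      unfold blow
      rw [dotProduct_comm]
    convert h using 2

lemma dom_ge (d t : ℕ) (ht : 1 ≤ t) (R : NZ d × Fin t → NZ d × Fin t → Prop)
    (hR : ∀ x y, R x y → blow d t x y) (S : Finset ((NZ d × Fin t) × Bool))
    (hS : IsTotalDominating (bipR R) S) : 2 * d ≤ S.card := by
  classical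
  have hside : ∀ b : Bool, d ≤ (univ.filter fun x : NZ d × Fin t => (x, b) ∈ S).card := by
    intro b
    set T := univ.filter fun x : NZ d × Fin t => (x, b) ∈ S with hT
    let φ : (Fin d → ZMod 2) → (T → ZMod 2) := fun y u => u.1.1.1 ⬝ᵥ y
    have hφ : Function.Injective φ := by
      intro y z hyz
      by_contra hne
      have hne' : y - z ≠ 0 := sub_ne_zero.2 hne
      obtain ⟨u, hu, hadj⟩ := hS ((⟨y - z, hne'⟩, ⟨0, by omega⟩), !b)
      have hub : u.2 = b ∧ u.1.1.1 ⬝ᵥ (y - z) = 1 := by
        rcases hadj with ⟨h1, h2, h3⟩ | ⟨h1, h2, h3⟩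
        · simp only at h1 h3
          refine ⟨by rw [h2]; cases b <;> simp_all, ?_⟩
          have := hR _ _ h3
          unfold blow at this
          rw [dotProduct_comm]
          exact this
        · simp only at h1 h3
          refine ⟨by rw [h2]; cases b <;> simp_all, ?_⟩
          exact hR _ _ h3
      have hmem : u.1 ∈ T := by
        rw [hT, Finset.mem_filter]
        refine ⟨Finset.mem_univ _, ?_⟩
        rw [← hub.1]
        exact hu
      have h3 := congrFun hyz ⟨u.1, hmem⟩
      simp only [φ] at h3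
      have h2 := hub.2
      rw [dotProduct_sub, h3, sub_self] at h2
      exact absurd h2 (by decide)
    have hc := Fintype.card_le_of_injective φ hφ
    rw [Fintype.card_fun, Fintype.card_fun, ZMod.card, Fintype.card_fin,
      Fintype.card_coe] at hc
    exact (Nat.pow_le_pow_iff_right (by norm_num)).1 hc
  have hsub : ((univ.filter fun x : NZ d × Fin t => (x, false) ∈ S).image fun x => (x, false)) ∪
      ((univ.filter fun x : NZ d × Fin t => (x, true) ∈ S).image fun x => (x, true)) ⊆ S := by
    intro u hu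
    rw [Finset.mem_union, Finset.mem_image, Finset.mem_image] at hu
    rcases hu with ⟨x, hx, rfl⟩ | ⟨x, hx, rfl⟩
    · rw [Finset.mem_filter] at hx
      exact hx.2
    · rw [Finset.mem_filter] at hx
      exact hx.2
  have hdisj : Disjoint
      ((univ.filter fun x : NZ d × Fin t => (x, false) ∈ S).image fun x => (x, false))
      ((univ.filter fun x : NZ d × Fin t => (x, true) ∈ S).image fun x => (x, true)) := by
    rw [Finset.disjoint_left]
    intro u hu hu'
    rw [Finset.mem_image] at hu hu'
    obtain ⟨x, _, rfl⟩ := hu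
    obtain ⟨y, _, h⟩ := hu'
    simp at h
  have hc := Finset.card_le_card hsub
  rw [Finset.card_union_of_disjoint hdisj, Finset.card_image_of_injective,
    Finset.card_image_of_injective] at hc
  · have h1 := hside false
    have h2 := hside true
    omega
  · intro a b h
    simpa using h
  · intro a b h
    simpa using h

/-- The main lower bound: all degrees. -/
theorem family (d t D : ℕ) (hd : 1 ≤ d) (ht : 1 ≤ t) (hD2 : 2 ≤ D) (hD : D ≤ t * 2 ^ (d - 1))
    (r : ℝ) (hr : Admissible D r) :
    0 < (t : ℝ) * (2 ^ d - 1) - d ∧ (d : ℝ) * D ≤ r * (t * (2 ^ d - 1) - d) := by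
  classical
  obtain ⟨R, hR, hreg⟩ := reg_sub _ (blow d t) (blow_reg d t hd) D hD
  have hne : (Pi.single ⟨0, by omega⟩ 1 : Fin d → ZMod 2) ≠ 0 := by
    intro h
    have := congrFun h ⟨0, by omega⟩
    simp at this
  have : Nonempty ((NZ d × Fin t) × Bool) := ⟨((⟨_, hne⟩, ⟨0, by omega⟩), false)⟩
  obtain ⟨S, hS, hpos, hb⟩ := regular_bound (bipR R) D hD2 (bipR_ncard R D hreg) r hr
  have hcard : Fintype.card ((NZ d × Fin t) × Bool) = (2 ^ d - 1) * t * 2 := by
    rw [Fintype.card_prod, Fintype.card_prod, card_NZ, Fintype.card_fin, Fintype.card_bool]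
  have h2d : 2 * d ≤ S.card := dom_ge d t ht R hR S hS
  have hSle : (S.card : ℝ) ≤ Fintype.card ((NZ d × Fin t) × Bool) := by
    exact_mod_cast Finset.card_le_univ S
  have hN : (Fintype.card ((NZ d × Fin t) × Bool) : ℝ) = 2 * (t * (2 ^ d - 1)) := by
    rw [hcard]
    have : 1 ≤ 2 ^ d := Nat.one_le_two_pow
    push_cast [Nat.cast_sub this]
    ring
  rw [hN] at hb hSle
  have h2d' : (2 : ℝ) * d ≤ S.card := by exact_mod_cast h2d
  have ht' : (1 : ℝ) ≤ t := by exact_mod_cast ht
  have h2pow : (2 : ℝ) ≤ 2 ^ d := by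
    have : 2 ^ 1 ≤ 2 ^ d := Nat.pow_le_pow_right (by norm_num) hd
    exact_mod_cast this
  have hNpos : (0 : ℝ) < t * (2 ^ d - 1) := by
    apply mul_pos (by linarith) (by linarith)
  have hD' : (2 : ℝ) ≤ D := by exact_mod_cast hD2
  have hprod : 0 < ((D : ℝ) + r) * (2 * (t * (2 ^ d - 1)) - S.card) := by
    have : (0 : ℝ) < D * (2 * (t * (2 ^ d - 1))) := by positivity
    linarith
  have hgap : 0 < 2 * ((t : ℝ) * (2 ^ d - 1)) - S.card := by
    rcases lt_or_eq_of_le (sub_nonneg.2 hSle) with h | h
    · exact h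
    · rw [← h, mul_zero] at hprod
      exact absurd hprod (lt_irrefl _)
  refine ⟨by linarith, ?_⟩
  have h3 : ((D : ℝ) + r) * (2 * (t * (2 ^ d - 1)) - S.card)
      ≤ (D + r) * (2 * (t * (2 ^ d - 1)) - 2 * d) :=
    mul_le_mul_of_nonneg_left (by linarith) hpos
  nlinarith

end Blowup

section Consequences

theorem family_div (d t D : ℕ) (hd : 1 ≤ d) (ht : 1 ≤ t) (hD2 : 2 ≤ D)
    (hD : D ≤ t * 2 ^ (d - 1)) (r : ℝ) (hr : Admissible D r) :
    (d : ℝ) * D / (t * (2 ^ d - 1) - d) ≤ r := by
  obtain ⟨h1, h2⟩ := family d t D hd ht hD2 hD r hr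
  rw [div_le_iff₀ h1]
  exact h2

theorem gt_three (D : ℕ) (hD : 270 ≤ D) (r : ℝ) (hr : Admissible D r) : 3 < r := by
  have hD' : (270 : ℝ) ≤ D := by exact_mod_cast hD
  rcases Nat.lt_or_ge D 321 with h | h
  · obtain ⟨h1, h2⟩ := family 7 5 D (by norm_num) (by norm_num) (by omega)
      (by norm_num; omega) r hr
    norm_num at h1 h2
    by_contra hneg
    push Not at hneg
    nlinarith
  · rcases Nat.lt_or_ge D 513 with h' | h'
    · obtain ⟨h1, h2⟩ := family 10 1 D (by norm_num) (by norm_num) (by omega)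
        (by norm_num; omega) r hr
      norm_num at h1 h2
      have hD3 : (321 : ℝ) ≤ D := by exact_mod_cast h
      by_contra hneg
      push Not at hneg
      nlinarith
    · obtain ⟨h1, h2⟩ := family 7 (D / 64 + 1) D (by norm_num) (by omega) (by omega)
        (by norm_num; omega) r hr
      have h3 : 64 * (D / 64) ≤ D := Nat.mul_div_le D 64
      have h3' : (64 : ℝ) * ((D / 64 : ℕ) : ℝ) ≤ D := by exact_mod_cast h3
      have hD3 : (513 : ℝ) ≤ D := by exact_mod_cast h'
      push_cast at h1 h2
      norm_num at h1 h2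
      by_contra hneg
      push Not at hneg
      nlinarith

theorem log_bound (D : ℕ) (hD : 2 ≤ D) (r : ℝ) (hr : Admissible D r) :
    (Real.logb 2 D - Real.logb 2 (Real.logb 2 D) - 1) / 2 ≤ r := by
  have hD' : (2 : ℝ) ≤ D := by exact_mod_cast hD
  have hD0 : (0 : ℝ) < D := by linarith
  set L := Real.logb 2 D with hL
  have hL1 : 1 ≤ L := by
    rw [hL, Real.le_logb_iff_rpow_le (by norm_num) hD0, Real.rpow_one]
    exact hD'
  have hL0 : 0 < L := by linarith
  set l := Real.logb 2 L with hl
  have hl0 : 0 ≤ l := Real.logb_nonneg (by norm_num) hL1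
  have h2L : (2 : ℝ) ^ L = D := Real.rpow_logb (by norm_num) (by norm_num) hD0
  have h2l : (2 : ℝ) ^ l = L := Real.rpow_logb (by norm_num) (by norm_num) hL0
  have hlL : l ≤ L := by
    rw [hl, Real.logb_le_iff_le_rpow (by norm_num) hL0]
    have h1 : L + 1 ≤ (2 : ℝ) ^ L := by
      have := one_add_mul_self_le_rpow_one_add (s := 1) (by norm_num) hL1
      norm_num at this
      linarith
    linarith
  set e := ⌊L - l⌋₊ with he
  have he1 : (e : ℝ) ≤ L - l := Nat.floor_le (by linarith)
  have he2 : L - l < e + 1 := Nat.lt_floor_add_one _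
  have hpow : (2 : ℝ) ^ e ≤ D / L := by
    have h1 : (2 : ℝ) ^ ((e : ℕ) : ℝ) ≤ 2 ^ (L - l) :=
      Real.rpow_le_rpow_of_exponent_le (by norm_num) he1
    rw [Real.rpow_natCast, Real.rpow_sub (by norm_num), h2L, h2l] at h1
    exact h1
  have hmod : D < (D / 2 ^ e + 1) * 2 ^ e := by
    have := Nat.lt_div_mul_add (a := D) (b := 2 ^ e) (by positivity)
    linarith
  have hdiv : D / 2 ^ e * 2 ^ e ≤ D := Nat.div_mul_le_self D (2 ^ e)
  obtain ⟨h1, h2⟩ := family (e + 1) (D / 2 ^ e + 1) D (Nat.le_add_left 1 _)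
    (Nat.le_add_left 1 _) hD
    (by simpa using hmod.le) r hr
  have hdiv' : ((D / 2 ^ e : ℕ) : ℝ) * 2 ^ e ≤ D := by exact_mod_cast hdiv
  push_cast at h1 h2
  set t : ℝ := ((D / 2 ^ e : ℕ) : ℝ) + 1 with ht
  have ht0 : 0 ≤ ((D / 2 ^ e : ℕ) : ℝ) := Nat.cast_nonneg _
  have hE : t * (2 ^ (e + 1) - 1) - ((e : ℝ) + 1) ≤ 2 * (D + D / L) := by
    have h3 : t * 2 ^ e ≤ D + D / L := by
      rw [ht, add_mul, one_mul]
      linarith
    have h4 : (0 : ℝ) ≤ e := Nat.cast_nonneg _
    have h5 : t * (2 ^ (e + 1) - 1) - ((e : ℝ) + 1) = 2 * (t * 2 ^ e) - t - ((e : ℝ) + 1) := by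
      ring
    rw [h5]
    linarith
  have hr0 : 0 < r := by
    by_contra hneg
    push Not at hneg
    have h3 : r * (t * (2 ^ (e + 1) - 1) - ((e : ℝ) + 1)) ≤ 0 :=
      mul_nonpos_of_nonpos_of_nonneg hneg h1.le
    have h4 : 0 < ((e : ℝ) + 1) * D := by positivity
    linarith
  have h3 : ((e : ℝ) + 1) * D ≤ r * (2 * (D + D / L)) :=
    h2.trans (mul_le_mul_of_nonneg_left hE hr0.le)
  have h4 : ((e : ℝ) + 1) * L ≤ 2 * r * (L + 1) := by
    have h5 : r * (2 * (D + D / L)) = 2 * r * (L + 1) / L * D := by
      field_simp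
    rw [h5] at h3
    have h6 := le_of_mul_le_mul_right h3 hD0
    rwa [le_div_iff₀ hL0] at h6
  have h5 : (L - l) * L ≤ 2 * r * (L + 1) := by
    have : (L - l) * L ≤ ((e : ℝ) + 1) * L := mul_le_mul_of_nonneg_right he2.le hL0.le
    linarith
  have h6 : (L - l - 1) * (L + 1) ≤ 2 * r * (L + 1) := by nlinarith
  have h7 := le_of_mul_le_mul_right h6 (by linarith)
  linarith

end Consequences

end Pool.Agent.Lib.MP_6659c6_co.AllDeg
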