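import Mathlib

/-!
Definitions for the edge bound for total domination.
-/

namespace Pool.Agent.Lib.MP_6659c6_co

/-- `S` is a total dominating set of `G`: every vertex has a neighbour in `S`. -/
def IsTotalDominating {V : Type} (G : SimpleGraph V) (S : Finset V) : Prop :=
  ∀ v, ∃ u ∈ S, G.Adj v u

/-- The total domination number `γ_t(G)`: the least size of a total dominating set. -/
noncomputable def totalDomNumber {V : Type} (G : SimpleGraph V) : ℕ :=
  sInf {k | ∃ S : Finset V, IsTotalDominating G S ∧ S.card = k}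

/-- `r` is admissible for `Δ`: every connected graph `G` of order `n ≥ 3` with maximum degree
at most `Δ` satisfies `m ≤ (1/2) (Δ + r) (n - γ_t(G))`. -/
def Admissible (Δ : ℕ) (r : ℝ) : Prop :=
  ∀ (V : Type) [Fintype V] (G : SimpleGraph V), G.Connected → 3 ≤ Fintype.card V →
    (∀ v, (G.neighborSet v).ncard ≤ Δ) →
    (G.edgeSet.ncard : ℝ) ≤ 1 / 2 * ((Δ : ℝ) + r) * ((Fintype.card V : ℝ) - totalDomNumber G)

end Pool.Agent.Lib.MP_6659c6_co
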