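import Pool.Agent.Lib.MP_6659c6_co.AllDeg

/-!
Regular bipartite graphs built from the blow-up of the non-incidence relation over `𝔽₂` and a
binary linear code: `n` further vertices on each side carry labels in `𝔽₂^d`.
Vectors are coded by natural numbers.
-/

namespace Pool.Agent.Lib.MP_6659c6_co.Ext

open Finset AllDeg

/-- Parity of the number of common bits of `a` and `b` among the first `d` bits. -/
def par : ℕ → ℕ → ℕ → Bool
  | 0, _, _ => false
  | d + 1, a, b => xor (par d a b) (a.testBit d && b.testBit d)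

/-- The number of `i < n` with `f i`. -/
def cnt : ℕ → (ℕ → Bool) → ℕ
  | 0, _ => 0
  | n + 1, f => cnt n f + (if f n then 1 else 0)

/-- All `i < n` satisfy `f i`. -/
def allN : ℕ → (ℕ → Bool) → Bool
  | 0, _ => true
  | n + 1, f => allN n f && f n

/-- The `l`-th label. -/
def lab (LL l : ℕ) : ℕ := (LL / 2 ^ (7 * l)) % 128

/-- Each nonzero vector has `2^(d-1)` partners. -/
def chk0 (d : ℕ) : Bool :=
  allN (2 ^ d - 1) (fun x => cnt (2 ^ d - 1) (fun y => par d (x + 1) (y + 1)) == 2 ^ (d - 1))

/-- The labels form a code and the matrix `QQ` has the right row and column sums. -/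
def chk (d n D' : ℕ) (LL QQ : ℕ) : Bool :=
  allN (2 ^ d - 1) (fun x =>
    (cnt (2 ^ d - 1) (fun y => par d (x + 1) (y + 1) &&
        QQ.testBit ((x + 1) * 2 ^ d + (y + 1))) + D' ==
      cnt n (fun l => par d (x + 1) (lab LL l))) &&
    (cnt (2 ^ d - 1) (fun y => par d (x + 1) (y + 1) &&
        QQ.testBit ((y + 1) * 2 ^ d + (x + 1))) + D' ==
      cnt n (fun l => par d (x + 1) (lab LL l)))) &&
  allN n (fun l => Nat.ble 1 (lab LL l) && Nat.ble (lab LL l + 1) (2 ^ d))

lemma par_comm (d a b : ℕ) : par d a b = par d b a := by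
  induction d with
  | zero => rfl
  | succ n ih => simp only [par]; rw [ih, Bool.and_comm]

lemma allN_iff (n : ℕ) (f : ℕ → Bool) : allN n f = true ↔ ∀ i < n, f i = true := by
  induction n with
  | zero => simp [allN]
  | succ n ih =>
    simp only [allN, Bool.and_eq_true, ih]
    constructor
    · rintro ⟨h1, h2⟩ i hi
      rcases Nat.lt_succ_iff_lt_or_eq.1 hi with h | h
      · exact h1 i h
      · rw [h]; exact h2
    · intro h
      exact ⟨fun i hi => h i (by omega), h n (by omega)⟩

lemma cnt_eq (n : ℕ) (f : ℕ → Bool) : cnt n f = ∑ i : Fin n, if f i = true then 1 else 0 := by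
  induction n with
  | zero => simp [cnt]
  | succ n ih =>
    rw [Fin.sum_univ_castSucc, cnt, ih]
    rfl

/-- The vector coded by a number. -/
def vec (d a : ℕ) : Fin d → ZMod 2 := fun i => if a.testBit i = true then 1 else 0

lemma xor_sum (p q : Bool) : ((if p = true then (1 : ZMod 2) else 0) +
    (if q = true then 1 else 0)) = if (xor p q) = true then 1 else 0 := by
  revert p q
  decide

lemma dot_vec (d a b : ℕ) : vec d a ⬝ᵥ vec d b = if par d a b = true then 1 else 0 := by
  induction d with
  | zero => simp [par, dotProduct]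
  | succ n ih =>
    have h : vec (n + 1) a ⬝ᵥ vec (n + 1) b
        = vec n a ⬝ᵥ vec n b + (if (a.testBit n && b.testBit n) = true then 1 else 0) := by
      unfold dotProduct vec
      rw [Fin.sum_univ_castSucc]
      congr 1
      simp only [Fin.val_last]
      by_cases ha : a.testBit n = true <;> by_cases hb : b.testBit n = true <;> simp [ha, hb]
    rw [h, ih]
    exact xor_sum _ _

lemma exists_code (d : ℕ) (v : Fin d → ZMod 2) (hv : v ≠ 0) :
    ∃ x : Fin (2 ^ d - 1), vec d ((x : ℕ) + 1) = v := by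
  classical
  obtain ⟨c, hc⟩ : ∃ c : ℕ, c = Nat.ofBits (fun i : Fin d => decide (v i = 1)) := ⟨_, rfl⟩
  have hlt : c < 2 ^ d := by
    rw [hc]
    exact Nat.ofBits_lt_two_pow _
  have hbit : ∀ i : Fin d, c.testBit i = decide (v i = 1) := by
    intro i
    rw [hc, Nat.testBit_ofBits_lt _ _ i.2]
  have hvec : vec d c = v := by
    funext i
    unfold vec
    rw [hbit]
    rcases zmod2_cases (v i) with h | h
    · rw [h]; simp
    · rw [h]; simp
  have hc0 : c ≠ 0 := by
    rintro rfl
    apply hv
    rw [← hvec]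
    funext i
    simp [vec]
  refine ⟨⟨c - 1, by omega⟩, ?_⟩
  have : c - 1 + 1 = c := by omega
  simp only [this]
  exact hvec

/-- Total dominating sets are large. -/
lemma dom_ge {X : Type} [Fintype X] (d : ℕ) (R : X → X → Prop) (code : X → ℕ)
    (main : Fin (2 ^ d - 1) → X)
    (h1 : ∀ u x, R u (main x) → par d (code u) ((x : ℕ) + 1) = true)
    (h2 : ∀ u x, R (main x) u → par d (code u) ((x : ℕ) + 1) = true)
    (S : Finset (X × Bool)) (hS : IsTotalDominating (bipR R) S) : 2 * d ≤ S.card := by
  classical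
  have hside : ∀ b : Bool, d ≤ (univ.filter fun x : X => (x, b) ∈ S).card := by
    intro b
    set T := univ.filter fun x : X => (x, b) ∈ S with hT
    let φ : (Fin d → ZMod 2) → (T → ZMod 2) := fun y u => vec d (code u.1) ⬝ᵥ y
    have hφ : Function.Injective φ := by
      intro y z hyz
      by_contra hne
      have hne' : y - z ≠ 0 := sub_ne_zero.2 hne
      obtain ⟨x, hx⟩ := exists_code d (y - z) hne'
      obtain ⟨u, hu, hadj⟩ := hS (main x, !b)
      have hub : u.2 = b ∧ par d (code u.1) ((x : ℕ) + 1) = true := by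
        rcases hadj with ⟨e1, e2, e3⟩ | ⟨e1, e2, e3⟩
        · simp only at e1 e3
          exact ⟨by rw [e2]; cases b <;> simp_all, h2 _ _ e3⟩
        · simp only at e1 e3
          exact ⟨by rw [e2]; cases b <;> simp_all, h1 _ _ e3⟩
      have hmem : u.1 ∈ T := by
        rw [hT, Finset.mem_filter]
        refine ⟨Finset.mem_univ _, ?_⟩
        rw [← hub.1]
        exact hu
      have h3 := congrFun hyz ⟨u.1, hmem⟩
      simp only [φ] at h3
      have h4 : vec d (code u.1) ⬝ᵥ (y - z) = 1 := by
        rw [← hx, dot_vec, if_pos hub.2]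
      rw [dotProduct_sub, h3, sub_self] at h4
      exact absurd h4 (by decide)
    have hc := Fintype.card_le_of_injective φ hφ
    rw [Fintype.card_fun, Fintype.card_fun, ZMod.card, Fintype.card_fin,
      Fintype.card_coe] at hc
    exact (Nat.pow_le_pow_iff_right (by norm_num)).1 hc
  have hsub : ((univ.filter fun x : X => (x, false) ∈ S).image fun x => (x, false)) ∪
      ((univ.filter fun x : X => (x, true) ∈ S).image fun x => (x, true)) ⊆ S := by
    intro u hu
    rw [Finset.mem_union, Finset.mem_image, Finset.mem_image] at hu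
    rcases hu with ⟨x, hx, rfl⟩ | ⟨x, hx, rfl⟩
    · rw [Finset.mem_filter] at hx
      exact hx.2
    · rw [Finset.mem_filter] at hx
      exact hx.2
  have hdisj : Disjoint
      ((univ.filter fun x : X => (x, false) ∈ S).image fun x => (x, false))
      ((univ.filter fun x : X => (x, true) ∈ S).image fun x => (x, true)) := by
    rw [Finset.disjoint_left]
    intro u hu hu'
    rw [Finset.mem_image] at hu hu'
    obtain ⟨x, _, rfl⟩ := hu
    obtain ⟨y, _, h⟩ := hu'
    simp at h
  have hc := Finset.card_le_card hsub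
  rw [Finset.card_union_of_disjoint hdisj, Finset.card_image_of_injective,
    Finset.card_image_of_injective] at hc
  · have h1 := hside false
    have h2 := hside true
    omega
  · intro a b h
    simpa using h
  · intro a b h
    simpa using h

/-- The vertices of one side. -/
abbrev VX (d t n : ℕ) : Type := (Fin (2 ^ d - 1) × Fin t) ⊕ Fin n

/-- The relation. -/
def rel (d t n D' LL QQ : ℕ) [NeZero n] : VX d t n → VX d t n → Prop
  | Sum.inl (x, i), Sum.inl (y, j) => par d ((x : ℕ) + 1) ((y : ℕ) + 1) = true ∧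
      ¬ (i = j ∧ QQ.testBit (((x : ℕ) + 1) * 2 ^ d + ((y : ℕ) + 1)) = true)
  | Sum.inl (x, _), Sum.inr l => par d ((x : ℕ) + 1) (lab LL l) = true
  | Sum.inr l, Sum.inl (y, _) => par d ((y : ℕ) + 1) (lab LL l) = true
  | Sum.inr l, Sum.inr l' => ((l' - l : Fin n) : ℕ) < D'

/-- The label of a vertex. -/
def code (d t n LL : ℕ) : VX d t n → ℕ
  | Sum.inl (x, _) => (x : ℕ) + 1
  | Sum.inr l => lab LL l

lemma sum_copies (t : ℕ) (i : Fin t) (p q : Bool) :
    (∑ j : Fin t, if p = true ∧ ¬ (i = j ∧ q = true) then 1 else 0)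
      + (if (p && q) = true then 1 else 0) = if p = true then t else 0 := by
  classical
  cases p
  · simp
  · cases q
    · simp
    · have h1 : (∑ j : Fin t, if i = j then 1 else 0) = 1 := by simp
      have h2 : (∑ j : Fin t, if (true = true ∧ ¬ (i = j ∧ true = true)) then 1 else 0)
          + (∑ j : Fin t, if i = j then 1 else 0) = ∑ _j : Fin t, 1 := by
        rw [← Finset.sum_add_distrib]
        apply Finset.sum_congr rfl
        intro j _
        by_cases h : i = j <;> simp [h]
      rw [h1] at h2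
      simpa using h2

lemma sum_copies' (t : ℕ) (i : Fin t) (p q : Bool) :
    (∑ j : Fin t, if p = true ∧ ¬ (j = i ∧ q = true) then 1 else 0)
      + (if (p && q) = true then 1 else 0) = if p = true then t else 0 := by
  rw [← sum_copies t i p q]
  congr 1
  apply Finset.sum_congr rfl
  intro j _
  apply if_congr _ rfl rfl
  rw [eq_comm (a := j)]

lemma sum_lt (n D' : ℕ) [NeZero n] (h : D' ≤ n) :
    (∑ z : Fin n, if (z : ℕ) < D' then 1 else 0) = D' := by
  have h1 := cnt_eq n (fun i => decide (i < D'))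
  simp only [decide_eq_true_eq] at h1
  rw [← h1]
  clear h1
  have key : ∀ m : ℕ, cnt m (fun i => decide (i < D')) = min m D' := by
    intro m
    induction m with
    | zero => simp [cnt]
    | succ m ih =>
      rw [cnt, ih]
      by_cases hm : m < D'
      · simp only [hm, decide_true, if_true]
        omega
      · simp only [hm, decide_false]
        simp only [Bool.false_eq_true, if_false]
        omega
  rw [key, min_eq_right h]

lemma rel_reg (d t n D' LL QQ : ℕ) [NeZero n] (hn : D' ≤ n) (h0 : chk0 d = true)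
    (h : chk d n D' LL QQ = true) : Reg (rel d t n D' LL QQ) (t * 2 ^ (d - 1) + D') := by
  classical
  have hK : ∀ x < 2 ^ d - 1, (∑ y : Fin (2 ^ d - 1),
      if par d (x + 1) ((y : ℕ) + 1) = true then 1 else 0) = 2 ^ (d - 1) := by
    intro x hx
    have h1 := (allN_iff _ _).1 h0 x hx
    rw [← cnt_eq (2 ^ d - 1) (fun y => par d (x + 1) (y + 1))]
    simpa using h1
  have hKt : ∀ x < 2 ^ d - 1, (∑ y : Fin (2 ^ d - 1),
      if par d (x + 1) ((y : ℕ) + 1) = true then t else 0) = t * 2 ^ (d - 1) := by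
    intro x hx
    rw [← hK x hx, Finset.mul_sum]
    apply Finset.sum_congr rfl
    intro y _
    rw [mul_ite, mul_one, mul_zero]
  unfold chk at h
  rw [Bool.and_eq_true, allN_iff, allN_iff] at h
  obtain ⟨hQ, hl⟩ := h
  have hrow : ∀ x : Fin (2 ^ d - 1), (∑ y : Fin (2 ^ d - 1),
      if (par d ((x : ℕ) + 1) ((y : ℕ) + 1) &&
        QQ.testBit (((x : ℕ) + 1) * 2 ^ d + ((y : ℕ) + 1))) = true then 1 else 0) + D'
      = ∑ l : Fin n, if par d ((x : ℕ) + 1) (lab LL l) = true then 1 else 0 := by
    intro x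
    have h1 := hQ x x.2
    rw [Bool.and_eq_true] at h1
    have h2 := h1.1
    rw [beq_iff_eq, cnt_eq, cnt_eq] at h2
    exact h2
  have hcol : ∀ x : Fin (2 ^ d - 1), (∑ y : Fin (2 ^ d - 1),
      if (par d ((x : ℕ) + 1) ((y : ℕ) + 1) &&
        QQ.testBit (((y : ℕ) + 1) * 2 ^ d + ((x : ℕ) + 1))) = true then 1 else 0) + D'
      = ∑ l : Fin n, if par d ((x : ℕ) + 1) (lab LL l) = true then 1 else 0 := by
    intro x
    have h1 := hQ x x.2
    rw [Bool.and_eq_true] at h1
    have h2 := h1.2
    rw [beq_iff_eq, cnt_eq, cnt_eq] at h2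
    exact h2
  have hlab : ∀ l : Fin n, ∃ x < 2 ^ d - 1, lab LL l = x + 1 := by
    intro l
    have h1 := hl l l.2
    rw [Bool.and_eq_true, Nat.ble_eq, Nat.ble_eq] at h1
    exact ⟨lab LL l - 1, by omega, by omega⟩
  constructor
  · rintro (⟨x, i⟩ | l)
    · rw [Finset.card_filter, Fintype.sum_sum_type, Fintype.sum_prod_type]
      have e1 : (∑ y : Fin (2 ^ d - 1), ∑ j : Fin t,
          if rel d t n D' LL QQ (Sum.inl (x, i)) (Sum.inl (y, j)) then 1 else 0)
          + (∑ y : Fin (2 ^ d - 1),
            if (par d ((x : ℕ) + 1) ((y : ℕ) + 1) &&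
              QQ.testBit (((x : ℕ) + 1) * 2 ^ d + ((y : ℕ) + 1))) = true then 1 else 0)
          = t * 2 ^ (d - 1) := by
        rw [← Finset.sum_add_distrib, ← hKt x x.2]
        apply Finset.sum_congr rfl
        intro y _
        rw [← sum_copies t i (par d ((x : ℕ) + 1) ((y : ℕ) + 1))
          (QQ.testBit (((x : ℕ) + 1) * 2 ^ d + ((y : ℕ) + 1)))]
        congr 1
        exact Finset.sum_congr rfl fun j _ => if_congr Iff.rfl rfl rfl
      have e2 := hrow x
      have e3 : (∑ l : Fin n, if rel d t n D' LL QQ (Sum.inl (x, i)) (Sum.inr l) then 1 else 0)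
          = ∑ l : Fin n, if par d ((x : ℕ) + 1) (lab LL l) = true then 1 else 0 :=
        Finset.sum_congr rfl fun l _ => if_congr Iff.rfl rfl rfl
      rw [e3]
      omega
    · rw [Finset.card_filter, Fintype.sum_sum_type, Fintype.sum_prod_type]
      congr 1
      · obtain ⟨x, hx, hxl⟩ := hlab l
        rw [← hKt x hx]
        apply Finset.sum_congr rfl
        intro y _
        have e1 : ∀ j : Fin t, (rel d t n D' LL QQ (Sum.inr l) (Sum.inl (y, j))) =
            (par d ((y : ℕ) + 1) (lab LL l) = true) := fun j => rfl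
        simp only [e1]
        rw [hxl, par_comm]
        simp
      · have e1 : (∑ l' : Fin n, if rel d t n D' LL QQ (Sum.inr l) (Sum.inr l') then 1 else 0)
            = ∑ l' : Fin n, if ((l' - l : Fin n) : ℕ) < D' then 1 else 0 :=
          Finset.sum_congr rfl fun l _ => if_congr Iff.rfl rfl rfl
        rw [e1]
        have e2 := Fintype.sum_equiv (Equiv.subRight l)
          (fun l' : Fin n => if ((l' - l : Fin n) : ℕ) < D' then 1 else 0)
          (fun z : Fin n => if (z : ℕ) < D' then 1 else 0) (fun l' => rfl)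
        exact e2.trans (sum_lt n D' hn)
  · rintro (⟨x, i⟩ | l)
    · rw [Finset.card_filter, Fintype.sum_sum_type, Fintype.sum_prod_type]
      have e1 : (∑ y : Fin (2 ^ d - 1), ∑ j : Fin t,
          if rel d t n D' LL QQ (Sum.inl (y, j)) (Sum.inl (x, i)) then 1 else 0)
          + (∑ y : Fin (2 ^ d - 1),
            if (par d ((x : ℕ) + 1) ((y : ℕ) + 1) &&
              QQ.testBit (((y : ℕ) + 1) * 2 ^ d + ((x : ℕ) + 1))) = true then 1 else 0)
          = t * 2 ^ (d - 1) := by
        rw [← Finset.sum_add_distrib, ← hKt x x.2]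
        apply Finset.sum_congr rfl
        intro y _
        rw [← sum_copies' t i (par d ((x : ℕ) + 1) ((y : ℕ) + 1))
          (QQ.testBit (((y : ℕ) + 1) * 2 ^ d + ((x : ℕ) + 1)))]
        congr 1
        apply Finset.sum_congr rfl
        intro j _
        have e2 : (rel d t n D' LL QQ (Sum.inl (y, j)) (Sum.inl (x, i))) =
            (par d ((y : ℕ) + 1) ((x : ℕ) + 1) = true ∧
              ¬ (j = i ∧ QQ.testBit (((y : ℕ) + 1) * 2 ^ d + ((x : ℕ) + 1)) = true)) := rfl
        simp only [e2]
        rw [par_comm d ((y : ℕ) + 1)]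
      have e2 := hcol x
      have e3 : (∑ l : Fin n, if rel d t n D' LL QQ (Sum.inr l) (Sum.inl (x, i)) then 1 else 0)
          = ∑ l : Fin n, if par d ((x : ℕ) + 1) (lab LL l) = true then 1 else 0 :=
        Finset.sum_congr rfl fun l _ => if_congr Iff.rfl rfl rfl
      rw [e3]
      omega
    · rw [Finset.card_filter, Fintype.sum_sum_type, Fintype.sum_prod_type]
      congr 1
      · obtain ⟨x, hx, hxl⟩ := hlab l
        rw [← hKt x hx]
        apply Finset.sum_congr rfl
        intro y _
        have e1 : ∀ j : Fin t, (rel d t n D' LL QQ (Sum.inl (y, j)) (Sum.inr l)) =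
            (par d ((y : ℕ) + 1) (lab LL l) = true) := fun j => rfl
        simp only [e1]
        rw [hxl, par_comm]
        simp
      · have e1 : (∑ l' : Fin n, if rel d t n D' LL QQ (Sum.inr l') (Sum.inr l) then 1 else 0)
            = ∑ l' : Fin n, if ((l - l' : Fin n) : ℕ) < D' then 1 else 0 :=
          Finset.sum_congr rfl fun l _ => if_congr Iff.rfl rfl rfl
        rw [e1]
        have e2 := Fintype.sum_equiv (Equiv.subLeft l)
          (fun l' : Fin n => if ((l - l' : Fin n) : ℕ) < D' then 1 else 0)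
          (fun z : Fin n => if (z : ℕ) < D' then 1 else 0) (fun l' => rfl)
        exact e2.trans (sum_lt n D' hn)

/-- The lower bound. -/
theorem bound (d t n D' LL QQ : ℕ) (hd : 1 ≤ d) (ht : 1 ≤ t) (hn1 : 1 ≤ n) (hn : D' ≤ n)
    (h0 : chk0 d = true) (h : chk d n D' LL QQ = true) (D : ℕ) (hD2 : 2 ≤ D)
    (hD : D ≤ t * 2 ^ (d - 1) + D') (r : ℝ) (hr : Admissible D r) :
    0 < (t : ℝ) * (2 ^ d - 1) + n - d ∧ (d : ℝ) * D ≤ r * (t * (2 ^ d - 1) + n - d) := by
  classical
  have hNZ : NeZero n := ⟨by omega⟩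
  have h2pow' : 2 ≤ 2 ^ d := by
    calc 2 = 2 ^ 1 := rfl
      _ ≤ 2 ^ d := Nat.pow_le_pow_right (by norm_num) hd
  obtain ⟨R, hR, hreg⟩ := reg_sub _ (rel d t n D' LL QQ) (rel_reg d t n D' LL QQ hn h0 h) D hD
  have hne : Nonempty (VX d t n × Bool) :=
    ⟨(Sum.inl (⟨0, by omega⟩, ⟨0, by omega⟩), false)⟩
  obtain ⟨S, hS, hpos, hb⟩ := regular_bound (bipR R) D hD2 (bipR_ncard R D hreg) r hr
  have hcard : Fintype.card (VX d t n × Bool) = ((2 ^ d - 1) * t + n) * 2 := by
    rw [Fintype.card_prod, Fintype.card_sum, Fintype.card_prod, Fintype.card_fin, Fintype.card_fin,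
      Fintype.card_fin, Fintype.card_bool]
  have h2d : 2 * d ≤ S.card := by
    apply dom_ge d R (code d t n LL) (fun x => Sum.inl (x, ⟨0, by omega⟩)) _ _ S hS
    · intro u x hux
      have h1 := hR _ _ hux
      rcases u with ⟨y, j⟩ | l
      · exact h1.1
      · have h2 : par d ((x : ℕ) + 1) (lab LL l) = true := h1
        rw [par_comm] at h2
        exact h2
    · intro u x hux
      have h1 := hR _ _ hux
      rcases u with ⟨y, j⟩ | l
      · have h2 := h1.1
        rw [par_comm] at h2
        exact h2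
      · have h2 : par d ((x : ℕ) + 1) (lab LL l) = true := h1
        rw [par_comm] at h2
        exact h2
  have hSle : (S.card : ℝ) ≤ Fintype.card (VX d t n × Bool) := by
    exact_mod_cast Finset.card_le_univ S
  have hN : (Fintype.card (VX d t n × Bool) : ℝ) = 2 * (t * (2 ^ d - 1) + n) := by
    rw [hcard]
    have : 1 ≤ 2 ^ d := Nat.one_le_two_pow
    push_cast [Nat.cast_sub this]
    ring
  rw [hN] at hb hSle
  have h2d' : (2 : ℝ) * d ≤ S.card := by exact_mod_cast h2d
  have ht' : (1 : ℝ) ≤ t := by exact_mod_cast ht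
  have hn1' : (1 : ℝ) ≤ n := by exact_mod_cast hn1
  have h2pow : (2 : ℝ) ≤ 2 ^ d := by exact_mod_cast h2pow'
  have hNpos : (0 : ℝ) < t * (2 ^ d - 1) + n := by
    have : 0 < (t : ℝ) * (2 ^ d - 1) := mul_pos (by linarith) (by linarith)
    linarith
  have hD' : (2 : ℝ) ≤ D := by exact_mod_cast hD2
  have hprod : 0 < ((D : ℝ) + r) * (2 * (t * (2 ^ d - 1) + n) - S.card) := by
    have : (0 : ℝ) < D * (2 * (t * (2 ^ d - 1) + n)) := by positivity
    linarith
  have hgap : 0 < 2 * ((t : ℝ) * (2 ^ d - 1) + n) - S.card := by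
    rcases lt_or_eq_of_le (sub_nonneg.2 hSle) with h | h
    · exact h
    · rw [← h, mul_zero] at hprod
      exact absurd hprod (lt_irrefl _)
  refine ⟨by linarith, ?_⟩
  have h3 : ((D : ℝ) + r) * (2 * (t * (2 ^ d - 1) + n) - S.card)
      ≤ (D + r) * (2 * (t * (2 ^ d - 1) + n) - 2 * d) :=
    mul_le_mul_of_nonneg_left (by linarith) hpos
  nlinarith

end Pool.Agent.Lib.MP_6659c6_co.Ext
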