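import Pool.Agent.Lib.MP_6659c6_co.ExtData6
import Pool.Agent.Lib.MP_6659c6_co.ExtData7

/-!
`r_Δ > 3` for `Δ = 16` and for all `Δ ≥ 29`.
-/

namespace Pool.Agent.Lib.MP_6659c6_co.Ext

open AllDeg

/-- Every admissible constant for `D = 16` and for `D ≥ 29` is larger than `3`. -/
theorem gt_three (D : ℕ) (hD : D = 16 ∨ 29 ≤ D) (r : ℝ) (hr : Admissible D r) : 3 < r := by
  rcases hD with rfl | hD
  · obtain ⟨h1, h2⟩ := family 5 1 16 (by norm_num) (by norm_num) (by norm_num) (by norm_num) r hr
    norm_num at h1 h2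
    linarith
  -- the code constructions
  have six : ∀ n D' : ℕ, (∃ LL QQ : ℕ, chk 6 n D' LL QQ = true) → 1 ≤ n → D' ≤ n →
      D ≤ 32 + D' → 3 * (57 + n) < 6 * D → 3 < r := by
    rintro n D' ⟨LL, QQ, h⟩ hn1 hn hle hlt
    obtain ⟨h1, h2⟩ := bound 6 1 n D' LL QQ (by norm_num) (by norm_num) hn1 hn chk0_6 h D
      (by omega) (by norm_num; exact hle) r hr
    have hlt' : (3 : ℝ) * (57 + n) < 6 * D := by exact_mod_cast hlt
    by_contra hneg
    push Not at hneg
    norm_num at h1 h2
    have h3 : r * (63 + (n : ℝ) - 6) ≤ 3 * (63 + (n : ℝ) - 6) :=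
      mul_le_mul_of_nonneg_right hneg (by linarith)
    linarith
  have seven : ∀ t n D' : ℕ, (∃ LL QQ : ℕ, chk 7 n D' LL QQ = true) → 1 ≤ t → 1 ≤ n → D' ≤ n →
      D ≤ t * 64 + D' → 3 * (127 * t + n) < 7 * D + 21 → 3 < r := by
    rintro t n D' ⟨LL, QQ, h⟩ ht hn1 hn hle hlt
    obtain ⟨h1, h2⟩ := bound 7 t n D' LL QQ (by norm_num) ht hn1 hn chk0_7 h D
      (by omega) (by norm_num; exact hle) r hr
    have hlt' : (3 : ℝ) * (127 * t + n) < 7 * D + 21 := by exact_mod_cast hlt
    by_contra hneg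
    push Not at hneg
    norm_num at h1 h2
    have h3 : r * ((t : ℝ) * 127 + n - 7) ≤ 3 * ((t : ℝ) * 127 + n - 7) :=
      mul_le_mul_of_nonneg_right hneg (by linarith)
    linarith
  have fam : ∀ d t : ℕ, 1 ≤ d → 1 ≤ t → D ≤ t * 2 ^ (d - 1) →
      3 * (t * 2 ^ d) < d * D + 3 * (t + d) → 3 < r := by
    intro d t hd ht hle hlt
    obtain ⟨h1, h2⟩ := family d t D hd ht (by omega) hle r hr
    have hlt' : (3 : ℝ) * (t * 2 ^ d) < d * D + 3 * (t + d) := by exact_mod_cast hlt
    by_contra hneg
    push Not at hneg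
    have h3 : r * ((t : ℝ) * (2 ^ d - 1) - d) ≤ 3 * ((t : ℝ) * (2 ^ d - 1) - d) :=
      mul_le_mul_of_nonneg_right hneg h1.le
    nlinarith
  rcases Nat.lt_or_ge D 33 with h | h
  · exact fam 6 1 (by norm_num) (by norm_num) (by norm_num; omega) (by norm_num; omega)
  rcases Nat.lt_or_ge D 35 with h' | h'
  · exact six 8 2 code_6_8_2 (by norm_num) (by norm_num) (by omega) (by omega)
  rcases Nat.lt_or_ge D 37 with h' | h'
  · exact six 12 4 code_6_12_4 (by norm_num) (by norm_num) (by omega) (by omega)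
  rcases Nat.lt_or_ge D 38 with h' | h'
  · exact six 16 6 code_6_16_6 (by norm_num) (by norm_num) (by omega) (by omega)
  rcases Nat.lt_or_ge D 41 with h' | h'
  · exact six 18 8 code_6_18_8 (by norm_num) (by norm_num) (by omega) (by omega)
  rcases Nat.lt_or_ge D 43 with h' | h'
  · exact six 24 10 code_6_24_10 (by norm_num) (by norm_num) (by omega) (by omega)
  rcases Nat.lt_or_ge D 45 with h' | h'
  · exact six 28 12 code_6_28_12 (by norm_num) (by norm_num) (by omega) (by omega)
  rcases Nat.lt_or_ge D 48 with h' | h'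
  · exact six 32 15 code_6_32_15 (by norm_num) (by norm_num) (by omega) (by omega)
  rcases Nat.lt_or_ge D 51 with h' | h'
  · exact six 38 18 code_6_38_18 (by norm_num) (by norm_num) (by omega) (by omega)
  rcases Nat.lt_or_ge D 52 with h' | h'
  · exact six 42 20 code_6_42_20 (by norm_num) (by norm_num) (by omega) (by omega)
  rcases Nat.lt_or_ge D 65 with h' | h'
  · exact fam 7 1 (by norm_num) (by norm_num) (by norm_num; omega) (by norm_num; omega)
  rcases Nat.lt_or_ge D 71 with h' | h'
  · exact seven 1 24 6 code_7_24_6 (by norm_num) (by norm_num) (by norm_num) (by omega) (by omega)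
  rcases Nat.lt_or_ge D 79 with h' | h'
  · exact seven 1 45 14 code_7_45_14 (by norm_num) (by norm_num) (by norm_num) (by omega)
      (by omega)
  rcases Nat.lt_or_ge D 96 with h' | h'
  · exact seven 1 64 31 code_7_64_31 (by norm_num) (by norm_num) (by norm_num) (by omega)
      (by omega)
  rcases Nat.lt_or_ge D 129 with h' | h'
  · exact fam 8 1 (by norm_num) (by norm_num) (by norm_num; omega) (by norm_num; omega)
  rcases Nat.lt_or_ge D 135 with h' | h'
  · exact seven 2 24 6 code_7_24_6 (by norm_num) (by norm_num) (by norm_num) (by omega) (by omega)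
  rcases Nat.lt_or_ge D 160 with h' | h'
  · exact seven 2 64 31 code_7_64_31 (by norm_num) (by norm_num) (by norm_num) (by omega)
      (by omega)
  rcases Nat.lt_or_ge D 161 with h' | h'
  · exact fam 6 5 (by norm_num) (by norm_num) (by norm_num; omega) (by norm_num; omega)
  rcases Nat.lt_or_ge D 193 with h' | h'
  · exact fam 7 3 (by norm_num) (by norm_num) (by norm_num; omega) (by norm_num; omega)
  rcases Nat.lt_or_ge D 257 with h' | h'
  · exact fam 9 1 (by norm_num) (by norm_num) (by norm_num; omega) (by norm_num; omega)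
  rcases Nat.lt_or_ge D 288 with h' | h'
  · exact seven 4 64 31 code_7_64_31 (by norm_num) (by norm_num) (by norm_num) (by omega)
      (by omega)
  exact AllDeg.gt_three D (by omega) r hr

end Pool.Agent.Lib.MP_6659c6_co.Ext
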