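import Pool.Agent.Lib.MP_6659c6_co.Defs

/-!
The bipartite point-hyperplane non-incidence graphs over `𝔽₂`.
-/

namespace Pool.Agent.Lib.MP_6659c6_co

open Finset

/-- Nonzero vectors of `𝔽₂^d`. -/
abbrev NZ (d : ℕ) : Type := {x : Fin d → ZMod 2 // x ≠ 0}

/-- The bipartite graph on two copies of the nonzero vectors of `𝔽₂^d`, where `x` on one side and
`y` on the other side are adjacent iff `x ⬝ y = 1`. -/
def hyp (d : ℕ) : SimpleGraph (NZ d × Bool) where
  Adj u v := u.2 ≠ v.2 ∧ u.1.1 ⬝ᵥ v.1.1 = 1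
  symm := ⟨fun u v h => ⟨h.1.symm, by rw [dotProduct_comm]; exact h.2⟩⟩
  loopless := ⟨fun u h => h.1 rfl⟩

lemma zmod2_cases (a : ZMod 2) : a = 0 ∨ a = 1 := by
  revert a; decide

lemma zmod2_one_of_ne {a : ZMod 2} (h : a ≠ 0) : a = 1 := (zmod2_cases a).resolve_left h

lemma card_dot_one (d : ℕ) (x : Fin d → ZMod 2) (hx : x ≠ 0) :
    2 * (univ.filter fun y : Fin d → ZMod 2 => x ⬝ᵥ y = 1).card = 2 ^ d := by
  obtain ⟨i, hi⟩ : ∃ i, x i ≠ 0 := by
    by_contra h
    push Not at h
    exact hx (funext h)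
  have hi1 := zmod2_one_of_ne hi
  have hflip : ∀ y : Fin d → ZMod 2, x ⬝ᵥ (y + Pi.single i 1) = x ⬝ᵥ y + 1 := by
    intro y
    rw [dotProduct_add, dotProduct_single, hi1, one_mul]
  have hcard : (univ.filter fun y : Fin d → ZMod 2 => x ⬝ᵥ y = 1).card
      = (univ.filter fun y : Fin d → ZMod 2 => ¬ x ⬝ᵥ y = 1).card := by
    apply Finset.card_bij (fun y _ => y + Pi.single i 1)
    · intro y hy
      rw [Finset.mem_filter] at hy ⊢
      refine ⟨Finset.mem_univ _, ?_⟩
      rw [hflip, hy.2]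
      decide
    · intro a _ b _ h
      exact add_right_cancel h
    · intro b hb
      rw [Finset.mem_filter] at hb
      refine ⟨b + Pi.single i 1, ?_, ?_⟩
      · rw [Finset.mem_filter]
        refine ⟨Finset.mem_univ _, ?_⟩
        rw [hflip, (zmod2_cases _).resolve_right hb.2]
        decide
      · rw [add_assoc, ← Pi.single_add]
        have : (1 : ZMod 2) + 1 = 0 := by decide
        rw [this]
        simp
  have htot := Finset.card_filter_add_card_filter_not (s := (univ : Finset (Fin d → ZMod 2)))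
    (fun y => x ⬝ᵥ y = 1)
  rw [← hcard, Finset.card_univ, Fintype.card_fun, ZMod.card, Fintype.card_fin] at htot
  omega

lemma hyp_neighborSet_ncard (d : ℕ) (hd : 1 ≤ d) (v : NZ d × Bool) :
    ((hyp d).neighborSet v).ncard = 2 ^ (d - 1) := by
  obtain ⟨⟨x, hx⟩, b⟩ := v
  have h := card_dot_one d x hx
  have h2 : (2 : ℕ) ^ d = 2 * 2 ^ (d - 1) := by
    rw [← pow_succ']
    congr 1
    omega
  have h3 : (univ.filter fun y : Fin d → ZMod 2 => x ⬝ᵥ y = 1).card = 2 ^ (d - 1) := by omega
  rw [← h3, ← Set.ncard_coe_finset]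
  symm
  apply Set.ncard_congr (fun y hy => ((⟨y, by
    rintro rfl
    simp at hy⟩ : NZ d), !b))
  · intro y hy
    rw [SimpleGraph.mem_neighborSet]
    simp at hy
    exact ⟨by simp, hy⟩
  · intro y z hy hz h
    simpa using h
  · rintro ⟨⟨y, hy⟩, c⟩ hc
    rw [SimpleGraph.mem_neighborSet] at hc
    obtain ⟨h1, h2⟩ := hc
    simp only at h1 h2
    refine ⟨y, by simpa using h2, ?_⟩
    have : (!b) = c := by
      cases b <;> cases c <;> simp_all
    simp [this]

lemma card_NZ (d : ℕ) : Fintype.card (NZ d) = 2 ^ d - 1 := by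
  rw [Fintype.card_subtype_compl, Fintype.card_fun, ZMod.card, Fintype.card_fin]
  simp

lemma exists_common (d : ℕ) (x x' : Fin d → ZMod 2) (hx : x ≠ 0) (hx' : x' ≠ 0) :
    ∃ y : Fin d → ZMod 2, y ≠ 0 ∧ x ⬝ᵥ y = 1 ∧ x' ⬝ᵥ y = 1 := by
  have key : ∃ y : Fin d → ZMod 2, x ⬝ᵥ y = 1 ∧ x' ⬝ᵥ y = 1 := by
    by_cases hcom : ∃ i, x i ≠ 0 ∧ x' i ≠ 0
    · obtain ⟨i, h1, h2⟩ := hcom
      refine ⟨Pi.single i 1, ?_, ?_⟩
      · rw [dotProduct_single, mul_one]; exact zmod2_one_of_ne h1
      · rw [dotProduct_single, mul_one]; exact zmod2_one_of_ne h2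
    · push Not at hcom
      obtain ⟨i, hi⟩ : ∃ i, x i ≠ 0 := by
        by_contra h
        push Not at h
        exact hx (funext h)
      obtain ⟨j, hj⟩ : ∃ j, x' j ≠ 0 := by
        by_contra h
        push Not at h
        exact hx' (funext h)
      have h1 : x' i = 0 := hcom i hi
      have h2 : x j = 0 := by
        by_contra h
        exact hj (hcom j h)
      refine ⟨Pi.single i 1 + Pi.single j 1, ?_, ?_⟩
      · rw [dotProduct_add, dotProduct_single, dotProduct_single, h2, zmod2_one_of_ne hi]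
        decide
      · rw [dotProduct_add, dotProduct_single, dotProduct_single, h1, zmod2_one_of_ne hj]
        decide
  obtain ⟨y, h1, h2⟩ := key
  refine ⟨y, ?_, h1, h2⟩
  rintro rfl
  simp at h1

lemma hyp_connected (d : ℕ) (hd : 1 ≤ d) : (hyp d).Connected := by
  have hside : ∀ (x x' : NZ d) (b : Bool), (hyp d).Reachable (x, b) (x', b) := by
    intro x x' b
    obtain ⟨y, hy, h1, h2⟩ := exists_common d x.1 x'.1 x.2 x'.2
    have a1 : (hyp d).Adj (x, b) (⟨y, hy⟩, !b) := ⟨by simp, h1⟩
    have a2 : (hyp d).Adj (⟨y, hy⟩, !b) (x', b) := ⟨by simp, by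
      rw [dotProduct_comm]; exact h2⟩
    exact a1.reachable.trans a2.reachable
  rw [SimpleGraph.connected_iff_exists_forall_reachable]
  have hne : (Pi.single ⟨0, by omega⟩ 1 : Fin d → ZMod 2) ≠ 0 := by
    intro h
    have := congrFun h ⟨0, by omega⟩
    simp at this
  refine ⟨(⟨_, hne⟩, false), ?_⟩
  rintro ⟨x, c⟩
  cases c
  · exact hside _ _ _
  · obtain ⟨y, hy, h1, _⟩ := exists_common d _ _ hne hne
    have a1 : (hyp d).Adj (⟨_, hne⟩, false) (⟨y, hy⟩, true) := ⟨by simp, h1⟩
    exact a1.reachable.trans (hside _ _ _)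

lemma hyp_totalDom_ge (d : ℕ) : 2 * d ≤ totalDomNumber (hyp d) := by
  classical
  unfold totalDomNumber
  apply le_csInf
  · refine ⟨_, Finset.univ, ?_, rfl⟩
    rintro ⟨x, b⟩
    obtain ⟨y, hy, h1, _⟩ := exists_common d x.1 x.1 x.2 x.2
    exact ⟨(⟨y, hy⟩, !b), Finset.mem_univ _, by simp, h1⟩
  · rintro m ⟨D, hD, rfl⟩
    have hside : ∀ b : Bool, d ≤ (univ.filter fun x : NZ d => (x, b) ∈ D).card := by
      intro b
      set T := univ.filter fun x : NZ d => (x, b) ∈ D with hT
      let φ : (Fin d → ZMod 2) → (T → ZMod 2) := fun y t => t.1.1 ⬝ᵥ y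
      have hφ : Function.Injective φ := by
        intro y z hyz
        by_contra hne
        have hne' : y - z ≠ 0 := sub_ne_zero.2 hne
        obtain ⟨u, hu, hadj⟩ := hD (⟨y - z, hne'⟩, !b)
        obtain ⟨h1, h2⟩ := hadj
        simp only at h1 h2
        have hub : u.2 = b := by
          revert h1
          cases b <;> cases u.2 <;> simp
        have hmem : u.1 ∈ T := by
          rw [hT, Finset.mem_filter]
          refine ⟨Finset.mem_univ _, ?_⟩
          rw [← hub]
          exact hu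
        have h3 := congrFun hyz ⟨u.1, hmem⟩
        simp only [φ] at h3
        rw [dotProduct_comm, dotProduct_sub, h3, sub_self] at h2
        exact absurd h2 (by decide)
      have hc := Fintype.card_le_of_injective φ hφ
      rw [Fintype.card_fun, Fintype.card_fun, ZMod.card, Fintype.card_fin,
        Fintype.card_coe] at hc
      exact (Nat.pow_le_pow_iff_right (by norm_num)).1 hc
    have hsub : ((univ.filter fun x : NZ d => (x, false) ∈ D).image fun x => (x, false)) ∪
        ((univ.filter fun x : NZ d => (x, true) ∈ D).image fun x => (x, true)) ⊆ D := by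
      intro u hu
      rw [Finset.mem_union, Finset.mem_image, Finset.mem_image] at hu
      rcases hu with ⟨x, hx, rfl⟩ | ⟨x, hx, rfl⟩
      · rw [Finset.mem_filter] at hx
        exact hx.2
      · rw [Finset.mem_filter] at hx
        exact hx.2
    have hdisj : Disjoint
        ((univ.filter fun x : NZ d => (x, false) ∈ D).image fun x => (x, false))
        ((univ.filter fun x : NZ d => (x, true) ∈ D).image fun x => (x, true)) := by
      rw [Finset.disjoint_left]
      intro u hu hu'
      rw [Finset.mem_image] at hu hu'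
      obtain ⟨x, _, rfl⟩ := hu
      obtain ⟨y, _, h⟩ := hu'
      simp at h
    have hc := Finset.card_le_card hsub
    rw [Finset.card_union_of_disjoint hdisj, Finset.card_image_of_injective,
      Finset.card_image_of_injective] at hc
    · have h1 := hside false
      have h2 := hside true
      omega
    · intro a b h
      simpa using h
    · intro a b h
      simpa using h

lemma hyp_edges (d : ℕ) (hd : 1 ≤ d) :
    (hyp d).edgeSet.ncard = (2 ^ d - 1) * 2 ^ (d - 1) := by
  classical
  have h := (hyp d).sum_degrees_eq_twice_card_edges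
  have hdeg : ∀ v, (hyp d).degree v = 2 ^ (d - 1) := by
    intro v
    have := hyp_neighborSet_ncard d hd v
    rwa [Set.ncard_eq_toFinset_card', Set.toFinset_card, SimpleGraph.card_neighborSet_eq_degree]
      at this
  simp only [hdeg] at h
  rw [Finset.sum_const, Finset.card_univ, Fintype.card_prod, Fintype.card_bool, smul_eq_mul,
    card_NZ] at h
  have hm : (hyp d).edgeSet.ncard = (hyp d).edgeFinset.card := by
    rw [Set.ncard_eq_toFinset_card']
    rfl
  rw [hm]
  have : 2 * (hyp d).edgeFinset.card = 2 * ((2 ^ d - 1) * 2 ^ (d - 1)) := by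
    rw [← h]; ring
  omega

/-- The resulting lower bound. -/
theorem hyp_lower (d : ℕ) (hd : 3 ≤ d) (r : ℝ) (hr : Admissible (2 ^ (d - 1)) r) :
    (d : ℝ) * 2 ^ (d - 1) / (2 ^ d - 1 - d) ≤ r := by
  have hd1 : 1 ≤ d := by omega
  have hcardV : Fintype.card (NZ d × Bool) = (2 ^ d - 1) * 2 := by
    rw [Fintype.card_prod, card_NZ, Fintype.card_bool]
  have hpow8 : 2 ^ 3 ≤ 2 ^ d := Nat.pow_le_pow_right (by norm_num) hd
  have hpow : 2 ^ d = 2 * 2 ^ (d - 1) := by
    rw [← pow_succ']
    congr 1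
    omega
  have h := hr (NZ d × Bool) (hyp d) (hyp_connected d hd1) (by rw [hcardV]; omega)
    (fun v => (hyp_neighborSet_ncard d hd1 v).le)
  rw [hyp_edges d hd1, hcardV] at h
  have hcast : (((2 ^ d - 1 : ℕ)) : ℝ) = 2 ^ d - 1 := by
    rw [Nat.cast_sub (by omega)]
    push_cast
    ring
  push_cast [hcast] at h
  have hγ := hyp_totalDom_ge d
  have hγ' : (2 : ℝ) * d ≤ totalDomNumber (hyp d) := by exact_mod_cast hγ
  have hγle : (totalDomNumber (hyp d) : ℝ) ≤ (2 ^ d - 1) * 2 := by
    have h1 : totalDomNumber (hyp d) ≤ (Finset.univ : Finset (NZ d × Bool)).card := by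
      apply Nat.sInf_le
      refine ⟨Finset.univ, ?_, rfl⟩
      rintro ⟨x, b⟩
      obtain ⟨y, hy, h1, _⟩ := exists_common d x.1 x.1 x.2 x.2
      exact ⟨(⟨y, hy⟩, !b), Finset.mem_univ _, by simp, h1⟩
    rw [Finset.card_univ, hcardV] at h1
    have h2 : (totalDomNumber (hyp d) : ℝ) ≤ (((2 ^ d - 1) * 2 : ℕ) : ℝ) := by exact_mod_cast h1
    rw [Nat.cast_mul, hcast] at h2
    exact_mod_cast h2
  set N : ℝ := 2 ^ d - 1 with hN
  set q : ℝ := 2 ^ (d - 1) with hq
  have hq0 : 0 < q := by rw [hq]; positivity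
  have hNpos : 0 < N := by
    have : (8 : ℝ) ≤ 2 ^ d := by exact_mod_cast hpow8
    rw [hN]; linarith
  have hdN : 0 < N - d := by
    have h1 : d + 1 < 2 ^ d := by
      clear * - hd
      induction d, hd using Nat.le_induction with
      | base => norm_num
      | succ n hn ih => rw [pow_succ]; omega
    have h2 : ((d : ℝ) + 1) < 2 ^ d := by exact_mod_cast h1
    rw [hN]; linarith
  have hgpos : 0 < N * 2 - totalDomNumber (hyp d) := by
    rcases lt_or_eq_of_le (sub_nonneg.2 hγle) with h1 | h1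
    · exact h1
    · rw [← h1, mul_zero] at h
      nlinarith
  have hsum : 0 < q + r := by
    by_contra hneg
    push Not at hneg
    have : 1 / 2 * (q + r) * (N * 2 - totalDomNumber (hyp d)) ≤ 0 := by
      apply mul_nonpos_of_nonpos_of_nonneg _ hgpos.le
      linarith
    nlinarith
  have h2 : 1 / 2 * (q + r) * (N * 2 - totalDomNumber (hyp d))
      ≤ 1 / 2 * (q + r) * (N * 2 - 2 * d) := by
    apply mul_le_mul_of_nonneg_left _ (by positivity)
    linarith
  rw [div_le_iff₀ (by linarith)]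
  nlinarith

end Pool.Agent.Lib.MP_6659c6_co
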