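import Mathlib

/-!
Leaf 2 (MP_6659c6_co, random permutations). Counting permutations.

`card_perm_map`: the number of permutations `π` with `π(S) = T` (written with the inverse:
`π⁻¹ y ∈ S ↔ y ∈ T`) is at most `N! / C(N, |S|)`.
Proof: if `|T| ≠ |S|` there is none. Otherwise all the sets `{π : π(S) = T'}` with `|T'| = |S|`
have the same size (compose with a permutation that maps `T` onto `T'`, it exists because the
sets and their complements have equal sizes), they are disjoint, and there are `C(N, |S|)` of
them.

`card_perm_eq`: the number of permutations with `π x = y` is `N! / N`, here in the form with two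
coordinates: among all families `ω` of permutations, the number with `ω i x = ω j x` times `N` is
`(N!)^D`. Proof: for fixed `ω` off coordinate `j`, replace `ω j` by `swap (ω j x) z * ω j`: this
shows that the number of `ω` with `ω j x = z (ω i)`, `z` depending on `ω i` only, does not depend
on `z`; or count `#{π : π x = y} = (N - 1)!` for all `y` (all equal by composition with a swap,
sum `N!`) and sum over the other coordinates.
-/

namespace Pool.Agent.Lib.MP_6659c6_co.Rand

open Finset Classical

theorem card_perm_map (N : ℕ) (S T : Finset (Fin N)) :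
    N.choose S.card *
      (univ.filter fun π : Equiv.Perm (Fin N) => ∀ y, π.symm y ∈ S ↔ y ∈ T).card ≤
      N.factorial := by
  by_cases hc : T.card = S.card
  · have hσ : ∀ T' : Finset (Fin N), T'.card = S.card →
        ∃ σ : Equiv.Perm (Fin N), ∀ y, σ y ∈ T' ↔ y ∈ T := by
      intro T' hT'
      have e : {y // y ∈ T} ≃ {y // y ∈ T'} :=
        Fintype.equivOfCardEq (by simp [hc, hT'])
      refine ⟨e.extendSubtype, fun y => ?_⟩
      constructor
      · intro h
        by_contra hy
        exact e.extendSubtype_not_mem y hy h
      · intro h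
        exact e.extendSubtype_mem y h
    choose! σ hσ using hσ
    have hle : ((univ.powersetCard S.card : Finset (Finset (Fin N))) ×ˢ
        (univ.filter fun π : Equiv.Perm (Fin N) => ∀ y, π.symm y ∈ S ↔ y ∈ T)).card ≤
        (univ : Finset (Equiv.Perm (Fin N))).card := by
      refine Finset.card_le_card_of_injOn (fun q => σ q.1 * q.2) (fun _ _ => Finset.mem_coe.2 (mem_univ _)) ?_
      have key : ∀ q : Finset (Fin N) × Equiv.Perm (Fin N),
          q ∈ ((univ.powersetCard S.card : Finset (Finset (Fin N))) ×ˢ
            (univ.filter fun π : Equiv.Perm (Fin N) => ∀ y, π.symm y ∈ S ↔ y ∈ T)) →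
          ∀ x, (σ q.1 * q.2) x ∈ q.1 ↔ x ∈ S := by
        rintro ⟨T', π⟩ hq x
        simp only [mem_product, mem_powersetCard, mem_filter, mem_univ, true_and] at hq
        obtain ⟨⟨-, hT'⟩, hπ⟩ := hq
        show σ T' (π x) ∈ T' ↔ x ∈ S
        rw [hσ T' hT' (π x)]
        have := hπ (π x)
        rw [Equiv.symm_apply_apply] at this
        exact this.symm
      rintro ⟨T₁, π₁⟩ h₁ ⟨T₂, π₂⟩ h₂ h
      have h₁' := key _ (Finset.mem_coe.1 h₁)
      have h₂' := key _ (Finset.mem_coe.1 h₂)
      simp only at h h₁' h₂'
      have hT : T₁ = T₂ := by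
        ext y
        have a := h₁' ((σ T₁ * π₁).symm y)
        have b := h₂' ((σ T₂ * π₂).symm y)
        rw [Equiv.apply_symm_apply] at a b
        rw [a, b, h]
      subst hT
      rw [mul_right_inj] at h
      rw [h]
    rw [card_product, card_powersetCard, card_univ, card_univ, Fintype.card_fin,
      Fintype.card_perm, Fintype.card_fin] at hle
    exact hle
  · have : (univ.filter fun π : Equiv.Perm (Fin N) => ∀ y, π.symm y ∈ S ↔ y ∈ T) = ∅ := by
      rw [Finset.filter_eq_empty_iff]
      intro π _ h
      apply hc
      have : T = S.map π.toEmbedding := by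
        ext y
        rw [← h y]
        simp [Finset.mem_map, Equiv.symm_apply_eq, eq_comm]
      rw [this, card_map]
    rw [this]
    simp

theorem card_perm_eq (N D : ℕ) (i j : Fin D) (hij : i ≠ j) (x : Fin N) :
    N * (univ.filter fun ω : Fin D → Equiv.Perm (Fin N) => ω i x = ω j x).card ≤
      N.factorial ^ D := by
  have hle : ((univ : Finset (Fin N)) ×ˢ
      (univ.filter fun ω : Fin D → Equiv.Perm (Fin N) => ω i x = ω j x)).card ≤
      (univ : Finset (Fin D → Equiv.Perm (Fin N))).card := by
    refine Finset.card_le_card_of_injOn
      (fun q => Function.update q.2 j (Equiv.swap (q.2 i x) q.1 * q.2 j))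
      (fun _ _ => Finset.mem_coe.2 (mem_univ _)) ?_
    rintro ⟨z₁, ω₁⟩ h₁ ⟨z₂, ω₂⟩ h₂ h
    simp only [coe_product, coe_univ, coe_filter, mem_univ, true_and, Set.mem_prod,
      Set.mem_univ, Set.mem_setOf_eq] at h₁ h₂
    simp only at h
    have hi := congrFun h i
    rw [Function.update_of_ne hij, Function.update_of_ne hij] at hi
    have hj := congrFun h j
    rw [Function.update_self, Function.update_self] at hj
    have hz : z₁ = z₂ := by
      have := congrArg (fun e : Equiv.Perm (Fin N) => e x) hj
      simp only [Equiv.Perm.mul_apply] at this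
      rw [← h₁, ← h₂, Equiv.swap_apply_left, Equiv.swap_apply_left] at this
      exact this
    subst hz
    rw [hi, mul_right_inj] at hj
    have hω : ω₁ = ω₂ := by
      funext k
      by_cases hk : k = j
      · rw [hk, hj]
      · have := congrFun h k
        rw [Function.update_of_ne hk, Function.update_of_ne hk] at this
        exact this
    rw [hω]
  rw [card_product, card_univ, card_univ, Fintype.card_fin, Fintype.card_fun,
    Fintype.card_perm, Fintype.card_fin, Fintype.card_fin] at hle
  exact hle

end Pool.Agent.Lib.MP_6659c6_co.Rand
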