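import Mathlib

/-!
Leaf 4 (MP_6659c6_co, random permutations). The weighted sum over 0/1 matrices without zero row.

`matrix_sum`: the sum over all `M : Fin N → Fin D → Bool` with a `true` in each row of the product
of `a` for each `true` and `1 - a` for each `false` is `(1 - (1-a)^D)^N`.
Proof: `∏_y ∑_{row with a true} ∏_i w (row i)` expands by `Finset.prod_univ_sum` (or
`Finset.prod_sum`, `Fintype.piFinset`), each factor is `∑_{all rows} ∏_i w (row i) - (1-a)^D` and
`∑_{all rows} ∏_i w (row i) = (w true + w false)^D = 1`.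
-/

namespace Pool.Agent.Lib.MP_6659c6_co.Rand

open Finset Classical

/-- The weight `a` for `true` and `1 - a` for `false`. -/
noncomputable def wt (a : ℝ) (b : Bool) : ℝ := if b = true then a else 1 - a

private theorem row_sum_all (D : ℕ) (a : ℝ) :
    ∑ r : Fin D → Bool, ∏ i, wt a (r i) = 1 := by
  have h := Finset.prod_univ_sum (fun _ : Fin D => (univ : Finset Bool)) (fun _ b => wt a b)
  rw [Fintype.piFinset_univ] at h
  rw [← h]
  have h2 : ∀ i ∈ (univ : Finset (Fin D)), ∑ b : Bool, wt a b = 1 := by
    intro i _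
    simp [wt]
  rw [Finset.prod_congr rfl h2]
  simp

private theorem row_sum (D : ℕ) (a : ℝ) :
    ∑ r ∈ (univ.filter fun r : Fin D → Bool => ∃ i, r i = true), ∏ i, wt a (r i) =
      1 - (1 - a) ^ D := by
  have h1 := Finset.sum_filter_add_sum_filter_not (univ : Finset (Fin D → Bool))
    (fun r => ∃ i, r i = true) (fun r => ∏ i, wt a (r i))
  rw [row_sum_all] at h1
  have h2 : (univ.filter fun r : Fin D → Bool => ¬ ∃ i, r i = true) = {fun _ => false} := by
    ext r
    simp only [mem_filter, mem_univ, true_and, mem_singleton, not_exists, Bool.not_eq_true]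
    constructor
    · intro h
      funext i
      exact h i
    · rintro rfl i
      rfl
  rw [h2, Finset.sum_singleton] at h1
  have h3 : ∏ _i : Fin D, wt a false = (1 - a) ^ D := by
    simp [wt]
  rw [h3] at h1
  linarith

theorem matrix_sum (N D : ℕ) (a : ℝ) :
    ∑ M ∈ (univ.filter fun M : Fin N → Fin D → Bool => ∀ y, ∃ i, M y i = true),
      ∏ y, ∏ i, wt a (M y i) = (1 - (1 - a) ^ D) ^ N := by
  have h := Finset.prod_univ_sum
    (fun _ : Fin N => (univ.filter fun r : Fin D → Bool => ∃ i, r i = true))
    (fun _ r => ∏ i, wt a (r i))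
  have h2 : Fintype.piFinset
      (fun _ : Fin N => (univ.filter fun r : Fin D → Bool => ∃ i, r i = true)) =
      (univ.filter fun M : Fin N → Fin D → Bool => ∀ y, ∃ i, M y i = true) := by
    ext M
    simp [Fintype.mem_piFinset]
  rw [h2] at h
  rw [← h]
  have h3 : ∀ y ∈ (univ : Finset (Fin N)),
      ∑ r ∈ (univ.filter fun r : Fin D → Bool => ∃ i, r i = true), ∏ i, wt a (r i) =
        1 - (1 - a) ^ D := fun _ _ => row_sum D a
  rw [Finset.prod_congr rfl h3]
  simp

end Pool.Agent.Lib.MP_6659c6_co.Rand
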