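import Pool.Agent.Lib.MP_6659c6_co.RandMode
import Pool.Agent.Lib.MP_6659c6_co.RandPerm
import Pool.Agent.Lib.MP_6659c6_co.RandSum

/-!
MP_6659c6_co, random permutations: the number of families of permutations for which a fixed set
of vertices dominates the other side.
-/

namespace Pool.Agent.Lib.MP_6659c6_co.Rand

open Finset Classical

/-- `S` dominates: each `y` is the image of an element of `S` under one of the permutations. -/
def Cov {N D : ℕ} (ω : Fin D → Equiv.Perm (Fin N)) (S : Finset (Fin N)) : Prop :=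
  ∀ y, ∃ i, (ω i).symm y ∈ S

lemma wt_nonneg {a : ℝ} (h0 : 0 ≤ a) (h1 : a ≤ 1) (b : Bool) : 0 ≤ wt a b := by
  unfold wt
  split_ifs <;> linarith

lemma prod_wt {N : ℕ} (a : ℝ) (c : Fin N → Bool) :
    ∏ y, wt a (c y) = a ^ (univ.filter fun y => c y = true).card *
      (1 - a) ^ (N - (univ.filter fun y => c y = true).card) := by
  unfold wt
  rw [Finset.prod_ite, Finset.prod_const, Finset.prod_const]
  congr 2
  have := Finset.card_filter_add_card_filter_not (s := (univ : Finset (Fin N)))
    (fun y => c y = true)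
  rw [Finset.card_univ, Fintype.card_fin] at this
  omega

lemma perm_count {N k : ℕ} (hk : 0 < k) (hkN : k < N) (S : Finset (Fin N)) (hS : S.card = k)
    (c : Fin N → Bool) :
    ((univ.filter fun π : Equiv.Perm (Fin N) => ∀ y, π.symm y ∈ S ↔ c y = true).card : ℝ) ≤
      N.factorial * (N + 1) * ∏ y, wt ((k : ℝ) / N) (c y) := by
  have hN0 : (0 : ℝ) < N := by exact_mod_cast (by omega : 0 < N)
  have hk0 : (0 : ℝ) < k := by exact_mod_cast hk
  have hkN' : (k : ℝ) < N := by exact_mod_cast hkN
  have ha0 : 0 ≤ (k : ℝ) / N := by positivity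
  have ha1 : (k : ℝ) / N ≤ 1 := by rw [div_le_one hN0]; exact hkN'.le
  by_cases hT : (univ.filter fun y => c y = true).card = k
  · rw [prod_wt, hT]
    have h1 := card_perm_map N S (univ.filter fun y => c y = true)
    rw [hS] at h1
    have e : (univ.filter fun π : Equiv.Perm (Fin N) => ∀ y, π.symm y ∈ S ↔
        y ∈ (univ.filter fun y => c y = true))
        = (univ.filter fun π : Equiv.Perm (Fin N) => ∀ y, π.symm y ∈ S ↔ c y = true) := by
      apply Finset.filter_congr
      intro π _
      simp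
    rw [e] at h1
    have h2 := mode_bound N k hk hkN
    have hc : (0 : ℝ) < N.choose k := by exact_mod_cast Nat.choose_pos hkN.le
    have h1' : (N.choose k : ℝ) *
        (univ.filter fun π : Equiv.Perm (Fin N) => ∀ y, π.symm y ∈ S ↔ c y = true).card
        ≤ N.factorial := by exact_mod_cast h1
    have h2' : (N : ℝ) ^ N ≤ (N + 1) * (N.choose k * (k : ℝ) ^ k * ((N : ℝ) - k) ^ (N - k)) := by
      have : ((N ^ N : ℕ) : ℝ) ≤ (((N + 1) * (N.choose k * k ^ k * (N - k) ^ (N - k)) : ℕ) : ℝ) := by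
        exact_mod_cast h2
      push_cast [Nat.cast_sub hkN.le] at this
      exact this
    have h3 : 1 ≤ ((N : ℝ) + 1) * (N.choose k * (((k : ℝ) / N) ^ k *
        (1 - (k : ℝ) / N) ^ (N - k))) := by
      have e1 : 1 - (k : ℝ) / N = ((N : ℝ) - k) / N := by field_simp
      have e2 : ((k : ℝ) / N) ^ k * (1 - (k : ℝ) / N) ^ (N - k)
          = (k : ℝ) ^ k * ((N : ℝ) - k) ^ (N - k) / (N : ℝ) ^ N := by
        rw [e1, div_pow, div_pow]
        have : (N : ℝ) ^ N = (N : ℝ) ^ k * (N : ℝ) ^ (N - k) := by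
          rw [← pow_add]; congr 1; omega
        rw [this]
        field_simp
      rw [e2]
      have hNN : (0 : ℝ) < (N : ℝ) ^ N := by positivity
      rw [← mul_div_assoc, ← mul_div_assoc, le_div_iff₀ hNN, one_mul]
      calc (N : ℝ) ^ N ≤ _ := h2'
        _ = _ := by ring
    set X : ℝ := (((univ.filter fun π : Equiv.Perm (Fin N) =>
      ∀ y, π.symm y ∈ S ↔ c y = true).card : ℕ) : ℝ) with hX
    have hX0 : 0 ≤ X := by rw [hX]; exact Nat.cast_nonneg _
    set E : ℝ := ((k : ℝ) / N) ^ k * (1 - (k : ℝ) / N) ^ (N - k) with hE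
    have hE0 : 0 ≤ E := by
      have : 0 ≤ 1 - (k : ℝ) / N := by linarith
      positivity
    calc X = X * 1 := by ring
      _ ≤ X * (((N : ℝ) + 1) * (N.choose k * E)) := mul_le_mul_of_nonneg_left h3 hX0
      _ = ((N.choose k : ℝ) * X) * ((N + 1) * E) := by ring
      _ ≤ N.factorial * ((N + 1) * E) := mul_le_mul_of_nonneg_right h1' (by positivity)
      _ = _ := by ring
  · have hempty : (univ.filter fun π : Equiv.Perm (Fin N) => ∀ y, π.symm y ∈ S ↔ c y = true)
        = ∅ := by
      rw [Finset.filter_eq_empty_iff]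
      intro π _ hπ
      apply hT
      rw [← hS]
      apply Finset.card_bij (fun y _ => π.symm y)
      · intro y hy
        rw [Finset.mem_filter] at hy
        exact (hπ y).2 hy.2
      · intro y _ z _ h
        exact π.symm.injective h
      · intro x hx
        refine ⟨π x, ?_, by simp⟩
        rw [Finset.mem_filter]
        exact ⟨Finset.mem_univ _, (hπ (π x)).1 (by simpa using hx)⟩
    rw [hempty, Finset.card_empty, Nat.cast_zero]
    have : 0 ≤ ∏ y, wt ((k : ℝ) / N) (c y) :=
      Finset.prod_nonneg fun y _ => wt_nonneg ha0 ha1 _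
    positivity

theorem bad_count {N D k : ℕ} (hk : 0 < k) (hkN : k < N) (S : Finset (Fin N))
    (hS : S.card = k) :
    ((univ.filter fun ω : Fin D → Equiv.Perm (Fin N) => Cov ω S).card : ℝ) ≤
      ((N.factorial : ℝ) * (N + 1)) ^ D * (1 - (1 - (k : ℝ) / N) ^ D) ^ N := by
  have hN0 : (0 : ℝ) < N := by exact_mod_cast (by omega : 0 < N)
  have hkN' : (k : ℝ) < N := by exact_mod_cast hkN
  have ha0 : 0 ≤ (k : ℝ) / N := by positivity
  have ha1 : (k : ℝ) / N ≤ 1 := by rw [div_le_one hN0]; exact hkN'.le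
  let f : (Fin D → Equiv.Perm (Fin N)) → (Fin N → Fin D → Bool) :=
    fun ω y i => decide ((ω i).symm y ∈ S)
  have hmaps : ∀ ω ∈ (univ.filter fun ω : Fin D → Equiv.Perm (Fin N) => Cov ω S),
      f ω ∈ (univ.filter fun M : Fin N → Fin D → Bool => ∀ y, ∃ i, M y i = true) := by
    intro ω hω
    rw [Finset.mem_filter] at hω ⊢
    refine ⟨Finset.mem_univ _, fun y => ?_⟩
    obtain ⟨i, hi⟩ := hω.2 y
    exact ⟨i, by simp [f, hi]⟩
  rw [Finset.card_eq_sum_card_fiberwise hmaps, ← matrix_sum N D ((k : ℝ) / N), Finset.mul_sum]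
  push_cast
  apply Finset.sum_le_sum
  intro M _
  have h1 : ((univ.filter fun ω : Fin D → Equiv.Perm (Fin N) => Cov ω S).filter
      fun ω => f ω = M).card ≤ ∏ i : Fin D, (univ.filter fun π : Equiv.Perm (Fin N) =>
        ∀ y, π.symm y ∈ S ↔ M y i = true).card := by
    rw [← Fintype.card_piFinset]
    apply Finset.card_le_card
    intro ω hω
    rw [Finset.mem_filter] at hω
    rw [Fintype.mem_piFinset]
    intro i
    rw [Finset.mem_filter]
    refine ⟨Finset.mem_univ _, fun y => ?_⟩
    rw [← hω.2]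
    simp [f]
  have h2 : (((univ.filter fun ω : Fin D → Equiv.Perm (Fin N) => Cov ω S).filter
      fun ω => f ω = M).card : ℝ) ≤ ∏ i : Fin D, ((univ.filter fun π : Equiv.Perm (Fin N) =>
        ∀ y, π.symm y ∈ S ↔ M y i = true).card : ℝ) := by exact_mod_cast h1
  refine h2.trans ?_
  have h3 : ∏ i : Fin D, ((univ.filter fun π : Equiv.Perm (Fin N) =>
        ∀ y, π.symm y ∈ S ↔ M y i = true).card : ℝ) ≤
      ∏ i : Fin D, ((N.factorial : ℝ) * (N + 1) * ∏ y, wt ((k : ℝ) / N) (M y i)) := by
    apply Finset.prod_le_prod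
    · intro i _
      exact Nat.cast_nonneg _
    · intro i _
      exact perm_count hk hkN S hS (fun y => M y i)
  refine h3.trans (le_of_eq ?_)
  rw [Finset.prod_mul_distrib, Finset.prod_const, Finset.card_univ, Fintype.card_fin,
    Finset.prod_comm]

end Pool.Agent.Lib.MP_6659c6_co.Rand
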