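import Pool.Agent.Lib.MP_6659c6_co.RandBad

/-!
MP_6659c6_co, random permutations: existence of a good family of permutations with few
collisions.
-/

namespace Pool.Agent.Lib.MP_6659c6_co.Rand

open Finset Classical

/-- No set of `k` vertices on either side dominates the other side. -/
def Good {N D : ℕ} (k : ℕ) (ω : Fin D → Equiv.Perm (Fin N)) : Prop :=
  (∀ S : Finset (Fin N), S.card = k → ¬ Cov ω S) ∧
  (∀ T : Finset (Fin N), T.card = k → ¬ Cov (fun i => (ω i).symm) T)

/-- The number of collisions, over ordered pairs. -/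
def coll {N D : ℕ} (ω : Fin D → Equiv.Perm (Fin N)) : ℕ :=
  ∑ x : Fin N, (univ.filter fun q : Fin D × Fin D => q.1 ≠ q.2 ∧ ω q.1 x = ω q.2 x).card

lemma card_om (N D : ℕ) : Fintype.card (Fin D → Equiv.Perm (Fin N)) = N.factorial ^ D := by
  rw [Fintype.card_fun, Fintype.card_perm, Fintype.card_fin, Fintype.card_fin]

lemma card_symm {N D : ℕ} (T : Finset (Fin N)) :
    (univ.filter fun ω : Fin D → Equiv.Perm (Fin N) => Cov (fun i => (ω i).symm) T).card
      = (univ.filter fun ω : Fin D → Equiv.Perm (Fin N) => Cov ω T).card := by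
  apply Finset.card_bij (fun ω _ => fun i => (ω i).symm)
  · intro ω hω
    rw [Finset.mem_filter] at hω ⊢
    exact ⟨Finset.mem_univ _, hω.2⟩
  · intro ω _ ω' _ h
    funext i
    have := congrFun h i
    simpa using congrArg Equiv.symm this
  · intro ω hω
    rw [Finset.mem_filter] at hω
    refine ⟨fun i => (ω i).symm, ?_, ?_⟩
    · rw [Finset.mem_filter]
      refine ⟨Finset.mem_univ _, ?_⟩
      simpa using hω.2
    · funext i
      simp

lemma not_good_count {N D k : ℕ} (hk : 0 < k) (hkN : k < N) :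
    ((univ.filter fun ω : Fin D → Equiv.Perm (Fin N) => ¬ Good k ω).card : ℝ) ≤
      2 * N.choose k *
        (((N.factorial : ℝ) * (N + 1)) ^ D * (1 - (1 - (k : ℝ) / N) ^ D) ^ N) := by
  set B : ℝ := ((N.factorial : ℝ) * (N + 1)) ^ D * (1 - (1 - (k : ℝ) / N) ^ D) ^ N with hB
  have hsub : (univ.filter fun ω : Fin D → Equiv.Perm (Fin N) => ¬ Good k ω) ⊆
      ((powersetCard k (univ : Finset (Fin N))).biUnion fun S =>
        univ.filter fun ω : Fin D → Equiv.Perm (Fin N) => Cov ω S) ∪
      ((powersetCard k (univ : Finset (Fin N))).biUnion fun T =>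
        univ.filter fun ω : Fin D → Equiv.Perm (Fin N) => Cov (fun i => (ω i).symm) T) := by
    intro ω hω
    rw [Finset.mem_filter] at hω
    have h := hω.2
    unfold Good at h
    rw [not_and_or] at h
    push Not at h
    rw [Finset.mem_union, Finset.mem_biUnion, Finset.mem_biUnion]
    rcases h with ⟨S, hS, hc⟩ | ⟨S, hS, hc⟩
    · left
      exact ⟨S, Finset.mem_powersetCard.2 ⟨Finset.subset_univ _, hS⟩,
        Finset.mem_filter.2 ⟨Finset.mem_univ _, hc⟩⟩
    · right
      exact ⟨S, Finset.mem_powersetCard.2 ⟨Finset.subset_univ _, hS⟩,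
        Finset.mem_filter.2 ⟨Finset.mem_univ _, hc⟩⟩
  have h1 := (Finset.card_le_card hsub).trans (Finset.card_union_le _ _)
  have h2 : ∀ S ∈ powersetCard k (univ : Finset (Fin N)),
      (((univ.filter fun ω : Fin D → Equiv.Perm (Fin N) => Cov ω S).card : ℕ) : ℝ) ≤ B := by
    intro S hS
    exact bad_count hk hkN S (Finset.mem_powersetCard.1 hS).2
  have h3 : ∀ S ∈ powersetCard k (univ : Finset (Fin N)),
      (((univ.filter fun ω : Fin D → Equiv.Perm (Fin N) =>
        Cov (fun i => (ω i).symm) S).card : ℕ) : ℝ) ≤ B := by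
    intro S hS
    rw [card_symm]
    exact h2 S hS
  have hb1 : ((((powersetCard k (univ : Finset (Fin N))).biUnion fun S =>
        univ.filter fun ω : Fin D → Equiv.Perm (Fin N) => Cov ω S).card : ℕ) : ℝ)
      ≤ N.choose k * B := by
    have h4 : ((((powersetCard k (univ : Finset (Fin N))).biUnion fun S =>
        univ.filter fun ω : Fin D → Equiv.Perm (Fin N) => Cov ω S).card : ℕ) : ℝ)
        ≤ ∑ S ∈ powersetCard k (univ : Finset (Fin N)),
          (((univ.filter fun ω : Fin D → Equiv.Perm (Fin N) => Cov ω S).card : ℕ) : ℝ) := by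
      exact_mod_cast Finset.card_biUnion_le
    refine h4.trans ((Finset.sum_le_sum h2).trans (le_of_eq ?_))
    rw [Finset.sum_const, Finset.card_powersetCard, Finset.card_univ, Fintype.card_fin,
      nsmul_eq_mul]
  have hb2 : ((((powersetCard k (univ : Finset (Fin N))).biUnion fun S =>
        univ.filter fun ω : Fin D → Equiv.Perm (Fin N) =>
          Cov (fun i => (ω i).symm) S).card : ℕ) : ℝ) ≤ N.choose k * B := by
    have h4 : ((((powersetCard k (univ : Finset (Fin N))).biUnion fun S =>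
        univ.filter fun ω : Fin D → Equiv.Perm (Fin N) =>
          Cov (fun i => (ω i).symm) S).card : ℕ) : ℝ)
        ≤ ∑ S ∈ powersetCard k (univ : Finset (Fin N)),
          (((univ.filter fun ω : Fin D → Equiv.Perm (Fin N) =>
            Cov (fun i => (ω i).symm) S).card : ℕ) : ℝ) := by
      exact_mod_cast Finset.card_biUnion_le
    refine h4.trans ((Finset.sum_le_sum h3).trans (le_of_eq ?_))
    rw [Finset.sum_const, Finset.card_powersetCard, Finset.card_univ, Fintype.card_fin,
      nsmul_eq_mul]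
  have h1' : (((univ.filter fun ω : Fin D → Equiv.Perm (Fin N) => ¬ Good k ω).card : ℕ) : ℝ) ≤
      ((((powersetCard k (univ : Finset (Fin N))).biUnion fun S =>
        univ.filter fun ω : Fin D → Equiv.Perm (Fin N) => Cov ω S).card : ℕ) : ℝ) +
      ((((powersetCard k (univ : Finset (Fin N))).biUnion fun S =>
        univ.filter fun ω : Fin D → Equiv.Perm (Fin N) =>
          Cov (fun i => (ω i).symm) S).card : ℕ) : ℝ) := by exact_mod_cast h1
  linarith

lemma sum_coll {N D : ℕ} :
    ∑ ω : Fin D → Equiv.Perm (Fin N), coll ω ≤ D ^ 2 * N.factorial ^ D := by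
  rcases Nat.eq_zero_or_pos N with hN | hN
  · subst hN
    simp [coll]
  unfold coll
  rw [Finset.sum_comm]
  have h1 : ∀ x : Fin N, ∑ ω : Fin D → Equiv.Perm (Fin N),
      (univ.filter fun q : Fin D × Fin D => q.1 ≠ q.2 ∧ ω q.1 x = ω q.2 x).card
      = ∑ q ∈ (univ.filter fun q : Fin D × Fin D => q.1 ≠ q.2),
        (univ.filter fun ω : Fin D → Equiv.Perm (Fin N) => ω q.1 x = ω q.2 x).card := by
    intro x
    simp only [Finset.card_eq_sum_ones, Finset.sum_filter]
    rw [Finset.sum_comm]
    apply Finset.sum_congr rfl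
    intro q _
    by_cases hq : q.1 ≠ q.2
    · simp [hq]
    · simp [hq]
  have h2 : ∀ x : Fin N, N * ∑ ω : Fin D → Equiv.Perm (Fin N),
      (univ.filter fun q : Fin D × Fin D => q.1 ≠ q.2 ∧ ω q.1 x = ω q.2 x).card
      ≤ D ^ 2 * N.factorial ^ D := by
    intro x
    rw [h1, Finset.mul_sum]
    calc ∑ q ∈ (univ.filter fun q : Fin D × Fin D => q.1 ≠ q.2),
        N * (univ.filter fun ω : Fin D → Equiv.Perm (Fin N) => ω q.1 x = ω q.2 x).card
        ≤ ∑ q ∈ (univ.filter fun q : Fin D × Fin D => q.1 ≠ q.2), N.factorial ^ D := by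
          apply Finset.sum_le_sum
          intro q hq
          rw [Finset.mem_filter] at hq
          exact card_perm_eq N D q.1 q.2 hq.2 x
      _ ≤ D ^ 2 * N.factorial ^ D := by
          rw [Finset.sum_const, smul_eq_mul]
          apply Nat.mul_le_mul_right
          have := Finset.card_le_univ (univ.filter fun q : Fin D × Fin D => q.1 ≠ q.2)
          rw [Fintype.card_prod, Fintype.card_fin] at this
          rw [pow_two]
          exact this
  have h3 : N * ∑ x : Fin N, ∑ ω : Fin D → Equiv.Perm (Fin N),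
      (univ.filter fun q : Fin D × Fin D => q.1 ≠ q.2 ∧ ω q.1 x = ω q.2 x).card
      ≤ N * (D ^ 2 * N.factorial ^ D) := by
    rw [Finset.mul_sum]
    calc _ ≤ ∑ x : Fin N, D ^ 2 * N.factorial ^ D := Finset.sum_le_sum fun x _ => h2 x
      _ = _ := by rw [Finset.sum_const, Finset.card_univ, Fintype.card_fin, smul_eq_mul]
  exact Nat.le_of_mul_le_mul_left h3 hN

theorem exists_good {N D k : ℕ} (hk : 0 < k) (hkN : k < N)
    (hsmall : 4 * (N.choose k : ℝ) *
      (((N : ℝ) + 1) ^ D * (1 - (1 - (k : ℝ) / N) ^ D) ^ N) < 1) :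
    ∃ ω : Fin D → Equiv.Perm (Fin N), Good k ω ∧ coll ω ≤ 2 * D ^ 2 := by
  by_contra hcon
  push Not at hcon
  have h1 := not_good_count (D := D) hk hkN
  have hf : (0 : ℝ) < (N.factorial : ℝ) ^ D := by
    have : (0 : ℝ) < N.factorial := by exact_mod_cast N.factorial_pos
    positivity
  have h2 : 2 * (((univ.filter fun ω : Fin D → Equiv.Perm (Fin N) => ¬ Good k ω).card : ℕ) : ℝ)
      < (N.factorial : ℝ) ^ D := by
    have h3 : 2 * (2 * (N.choose k : ℝ) * (((N.factorial : ℝ) * (N + 1)) ^ D *
        (1 - (1 - (k : ℝ) / N) ^ D) ^ N)) =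
        (4 * (N.choose k : ℝ) * (((N : ℝ) + 1) ^ D * (1 - (1 - (k : ℝ) / N) ^ D) ^ N)) *
          (N.factorial : ℝ) ^ D := by
      rw [mul_pow]; ring
    calc _ ≤ 2 * (2 * (N.choose k : ℝ) * (((N.factorial : ℝ) * (N + 1)) ^ D *
        (1 - (1 - (k : ℝ) / N) ^ D) ^ N)) := by linarith
      _ = _ := h3
      _ < 1 * (N.factorial : ℝ) ^ D := mul_lt_mul_of_pos_right hsmall hf
      _ = _ := one_mul _
  have h2' : 2 * (univ.filter fun ω : Fin D → Equiv.Perm (Fin N) => ¬ Good k ω).card
      < N.factorial ^ D := by exact_mod_cast h2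
  have htot := Finset.card_filter_add_card_filter_not
    (s := (univ : Finset (Fin D → Equiv.Perm (Fin N)))) (fun ω => Good k ω)
  rw [Finset.card_univ, card_om] at htot
  have h4 : (2 * D ^ 2 + 1) * (univ.filter fun ω : Fin D → Equiv.Perm (Fin N) => Good k ω).card
      ≤ ∑ ω : Fin D → Equiv.Perm (Fin N), coll ω := by
    calc (2 * D ^ 2 + 1) * (univ.filter fun ω : Fin D → Equiv.Perm (Fin N) => Good k ω).card
        = ∑ ω ∈ (univ.filter fun ω : Fin D → Equiv.Perm (Fin N) => Good k ω),
          (2 * D ^ 2 + 1) := by rw [Finset.sum_const, smul_eq_mul, mul_comm]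
      _ ≤ ∑ ω ∈ (univ.filter fun ω : Fin D → Equiv.Perm (Fin N) => Good k ω), coll ω := by
          apply Finset.sum_le_sum
          intro ω hω
          rw [Finset.mem_filter] at hω
          exact hcon ω hω.2
      _ ≤ _ := Finset.sum_le_sum_of_subset (Finset.filter_subset _ _)
  have h5 := h4.trans sum_coll
  set F := N.factorial ^ D with hF
  set g := (univ.filter fun ω : Fin D → Equiv.Perm (Fin N) => Good k ω).card with hg
  have h6 : F < 2 * g := by omega
  have h7 : D ^ 2 * F ≤ D ^ 2 * (2 * g) := Nat.mul_le_mul_left _ h6.le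
  have h8 : 0 < g := by omega
  nlinarith

end Pool.Agent.Lib.MP_6659c6_co.Rand
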