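import Pool.Agent.Lib.MP_6659c6_co.AllDeg
import Pool.Agent.Lib.MP_6659c6_co.RandExist

/-!
MP_6659c6_co, random permutations: from a good family of permutations to a lower bound.
-/

namespace Pool.Agent.Lib.MP_6659c6_co.Rand

open Finset Classical Pool.Agent.Lib.MP_6659c6_co.AllDeg

lemma two_edges' {W : Type} [Fintype W] (H : SimpleGraph W) :
    ∑ v, (H.neighborSet v).ncard = 2 * H.edgeSet.ncard := by
  have h := H.sum_degrees_eq_twice_card_edges
  have hdeg : ∀ v, (H.neighborSet v).ncard = H.degree v := by
    intro v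
    rw [Set.ncard_eq_toFinset_card', Set.toFinset_card, SimpleGraph.card_neighborSet_eq_degree]
  simp only [hdeg]
  rw [h]
  have hm : H.edgeSet.ncard = H.edgeFinset.card := by
    rw [Set.ncard_eq_toFinset_card']
    rfl
  rw [hm]

/-- One component: three or more vertices. -/
lemma big_component {W : Type} [Fintype W] (H : SimpleGraph W) (D : ℕ)
    (hH1 : ∀ v, 1 ≤ (H.neighborSet v).ncard)
    (hH : ∀ v, (H.neighborSet v).ncard ≤ D) (hc : H.Connected) (h3 : 3 ≤ Fintype.card W)
    (r : ℝ) (hr : Admissible D r) :
    ∃ S : Finset W, IsTotalDominating H S ∧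
      (∑ v, ((H.neighborSet v).ncard : ℝ)) ≤ (D + r) * ((Fintype.card W : ℝ) - S.card) := by
  have hne : ∀ v, ∃ w, H.Adj v w := by
    intro v
    have h1 : (H.neighborSet v).Nonempty := by
      apply Set.nonempty_of_ncard_ne_zero
      have := hH1 v
      omega
    obtain ⟨w, hw⟩ := h1
    exact ⟨w, hw⟩
  obtain ⟨S, hS, hcard⟩ := exists_min_dom H hne
  refine ⟨S, hS, ?_⟩
  have h := hr W H hc h3 hH
  have h2 := two_edges' H
  have h2' : (∑ v, ((H.neighborSet v).ncard : ℝ)) = 2 * H.edgeSet.ncard := by exact_mod_cast h2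
  rw [hcard, h2']
  linarith

/-- One component: at most two vertices. -/
lemma small_component {W : Type} [Fintype W] (H : SimpleGraph W) (D : ℕ) (hD : 2 ≤ D)
    (hH1 : ∀ v, 1 ≤ (H.neighborSet v).ncard)
    (h3 : Fintype.card W < 3) (r : ℝ) :
    ∃ S : Finset W, IsTotalDominating H S ∧
      (∑ v, ((H.neighborSet v).ncard : ℝ)) ≤ (D + r) * ((Fintype.card W : ℝ) - S.card) +
        ∑ v, ((D : ℝ) - (H.neighborSet v).ncard) := by
  have hle : ∀ v, (H.neighborSet v).ncard ≤ 1 := by
    intro v
    have h1 : (H.neighborSet v) ⊆ ({v}ᶜ : Set W) := by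
      intro w hw
      rw [SimpleGraph.mem_neighborSet] at hw
      simp only [Set.mem_compl_iff, Set.mem_singleton_iff]
      rintro rfl
      exact H.loopless.irrefl _ hw
    have h2 := Set.ncard_le_ncard h1
    rw [Set.ncard_compl, Set.ncard_singleton, Nat.card_eq_fintype_card] at h2
    omega
  refine ⟨Finset.univ, ?_, ?_⟩
  · intro v
    have h1 : (H.neighborSet v).Nonempty := by
      apply Set.nonempty_of_ncard_ne_zero
      have := hH1 v
      omega
    obtain ⟨w, hw⟩ := h1
    exact ⟨w, Finset.mem_univ _, hw⟩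
  · rw [Finset.card_univ, sub_self, mul_zero, zero_add]
    apply Finset.sum_le_sum
    intro v _
    have h1 : ((H.neighborSet v).ncard : ℝ) ≤ 1 := by exact_mod_cast hle v
    have h2 : (2 : ℝ) ≤ D := by exact_mod_cast hD
    linarith

/-- All components together. -/
theorem comp_bound {V : Type} [Fintype V] (G : SimpleGraph V) (D : ℕ) (hD : 2 ≤ D)
    (hG1 : ∀ v, 1 ≤ (G.neighborSet v).ncard) (hG : ∀ v, (G.neighborSet v).ncard ≤ D)
    (r : ℝ) (hr : Admissible D r) (hpos : 0 ≤ (D : ℝ) + r) :
    ∃ S : Finset V, IsTotalDominating G S ∧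
      (∑ v, ((G.neighborSet v).ncard : ℝ)) ≤ (D + r) * ((Fintype.card V : ℝ) - S.card) +
        ∑ v, ((D : ℝ) - (G.neighborSet v).ncard) := by
  have hreg : ∀ (C : G.ConnectedComponent) (v : C),
      (C.toSimpleGraph.neighborSet v).ncard = (G.neighborSet v.1).ncard := by
    intro C v
    have e : (Subtype.val : C → V) '' (C.toSimpleGraph.neighborSet v) = G.neighborSet v.1 := by
      ext w
      simp only [Set.mem_image, SimpleGraph.mem_neighborSet]
      constructor
      · rintro ⟨u, hu, rfl⟩
        exact hu
      · intro hw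
        exact ⟨⟨w, C.mem_supp_of_adj_mem_supp v.2 hw⟩, hw, rfl⟩
    rw [← e, Set.ncard_image_of_injective _ Subtype.val_injective]
  have hC : ∀ C : G.ConnectedComponent, ∃ S : Finset C, IsTotalDominating C.toSimpleGraph S ∧
      (∑ v : C, ((G.neighborSet v.1).ncard : ℝ)) ≤
        (D + r) * ((Fintype.card C : ℝ) - S.card) +
        ∑ v : C, ((D : ℝ) - (G.neighborSet v.1).ncard) := by
    intro C
    rcases Nat.lt_or_ge (Fintype.card C) 3 with h | h
    · obtain ⟨S, hS, hb⟩ := small_component C.toSimpleGraph D hD
        (fun v => by rw [hreg]; exact hG1 _) h r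
      refine ⟨S, hS, ?_⟩
      simpa only [hreg] using hb
    · obtain ⟨S, hS, hb⟩ := big_component C.toSimpleGraph D
        (fun v => by rw [hreg]; exact hG1 _) (fun v => by rw [hreg]; exact hG _)
        C.connected_toSimpleGraph h r hr
      refine ⟨S, hS, ?_⟩
      have h0 : 0 ≤ ∑ v : C, ((D : ℝ) - (G.neighborSet v.1).ncard) := by
        apply Finset.sum_nonneg
        intro v _
        have : ((G.neighborSet v.1).ncard : ℝ) ≤ D := by exact_mod_cast hG v.1
        linarith
      have hb' : (∑ v : C, ((G.neighborSet v.1).ncard : ℝ)) ≤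
        (D + r) * ((Fintype.card C : ℝ) - S.card) := by simpa only [hreg] using hb
      linarith
  choose T hT hTc using hC
  have hsumV : ∀ g : V → ℝ, ∑ v, g v = ∑ C : G.ConnectedComponent, ∑ v : C, g v.1 := by
    intro g
    rw [← Fintype.sum_equiv (Equiv.sigmaFiberEquiv G.connectedComponentMk)
      (fun v => g v.2.1) g (fun v => rfl), Fintype.sum_sigma]
    apply Finset.sum_congr rfl
    intro C _
    exact Fintype.sum_equiv (Equiv.refl _) _ _ (fun v => rfl)
  refine ⟨univ.biUnion fun C : G.ConnectedComponent => (T C).image Subtype.val, ?_, ?_⟩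
  · intro v
    obtain ⟨u, hu, hadj⟩ := hT (G.connectedComponentMk v) ⟨v, rfl⟩
    refine ⟨u.1, ?_, hadj⟩
    rw [Finset.mem_biUnion]
    exact ⟨_, Finset.mem_univ _, Finset.mem_image_of_mem _ hu⟩
  · have hV' : (Fintype.card V : ℝ) = ∑ C : G.ConnectedComponent, (Fintype.card C : ℝ) := by
      have h := hsumV (fun _ => 1)
      simpa using h
    have hS : (univ.biUnion fun C : G.ConnectedComponent => (T C).image Subtype.val).card
        ≤ ∑ C : G.ConnectedComponent, (T C).card :=
      Finset.card_biUnion_le.trans (Finset.sum_le_sum fun C _ => Finset.card_image_le)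
    have hS' : ((univ.biUnion fun C : G.ConnectedComponent => (T C).image Subtype.val).card : ℝ)
        ≤ ∑ C : G.ConnectedComponent, ((T C).card : ℝ) := by exact_mod_cast hS
    have hsum := Finset.sum_le_sum (s := (univ : Finset G.ConnectedComponent))
      (fun C _ => hTc C)
    rw [Finset.sum_add_distrib, ← Finset.mul_sum, Finset.sum_sub_distrib, ← hV',
      ← hsumV (fun v => ((G.neighborSet v).ncard : ℝ)),
      ← hsumV (fun v => (D : ℝ) - (G.neighborSet v).ncard)] at hsum
    refine hsum.trans ?_
    have := mul_le_mul_of_nonneg_left (sub_le_sub_left hS' (Fintype.card V : ℝ)) hpos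
    linarith

section Rel

variable {N D : ℕ}

/-- The relation given by a family of permutations. -/
def rel (ω : Fin D → Equiv.Perm (Fin N)) : Fin N → Fin N → Prop := fun x y => ∃ i, ω i x = y

lemma ncard_false (R : Fin N → Fin N → Prop) (x : Fin N) :
    ((bipR R).neighborSet (x, false)).ncard = (univ.filter fun y => R x y).card := by
  have e : (bipR R).neighborSet (x, false)
      = (fun y => (y, true)) '' ((univ.filter fun y => R x y : Finset (Fin N)) : Set (Fin N)) := by
    ext ⟨y, c⟩
    rw [SimpleGraph.mem_neighborSet]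
    constructor
    · rintro (⟨_, h2, h3⟩ | ⟨h1, _, _⟩)
      · refine ⟨y, ?_, Prod.ext rfl h2.symm⟩
        rw [Finset.mem_coe, Finset.mem_filter]
        exact ⟨Finset.mem_univ _, h3⟩
      · exact absurd h1 (by simp)
    · rintro ⟨z, hz, hzz⟩
      rw [Finset.mem_coe, Finset.mem_filter] at hz
      obtain ⟨rfl, rfl⟩ := Prod.mk.inj hzz
      exact Or.inl ⟨rfl, rfl, hz.2⟩
  rw [e, Set.ncard_image_of_injective _ (fun a b h => (Prod.mk.inj h).1), Set.ncard_coe_finset]

lemma ncard_true (R : Fin N → Fin N → Prop) (y : Fin N) :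
    ((bipR R).neighborSet (y, true)).ncard = (univ.filter fun x => R x y).card := by
  have e : (bipR R).neighborSet (y, true)
      = (fun x => (x, false)) '' ((univ.filter fun x => R x y : Finset (Fin N)) : Set (Fin N)) := by
    ext ⟨x, c⟩
    rw [SimpleGraph.mem_neighborSet]
    constructor
    · rintro (⟨h1, _, _⟩ | ⟨_, h2, h3⟩)
      · exact absurd h1 (by simp)
      · refine ⟨x, ?_, Prod.ext rfl h2.symm⟩
        rw [Finset.mem_coe, Finset.mem_filter]
        exact ⟨Finset.mem_univ _, h3⟩
    · rintro ⟨z, hz, hzz⟩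
      rw [Finset.mem_coe, Finset.mem_filter] at hz
      obtain ⟨rfl, rfl⟩ := Prod.mk.inj hzz
      exact Or.inr ⟨rfl, rfl, hz.2⟩
  rw [e, Set.ncard_image_of_injective _ (fun a b h => (Prod.mk.inj h).1), Set.ncard_coe_finset]

lemma row_eq (ω : Fin D → Equiv.Perm (Fin N)) (x : Fin N) :
    (univ.filter fun y => rel ω x y) = univ.image (fun i => ω i x) := by
  ext y
  simp [rel]

lemma col_eq (ω : Fin D → Equiv.Perm (Fin N)) (y : Fin N) :
    (univ.filter fun x => rel ω x y) = univ.image (fun i => (ω i).symm y) := by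
  ext x
  simp only [rel, Finset.mem_filter, Finset.mem_univ, true_and, Finset.mem_image]
  constructor
  · rintro ⟨i, hi⟩
    exact ⟨i, by rw [← hi]; simp⟩
  · rintro ⟨i, hi⟩
    exact ⟨i, by rw [← hi]; simp⟩

lemma card_le_image_add (f : Fin D → Fin N) :
    D ≤ (univ.image f).card + (univ.filter fun q : Fin D × Fin D => q.1 ≠ q.2 ∧ f q.1 = f q.2).card := by
  -- each index that is not the least one of its fibre is the first entry of a colliding pair
  have h1 : (univ : Finset (Fin D)).card ≤
      (univ.filter fun i : Fin D => ∀ j, f j = f i → i ≤ j).card +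
      (univ.filter fun i : Fin D => ¬ ∀ j, f j = f i → i ≤ j).card :=
    (Finset.card_filter_add_card_filter_not _).ge
  have h2 : (univ.filter fun i : Fin D => ∀ j, f j = f i → i ≤ j).card ≤ (univ.image f).card := by
    apply Finset.card_le_card_of_injOn f
    · intro i _
      exact Finset.mem_image_of_mem f (Finset.mem_univ i)
    · intro i hi j hj hij
      have hi' := (Finset.mem_filter.1 (Finset.mem_coe.1 hi)).2
      have hj' := (Finset.mem_filter.1 (Finset.mem_coe.1 hj)).2
      exact le_antisymm (hi' j hij.symm) (hj' i hij)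
  have h3 : (univ.filter fun i : Fin D => ¬ ∀ j, f j = f i → i ≤ j).card ≤
      (univ.filter fun q : Fin D × Fin D => q.1 ≠ q.2 ∧ f q.1 = f q.2).card := by
    have : ∀ i ∈ (univ.filter fun i : Fin D => ¬ ∀ j, f j = f i → i ≤ j),
        ∃ j, f j = f i ∧ j < i := by
      intro i hi
      have := (Finset.mem_filter.1 hi).2
      push Not at this
      exact this
    choose! g hg using this
    apply Finset.card_le_card_of_injOn (fun i => (i, g i))
    · intro i hi
      have := hg i (Finset.mem_coe.1 hi)
      rw [Finset.mem_coe, Finset.mem_filter]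
      refine ⟨Finset.mem_univ _, fun h => ?_, this.1.symm⟩
      have h' : i = g i := h
      exact absurd this.2 (by rw [← h']; exact lt_irrefl _)
    · intro i _ j _ h
      exact (Prod.mk.inj h).1
  rw [Finset.card_univ, Fintype.card_fin] at h1
  omega

end Rel

/-- A good family of permutations gives an inequality for admissible constants. -/
theorem good_bound {N D k : ℕ} (hD : 2 ≤ D) (hkN : k < N) (ω : Fin D → Equiv.Perm (Fin N))
    (hgood : Good k ω) (r : ℝ) (hr : Admissible D r) :
    (D : ℝ) * N ≤ (D + r) * ((N : ℝ) - k) + 2 * coll ω := by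
  have hDpos : (0 : ℝ) < D := by exact_mod_cast (by omega : 0 < D)
  have hr0 : 0 < r := by
    obtain ⟨h1, h2⟩ := family 1 D D le_rfl (by omega) hD (by simp) r hr
    norm_num at h1 h2
    have h3 : (1 : ℝ) < D := by exact_mod_cast (by omega : 1 < D)
    by_contra hneg
    push Not at hneg
    have : r * ((D : ℝ) - 1) ≤ 0 := mul_nonpos_of_nonpos_of_nonneg hneg (by linarith)
    linarith
  have hpos : 0 ≤ (D : ℝ) + r := by linarith
  let i0 : Fin D := ⟨0, by omega⟩
  have hrow1 : ∀ x, 1 ≤ (univ.image (fun i => ω i x)).card := fun x =>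
    Finset.card_pos.2 ⟨ω i0 x, Finset.mem_image_of_mem _ (Finset.mem_univ _)⟩
  have hcol1 : ∀ y, 1 ≤ (univ.image (fun i => (ω i).symm y)).card := fun y =>
    Finset.card_pos.2 ⟨(ω i0).symm y, Finset.mem_image_of_mem _ (Finset.mem_univ _)⟩
  have hrow2 : ∀ x, (univ.image (fun i => ω i x)).card ≤ D := fun x => by
    simpa using (Finset.card_image_le (s := (univ : Finset (Fin D))) (f := fun i => ω i x))
  have hcol2 : ∀ y, (univ.image (fun i => (ω i).symm y)).card ≤ D := fun y => by
    simpa using (Finset.card_image_le (s := (univ : Finset (Fin D))) (f := fun i => (ω i).symm y))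
  obtain ⟨S, hS, hb⟩ := comp_bound (bipR (rel ω)) D hD
    (by
      rintro ⟨x, b⟩
      cases b
      · rw [ncard_false, row_eq]; exact hrow1 x
      · rw [ncard_true, col_eq]; exact hcol1 x)
    (by
      rintro ⟨x, b⟩
      cases b
      · rw [ncard_false, row_eq]; exact hrow2 x
      · rw [ncard_true, col_eq]; exact hcol2 x) r hr hpos
  -- the sum of the degrees
  have hdouble : ∑ x : Fin N, (univ.filter fun y => rel ω x y).card
      = ∑ y : Fin N, (univ.filter fun x => rel ω x y).card := by
    have := Finset.sum_card_bipartiteAbove_eq_sum_card_bipartiteBelow (rel ω)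
      (s := (univ : Finset (Fin N))) (t := (univ : Finset (Fin N)))
    simpa [Finset.bipartiteAbove, Finset.bipartiteBelow] using this
  have hrows : D * N ≤ ∑ x : Fin N, (univ.filter fun y => rel ω x y).card + coll ω := by
    unfold coll
    rw [← Finset.sum_add_distrib]
    calc D * N = ∑ x : Fin N, D := by
          rw [Finset.sum_const, Finset.card_univ, Fintype.card_fin, smul_eq_mul, mul_comm]
      _ ≤ _ := by
          apply Finset.sum_le_sum
          intro x _
          rw [row_eq]
          exact card_le_image_add (fun i => ω i x)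
  have hsum : (∑ v, (((bipR (rel ω)).neighborSet v).ncard : ℝ))
      = 2 * ((∑ x : Fin N, (univ.filter fun y => rel ω x y).card : ℕ) : ℝ) := by
    rw [Fintype.sum_prod_type]
    simp only [Fintype.sum_bool, ncard_false, ncard_true]
    rw [Finset.sum_add_distrib]
    have h1 : (∑ y : Fin N, ((univ.filter fun x => rel ω x y).card : ℝ))
        = ((∑ x : Fin N, (univ.filter fun y => rel ω x y).card : ℕ) : ℝ) := by
      rw [hdouble]; push_cast; rfl
    rw [h1]
    push_cast
    ring
  set m : ℝ := ((∑ x : Fin N, (univ.filter fun y => rel ω x y).card : ℕ) : ℝ) with hm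
  have hrows' : (D : ℝ) * N ≤ m + coll ω := by rw [hm]; exact_mod_cast hrows
  have hcardV : (Fintype.card (Fin N × Bool) : ℝ) = 2 * N := by
    rw [Fintype.card_prod, Fintype.card_fin, Fintype.card_bool]
    push_cast
    ring
  rw [Finset.sum_sub_distrib, hsum, Finset.sum_const, Finset.card_univ, nsmul_eq_mul, hcardV]
    at hb
  -- the size of the dominating set
  have hside : ∀ T : Finset (Fin N), (∀ S' : Finset (Fin N), S'.card = k → ¬ (T ⊆ S')) →
      k ≤ T.card := by
    intro T hT
    by_contra hlt
    push Not at hlt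
    obtain ⟨T', hT', hcard⟩ := Finset.exists_superset_card_eq (s := T) (n := k) hlt.le
      (by rw [Fintype.card_fin]; exact hkN.le)
    exact hT T' hcard hT'
  have hleft : k ≤ (univ.filter fun x : Fin N => (x, false) ∈ S).card := by
    apply hside
    intro S' hS' hsub
    apply hgood.1 S' hS'
    intro y
    obtain ⟨u, hu, hadj⟩ := hS (y, true)
    rcases hadj with ⟨h1, _, _⟩ | ⟨_, h2, i, hi⟩
    · exact absurd h1 (by simp)
    · refine ⟨i, hsub ?_⟩
      rw [Finset.mem_filter]
      refine ⟨Finset.mem_univ _, ?_⟩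
      have e : (ω i).symm y = u.1 := by
        rw [Equiv.symm_apply_eq]; exact hi.symm
      rw [e]
      have : u = (u.1, false) := Prod.ext rfl h2
      rw [← this]
      exact hu
  have hright : k ≤ (univ.filter fun x : Fin N => (x, true) ∈ S).card := by
    apply hside
    intro S' hS' hsub
    apply hgood.2 S' hS'
    intro x
    obtain ⟨u, hu, hadj⟩ := hS (x, false)
    rcases hadj with ⟨_, h2, i, hi⟩ | ⟨h1, _, _⟩
    · refine ⟨i, hsub ?_⟩
      rw [Finset.mem_filter]
      refine ⟨Finset.mem_univ _, ?_⟩
      have e : (ω i).symm.symm x = u.1 := by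
        rw [Equiv.symm_symm]; exact hi
      rw [e]
      have : u = (u.1, true) := Prod.ext rfl h2
      rw [← this]
      exact hu
    · exact absurd h1 (by simp)
  have hScard : 2 * k ≤ S.card := by
    have hsub : ((univ.filter fun x : Fin N => (x, false) ∈ S).image fun x => (x, false)) ∪
        ((univ.filter fun x : Fin N => (x, true) ∈ S).image fun x => (x, true)) ⊆ S := by
      intro u hu
      rw [Finset.mem_union, Finset.mem_image, Finset.mem_image] at hu
      rcases hu with ⟨x, hx, rfl⟩ | ⟨x, hx, rfl⟩
      · rw [Finset.mem_filter] at hx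
        exact hx.2
      · rw [Finset.mem_filter] at hx
        exact hx.2
    have hdisj : Disjoint
        ((univ.filter fun x : Fin N => (x, false) ∈ S).image fun x => (x, false))
        ((univ.filter fun x : Fin N => (x, true) ∈ S).image fun x => (x, true)) := by
      rw [Finset.disjoint_left]
      intro u hu hu'
      rw [Finset.mem_image] at hu hu'
      obtain ⟨x, _, rfl⟩ := hu
      obtain ⟨y, _, h⟩ := hu'
      simp at h
    have hc := Finset.card_le_card hsub
    rw [Finset.card_union_of_disjoint hdisj, Finset.card_image_of_injective,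
      Finset.card_image_of_injective] at hc
    · omega
    · intro a b h
      simpa using h
    · intro a b h
      simpa using h
  have hScard' : (2 : ℝ) * k ≤ S.card := by exact_mod_cast hScard
  have h9 := mul_le_mul_of_nonneg_left (sub_le_sub_left hScard' (2 * (N : ℝ))) hpos
  nlinarith

end Pool.Agent.Lib.MP_6659c6_co.Rand
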