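import Mathlib

/-!
Leaf 3 (MP_6659c6_co, random permutations). The real inequality for `x = log D - 2 log log D`.

`entropy_ineq`: for `log D ≥ 4` and `x = log D - 2 log (log D)`, `a = x / D`:
`-a log a - (1-a) log (1-a) + log (1 - (1-a)^D) < 0`.

`small_case`: for `3 ≤ D` and `log D ≤ 4` one has `log D - 2 log (log D) ≤ 4/3`.
-/

namespace Pool.Agent.Lib.MP_6659c6_co.Rand

open Real

theorem entropy_ineq (D : ℕ) (hD : 4 ≤ log (D : ℝ)) (x a : ℝ)
    (hx : x = log D - 2 * log (log D)) (ha : a = x / D) :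
    0 < a ∧ a < 1 ∧ -(a * log a) - (1 - a) * log (1 - a) + log (1 - (1 - a) ^ D) < 0 := by
  have hlog2 := Real.log_two_gt_d9
  have hlog2' := Real.log_two_lt_d9
  have hDne : D ≠ 0 := by
    rintro rfl
    simp at hD
    linarith
  have hD0 : (0 : ℝ) < D := by exact_mod_cast Nat.pos_of_ne_zero hDne
  obtain ⟨L, hL⟩ : ∃ L : ℝ, L = Real.log D := ⟨_, rfl⟩
  rw [← hL] at hD hx
  have hL0 : 0 < L := by linarith
  have hexpL : Real.exp L = D := by rw [hL, Real.exp_log hD0]
  obtain ⟨l, hl⟩ : ∃ l : ℝ, l = Real.log L := ⟨_, rfl⟩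
  rw [← hl] at hx
  have hlog4 : Real.log 4 = 2 * Real.log 2 := by
    rw [show (4 : ℝ) = 2 ^ (2 : ℕ) by norm_num, Real.log_pow]
    norm_num
  have hLdec : Real.log L = Real.log 4 + Real.log (L / 4) := by
    rw [← Real.log_mul (by norm_num) (by positivity)]
    congr 1
    ring
  have hlup : l ≤ 2 * Real.log 2 + L / 4 - 1 := by
    have h3 := Real.log_le_sub_one_of_pos (show 0 < L / 4 by positivity)
    linarith
  have hllo : 1.386 ≤ l := by
    have h3 : 0 ≤ Real.log (L / 4) := Real.log_nonneg (by linarith)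
    linarith
  have hx1 : 1 ≤ x := by rw [hx]; linarith
  have hx0 : 0 < x := by linarith
  have hxL : x ≤ L - 2.772 := by rw [hx]; linarith
  -- lower bound for `D`
  have hDlow : 2 * (L * (L - 2)) ^ 2 ≤ 9 * (D : ℝ) := by
    obtain ⟨u, hu⟩ : ∃ u : ℝ, u = L / 4 := ⟨_, rfl⟩
    have hLu : L = 4 * u := by rw [hu]; ring
    have hu1 : 1 ≤ u := by rw [hu]; linarith
    have h1 : 1 + u + u ^ 2 / 2 ≤ Real.exp u := Real.quadratic_le_exp_of_nonneg (by linarith)
    have h2 : (1 + u + u ^ 2 / 2) ^ 4 ≤ (D : ℝ) := by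
      calc (1 + u + u ^ 2 / 2) ^ 4 ≤ (Real.exp u) ^ 4 :=
            pow_le_pow_left₀ (by positivity) h1 4
        _ = Real.exp L := by
            rw [← Real.exp_nat_mul]
            congr 1
            rw [hLu]
            norm_num
        _ = D := hexpL
    have h3 : 1.4143 * (16 * u ^ 2 - 8 * u) ≤ 3 * (1 + u + u ^ 2 / 2) ^ 2 := by
      nlinarith [sq_nonneg (u - 1.6), sq_nonneg (u ^ 2 - 1.6 * u), sq_nonneg (u ^ 2 - 2.56),
        mul_nonneg (show (0 : ℝ) ≤ u by linarith) (sq_nonneg (u - 1.6))]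
    have h4 : 0 ≤ 1.4143 * (16 * u ^ 2 - 8 * u) := by nlinarith
    have h5 : (1.4143 * (16 * u ^ 2 - 8 * u)) ^ 2 ≤ (3 * (1 + u + u ^ 2 / 2) ^ 2) ^ 2 :=
      pow_le_pow_left₀ h4 h3 2
    have h6 : L * (L - 2) = 16 * u ^ 2 - 8 * u := by rw [hLu]; ring
    rw [h6]
    nlinarith [sq_nonneg (16 * u ^ 2 - 8 * u)]
  have hD54 : 54 ≤ (D : ℝ) := by
    have h1 : Real.exp 4 ≤ Real.exp L := Real.exp_le_exp.2 hD
    have h2 : Real.exp 4 = Real.exp 1 ^ 4 := by
      rw [← Real.exp_nat_mul]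
      norm_num
    have h3 := Real.exp_one_gt_d9
    have h4 : (2.7182818283 : ℝ) ^ 4 ≤ Real.exp 1 ^ 4 :=
      pow_le_pow_left₀ (by norm_num) h3.le 4
    rw [hexpL, h2] at h1
    norm_num at h4
    linarith
  have hLD : L ≤ D / 2 := by
    have h1 : L = Real.log (D / 4) + Real.log 4 := by
      rw [← Real.log_mul (by positivity) (by norm_num), hL]
      congr 1
      ring
    have h2 := Real.log_le_sub_one_of_pos (show 0 < (D : ℝ) / 4 by positivity)
    linarith
  have hxD : x ≤ D / 2 := by linarith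
  have ha0 : 0 < a := by rw [ha]; positivity
  have ha1 : a ≤ 1 / 2 := by
    rw [ha, div_le_iff₀ hD0]
    linarith
  have ha1' : a < 1 := by linarith
  refine ⟨ha0, ha1', ?_⟩
  have h1a0 : 0 < 1 - a := by linarith
  have haD : a * D = x := by rw [ha]; field_simp
  -- the power
  have hpow : L ^ 2 * (1 - 2 * x ^ 2 / D) / D ≤ (1 - a) ^ D := by
    have h2 : Real.exp (-(a / (1 - a))) ≤ 1 - a := by
      have h3 := Real.add_one_le_exp (a / (1 - a))
      have h4 : a / (1 - a) + 1 = (1 - a)⁻¹ := by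
        field_simp
        ring
      rw [h4] at h3
      rw [Real.exp_neg]
      have h5 := inv_anti₀ (by positivity) h3
      rwa [inv_inv] at h5
    have h3 : Real.exp (-(a / (1 - a))) ^ D ≤ (1 - a) ^ D :=
      pow_le_pow_left₀ (Real.exp_pos _).le h2 D
    have h4 : Real.exp (-(a / (1 - a))) ^ D = Real.exp (-(x / (1 - a))) := by
      rw [← Real.exp_nat_mul]
      congr 1
      rw [← haD]
      ring
    have h5 : x / (1 - a) ≤ x + 2 * x ^ 2 / D := by
      have h6 : 2 * x ^ 2 / D = 2 * x * a := by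
        rw [ha]
        ring
      rw [h6, div_le_iff₀ h1a0]
      nlinarith [mul_pos hx0 ha0, mul_nonneg (mul_pos hx0 ha0).le (show 0 ≤ 1 / 2 - a by linarith)]
    have h6 : Real.exp (-(x + 2 * x ^ 2 / D)) ≤ Real.exp (-(x / (1 - a))) :=
      Real.exp_le_exp.2 (by linarith)
    have h7 : Real.exp (-(x + 2 * x ^ 2 / D)) = Real.exp (-x) * Real.exp (-(2 * x ^ 2 / D)) := by
      rw [← Real.exp_add]
      congr 1
      ring
    have h8 : Real.exp (-x) = L ^ 2 / D := by
      have h9 : -x = 2 * l - L := by rw [hx]; ring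
      rw [h9, Real.exp_sub, hexpL]
      congr 1
      rw [two_mul, Real.exp_add, hl, Real.exp_log hL0]
      ring
    have h9 : 1 - 2 * x ^ 2 / D ≤ Real.exp (-(2 * x ^ 2 / D)) := by
      have := Real.add_one_le_exp (-(2 * x ^ 2 / D))
      linarith
    calc L ^ 2 * (1 - 2 * x ^ 2 / D) / D = L ^ 2 / D * (1 - 2 * x ^ 2 / D) := by ring
      _ ≤ L ^ 2 / D * Real.exp (-(2 * x ^ 2 / D)) :=
          mul_le_mul_of_nonneg_left h9 (by positivity)
      _ = Real.exp (-(x + 2 * x ^ 2 / D)) := by rw [h7, h8]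
      _ ≤ Real.exp (-(x / (1 - a))) := h6
      _ ≤ (1 - a) ^ D := by rw [← h4]; exact h3
  have hpow1 : (1 - a) ^ D < 1 := pow_lt_one₀ h1a0.le (by linarith) hDne
  have hlog1 : Real.log (1 - (1 - a) ^ D) ≤ -(1 - a) ^ D := by
    have := Real.log_le_sub_one_of_pos (show 0 < 1 - (1 - a) ^ D by linarith)
    linarith
  have hent2 : -((1 - a) * Real.log (1 - a)) ≤ a := by
    have h1 := Real.log_le_sub_one_of_pos (show 0 < (1 - a)⁻¹ by positivity)
    rw [Real.log_inv] at h1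
    have h2 : (1 - a) * (-Real.log (1 - a)) ≤ (1 - a) * ((1 - a)⁻¹ - 1) :=
      mul_le_mul_of_nonneg_left h1 h1a0.le
    have h3 : (1 - a) * ((1 - a)⁻¹ - 1) = a := by
      rw [mul_sub, mul_inv_cancel₀ h1a0.ne']
      ring
    linarith
  have hent1 : -(a * Real.log a) ≤ a * L := by
    have h1 : Real.log a = Real.log x - L := by
      rw [ha, Real.log_div hx0.ne' hD0.ne', ← hL]
    rw [h1]
    have h5 : 0 ≤ Real.log x := Real.log_nonneg hx1
    nlinarith [mul_nonneg ha0.le h5]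
  have hfin : a * (L + 1) < L ^ 2 * (1 - 2 * x ^ 2 / D) / D := by
    rw [ha, div_mul_eq_mul_div]
    apply div_lt_div_of_pos_right _ hD0
    have h1 : x * (L + 1) ≤ L ^ 2 - 1.772 * L - 2.772 := by
      nlinarith
    have h2 : L ^ 2 * (2 * x ^ 2 / D) ≤ 9 := by
      have h3 : (L * x) ^ 2 ≤ (L * (L - 2)) ^ 2 := by
        apply pow_le_pow_left₀ (by positivity)
        apply mul_le_mul_of_nonneg_left _ hL0.le
        linarith
      have h4 : L ^ 2 * (2 * x ^ 2 / D) = 2 * (L * x) ^ 2 / D := by ring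
      rw [h4, div_le_iff₀ hD0]
      linarith
    have h3 : L ^ 2 * (1 - 2 * x ^ 2 / D) = L ^ 2 - L ^ 2 * (2 * x ^ 2 / D) := by ring
    rw [h3]
    nlinarith
  nlinarith

theorem small_case (D : ℕ) (hD : 3 ≤ D) (hD4 : log (D : ℝ) ≤ 4) :
    log D - 2 * log (log D) ≤ 4 / 3 := by
  have hlog2 := Real.log_two_gt_d9
  have hlog2' := Real.log_two_lt_d9
  obtain ⟨L, hL⟩ : ∃ L : ℝ, L = Real.log D := ⟨_, rfl⟩
  rw [← hL] at hD4 ⊢
  have hDR : (3 : ℝ) ≤ D := by exact_mod_cast hD
  have hL1 : 1 ≤ L := by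
    have h1 : Real.log 3 ≤ L := by rw [hL]; exact Real.log_le_log (by norm_num) hDR
    have h2 : 1 ≤ Real.log 3 := by
      rw [Real.le_log_iff_exp_le (by norm_num)]
      have h4 := Real.exp_one_lt_d9
      linarith
    linarith
  have hL0 : 0 < L := by linarith
  -- tangent bound at 2: log L ≥ log 2 + 1 - 2/L
  have key : ∀ c : ℝ, 0 < c → Real.log c + 1 - c / L ≤ Real.log L := by
    intro c hc
    have h1 := Real.log_le_sub_one_of_pos (show 0 < c / L by positivity)
    rw [Real.log_div hc.ne' hL0.ne'] at h1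
    linarith
  rcases le_total L 2 with h2 | h2
  · have k1 := key 1 (by norm_num)
    rw [Real.log_one] at k1
    have h3 : L + 2 * (1 / L) ≤ 10 / 3 := by
      have h4 : L + 2 * (1 / L) = (L ^ 2 + 2) / L := by field_simp
      rw [h4, div_le_iff₀ hL0]
      nlinarith
    linarith
  · have k4 := key 4 (by norm_num)
    have hlog4 : Real.log 4 = 2 * Real.log 2 := by
      rw [show (4 : ℝ) = 2 ^ (2 : ℕ) by norm_num, Real.log_pow]
      norm_num
    rw [hlog4] at k4
    have h3 : L + 2 * (4 / L) ≤ 6 := by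
      have h4 : L + 2 * (4 / L) = (L ^ 2 + 8) / L := by field_simp; ring
      rw [h4, div_le_iff₀ hL0]
      nlinarith
    linarith

end Pool.Agent.Lib.MP_6659c6_co.Rand
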