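import Pool.Agent.Lib.MP_6659c6_co.RandGraph
import Pool.Agent.Lib.MP_6659c6_co.RandReal

/-!
MP_6659c6_co, random permutations: the lower bounds.
-/

namespace Pool.Agent.Lib.MP_6659c6_co.Rand

open Finset Filter Topology Real Pool.Agent.Lib.MP_6659c6_co.AllDeg

/-- The exponent: natural entropy plus `log (1 - (1-a)^D)`. -/
noncomputable def expo (D : ℕ) (a : ℝ) : ℝ :=
  -(a * log a) - (1 - a) * log (1 - a) + log (1 - (1 - a) ^ D)

lemma choose_mul_le (N k : ℕ) (hk : k ≤ N) (a : ℝ) (h0 : 0 ≤ a) (h1 : a ≤ 1) :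
    (N.choose k : ℝ) * (a ^ k * (1 - a) ^ (N - k)) ≤ 1 := by
  have h := add_pow a (1 - a) N
  rw [add_sub_cancel, one_pow] at h
  refine le_trans ?_ h.ge
  have h2 : (N.choose k : ℝ) * (a ^ k * (1 - a) ^ (N - k))
      = a ^ k * (1 - a) ^ (N - k) * (N.choose k : ℝ) := by ring
  rw [h2]
  apply Finset.single_le_sum (f := fun m => a ^ m * (1 - a) ^ (N - m) * (N.choose m : ℝ))
  · intro i _
    have : 0 ≤ 1 - a := by linarith
    positivity
  · rw [Finset.mem_range]
    omega

lemma rho_bounds (D : ℕ) (hD : 2 ≤ D) (a : ℝ) (h0 : 0 < a) (h1 : a < 1) :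
    0 < 1 - (1 - a) ^ D := by
  have : (1 - a) ^ D < 1 := pow_lt_one₀ (by linarith) (by linarith) (by omega)
  linarith

/-- Lower bound for rational densities. -/
theorem entropy_rat (D : ℕ) (hD : 2 ≤ D) (p q : ℕ) (hp : 0 < p) (hpq : p < q)
    (hent : expo D ((p : ℝ) / q) < 0) (r : ℝ) (hr : Admissible D r) :
    ((p : ℝ) / q) * D ≤ r * (1 - (p : ℝ) / q) := by
  set a : ℝ := (p : ℝ) / q with ha
  have hq0 : (0 : ℝ) < q := by exact_mod_cast (by omega : 0 < q)
  have hp0 : (0 : ℝ) < p := by exact_mod_cast hp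
  have ha0 : 0 < a := by rw [ha]; positivity
  have ha1 : a < 1 := by
    rw [ha, div_lt_one hq0]
    exact_mod_cast hpq
  have hρ := rho_bounds D hD a ha0 ha1
  set ρ : ℝ := 1 - (1 - a) ^ D with hρdef
  set θ : ℝ := Real.exp (expo D a) with hθ
  have hθ0 : 0 < θ := Real.exp_pos _
  have hθ1 : θ < 1 := by rw [hθ]; simpa using Real.exp_lt_exp.2 hent
  -- the key estimate
  have hkey : ∀ j : ℕ, ((q * j).choose (p * j) : ℝ) * ρ ^ (q * j) ≤ θ ^ (q * j) := by
    intro j
    have hkN : p * j ≤ q * j := Nat.mul_le_mul_right j hpq.le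
    have h1 := choose_mul_le (q * j) (p * j) hkN a ha0.le ha1.le
    have hpos : 0 < a ^ (p * j) * (1 - a) ^ (q * j - p * j) := by
      have : 0 < 1 - a := by linarith
      positivity
    have h2 : θ ^ (q * j) * (a ^ (p * j) * (1 - a) ^ (q * j - p * j)) = ρ ^ (q * j) := by
      have e1 : θ ^ (q * j) = Real.exp (((q * j : ℕ) : ℝ) * expo D a) := by
        rw [hθ, ← Real.exp_nat_mul]
      have e2 : a ^ (p * j) = Real.exp (((p * j : ℕ) : ℝ) * log a) := by
        rw [Real.exp_nat_mul, Real.exp_log ha0]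
      have e3 : (1 - a) ^ (q * j - p * j)
          = Real.exp (((q * j - p * j : ℕ) : ℝ) * log (1 - a)) := by
        rw [Real.exp_nat_mul, Real.exp_log (by linarith)]
      have e4 : ρ ^ (q * j) = Real.exp (((q * j : ℕ) : ℝ) * log ρ) := by
        rw [Real.exp_nat_mul, Real.exp_log hρ]
      rw [e1, e2, e3, e4, ← Real.exp_add, ← Real.exp_add]
      congr 1
      unfold expo
      rw [← hρdef, Nat.cast_sub hkN]
      push_cast
      have e5 : (p : ℝ) = a * q := by rw [ha]; field_simp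
      rw [e5]
      ring
    rw [← h2]
    have h3 : ((q * j).choose (p * j) : ℝ) *
        (θ ^ (q * j) * (a ^ (p * j) * (1 - a) ^ (q * j - p * j)))
        = θ ^ (q * j) * (((q * j).choose (p * j) : ℝ) *
          (a ^ (p * j) * (1 - a) ^ (q * j - p * j))) := by ring
    rw [h3]
    calc _ ≤ θ ^ (q * j) * 1 := mul_le_mul_of_nonneg_left h1 (by positivity)
      _ = _ := mul_one _
  -- the limit
  have hlim : Tendsto (fun n : ℕ => ((n : ℝ) + 1) ^ D * θ ^ n) atTop (𝓝 0) := by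
    have h1 := tendsto_pow_const_mul_const_pow_of_abs_lt_one D
      (r := θ) (by rw [abs_of_pos hθ0]; exact hθ1)
    have h2 := (tendsto_add_atTop_iff_nat 1).2 h1
    have h3 := h2.mul_const (θ⁻¹)
    rw [zero_mul] at h3
    refine h3.congr fun n => ?_
    push_cast
    rw [pow_succ]
    field_simp
  have hev : ∀ᶠ n : ℕ in atTop, 4 * (((n : ℝ) + 1) ^ D * θ ^ n) < 1 := by
    have := hlim.eventually (gt_mem_nhds (show (0 : ℝ) < 1 / 4 by norm_num))
    filter_upwards [this] with n hn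
    linarith
  obtain ⟨n0, hn0⟩ := Filter.eventually_atTop.1 hev
  by_contra hneg
  push Not at hneg
  set δ : ℝ := a * D - r * (1 - a) with hδ
  have hδ0 : 0 < δ := by rw [hδ]; linarith
  obtain ⟨M, hM⟩ := exists_nat_gt (4 * (D : ℝ) ^ 2 / δ)
  set j : ℕ := max (max n0 M) 1 with hj
  have hj1 : 1 ≤ j := le_max_right _ _
  have hjn : n0 ≤ q * j := by
    calc n0 ≤ j := (le_max_left _ _).trans (le_max_left _ _)
      _ = 1 * j := (one_mul _).symm
      _ ≤ q * j := Nat.mul_le_mul_right j (by omega)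
  have hjM : M ≤ q * j := by
    calc M ≤ j := (le_max_right _ _).trans (le_max_left _ _)
      _ = 1 * j := (one_mul _).symm
      _ ≤ q * j := Nat.mul_le_mul_right j (by omega)
  have hk0 : 0 < p * j := Nat.mul_pos hp hj1
  have hkN : p * j < q * j := Nat.mul_lt_mul_of_pos_right hpq hj1
  have hdiv : ((p * j : ℕ) : ℝ) / ((q * j : ℕ) : ℝ) = a := by
    have hj0 : (0 : ℝ) < j := by exact_mod_cast hj1
    rw [ha]
    push_cast
    field_simp
  have hsmall : 4 * ((q * j).choose (p * j) : ℝ) *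
      ((((q * j : ℕ) : ℝ) + 1) ^ D *
        (1 - (1 - ((p * j : ℕ) : ℝ) / ((q * j : ℕ) : ℝ)) ^ D) ^ (q * j)) < 1 := by
    rw [hdiv, ← hρdef]
    calc 4 * ((q * j).choose (p * j) : ℝ) * ((((q * j : ℕ) : ℝ) + 1) ^ D * ρ ^ (q * j))
        = 4 * ((((q * j : ℕ) : ℝ) + 1) ^ D *
          (((q * j).choose (p * j) : ℝ) * ρ ^ (q * j))) := by ring
      _ ≤ 4 * ((((q * j : ℕ) : ℝ) + 1) ^ D * θ ^ (q * j)) := by
          have := hkey j
          have h0 : (0 : ℝ) ≤ (((q * j : ℕ) : ℝ) + 1) ^ D := by positivity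
          have := mul_le_mul_of_nonneg_left this h0
          linarith
      _ < 1 := hn0 (q * j) hjn
  obtain ⟨ω, hgood, hcoll⟩ := exists_good (D := D) hk0 hkN hsmall
  have hb := good_bound hD hkN ω hgood r hr
  have hcoll' : (coll ω : ℝ) ≤ 2 * (D : ℝ) ^ 2 := by exact_mod_cast hcoll
  have hNpos : (0 : ℝ) < ((q * j : ℕ) : ℝ) := by exact_mod_cast (by omega : 0 < q * j)
  have hkeq : ((p * j : ℕ) : ℝ) = a * ((q * j : ℕ) : ℝ) := by
    rw [← hdiv]; field_simp
  rw [hkeq] at hb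
  have h1 : δ * ((q * j : ℕ) : ℝ) ≤ 4 * (D : ℝ) ^ 2 := by
    rw [hδ]
    nlinarith
  have h2 : (4 * (D : ℝ) ^ 2 / δ) < ((q * j : ℕ) : ℝ) := by
    refine hM.trans_le ?_
    exact_mod_cast hjM
  rw [div_lt_iff₀ hδ0] at h2
  linarith

lemma expo_continuousAt (D : ℕ) (hD : 2 ≤ D) (a : ℝ) (h0 : 0 < a) (h1 : a < 1) :
    ContinuousAt (expo D) a := by
  unfold expo
  have hρ := rho_bounds D hD a h0 h1
  refine ContinuousAt.add (ContinuousAt.sub ?_ ?_) ?_
  · exact (continuousAt_id.mul (Real.continuousAt_log (by linarith))).neg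
  · refine ContinuousAt.mul (by fun_prop) ?_
    exact ContinuousAt.log (by fun_prop) (by linarith)
  · exact ContinuousAt.log (by fun_prop) (by linarith)

/-- Lower bound for real densities. -/
theorem entropy_real (D : ℕ) (hD : 2 ≤ D) (a : ℝ) (h0 : 0 < a) (h1 : a < 1)
    (hent : expo D a < 0) (r : ℝ) (hr : Admissible D r) :
    a * D / (1 - a) ≤ r := by
  have hc := expo_continuousAt D hD a h0 h1
  have hev : ∀ᶠ b in 𝓝 a, expo D b < 0 ∧ b < 1 :=
    (hc.eventually (gt_mem_nhds hent)).and (gt_mem_nhds h1)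
  obtain ⟨ε, hε, hball⟩ := Metric.eventually_nhds_iff.1 hev
  obtain ⟨b, hab, hbε⟩ := exists_rat_btwn (show a < a + ε by linarith)
  have hdist : dist (b : ℝ) a < ε := by
    rw [Real.dist_eq, abs_lt]
    constructor <;> linarith
  obtain ⟨hb1, hb2⟩ := hball hdist
  have hb0 : (0 : ℝ) < b := by linarith
  have hb0' : 0 < b := by exact_mod_cast hb0
  have hnum : 0 < b.num := Rat.num_pos.2 hb0'
  have hcast : (b : ℝ) = ((b.num.toNat : ℕ) : ℝ) / ((b.den : ℕ) : ℝ) := by
    have h2 : ((b.num.toNat : ℕ) : ℤ) = b.num := Int.toNat_of_nonneg hnum.le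
    have h3 : ((b.num.toNat : ℕ) : ℝ) = (b.num : ℝ) := by exact_mod_cast congrArg (Int.cast : ℤ → ℝ) h2
    rw [h3]
    exact_mod_cast (Rat.num_div_den b).symm
  have hden : (0 : ℝ) < ((b.den : ℕ) : ℝ) := by exact_mod_cast b.den_pos
  have hpq : b.num.toNat < b.den := by
    have : ((b.num.toNat : ℕ) : ℝ) < ((b.den : ℕ) : ℝ) := by
      rw [hcast, div_lt_one hden] at hb2
      exact hb2
    exact_mod_cast this
  have hp : 0 < b.num.toNat := by omega
  have h4 := entropy_rat D hD b.num.toNat b.den hp hpq (by rw [← hcast]; exact hb1) r hr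
  rw [← hcast] at h4
  have hD0 : (0 : ℝ) < D := by exact_mod_cast (by omega : 0 < D)
  have hr0 : 0 < r := by
    by_contra hneg
    push Not at hneg
    have h5 : r * (1 - (b : ℝ)) ≤ 0 := mul_nonpos_of_nonpos_of_nonneg hneg (by linarith)
    have h6 : 0 < (b : ℝ) * D := mul_pos hb0 hD0
    linarith
  rw [div_le_iff₀ (by linarith)]
  have h5 : a * D ≤ (b : ℝ) * D := mul_le_mul_of_nonneg_right hab.le hD0.le
  have h6 : r * (1 - (b : ℝ)) ≤ r * (1 - a) := mul_le_mul_of_nonneg_left (by linarith) hr0.le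
  linarith

/-- The explicit lower bound for all `D ≥ 3`. -/
theorem lower_all (D : ℕ) (hD : 3 ≤ D) (r : ℝ) (hr : Admissible D r) :
    log D - 2 * log (log D) ≤ r := by
  rcases le_total (log (D : ℝ)) 4 with h4 | h4
  · refine (small_case D hD h4).trans ?_
    obtain ⟨h1, h2⟩ := family 2 ((D + 1) / 2) D (by norm_num) (by omega) (by omega)
      (by simp only [show 2 - 1 = 1 from rfl, pow_one]; omega) r hr
    have h3 : ((((D + 1) / 2 : ℕ) : ℝ)) ≤ ((D : ℝ) + 1) / 2 := by
      rw [le_div_iff₀ (by norm_num)]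
      exact_mod_cast Nat.div_mul_le_self (D + 1) 2
    have hD' : (3 : ℝ) ≤ D := by exact_mod_cast hD
    push_cast at h1 h2
    norm_num at h1 h2
    have hr0 : 0 < r := by
      by_contra hneg
      push Not at hneg
      have h5 := mul_nonpos_of_nonpos_of_nonneg hneg (by linarith :
        0 ≤ ((((D + 1) / 2 : ℕ) : ℝ)) * 3 - 2)
      linarith
    nlinarith
  · obtain ⟨h0, h1, hent⟩ := entropy_ineq D h4 _ _ rfl rfl
    have hD0 : (0 : ℝ) < D := by exact_mod_cast (by omega : 0 < D)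
    set x := log (D : ℝ) - 2 * log (log D) with hx
    have h5 := entropy_real D (by omega) (x / D) h0 h1 (by unfold expo; linarith) r hr
    refine le_trans ?_ h5
    rw [le_div_iff₀ (by linarith), div_mul_cancel₀ _ hD0.ne']
    have hx0 : 0 < x := by
      have := mul_pos h0 hD0
      rwa [div_mul_cancel₀ _ hD0.ne'] at this
    nlinarith

end Pool.Agent.Lib.MP_6659c6_co.Rand
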