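import Mathlib

/-!
Leaf 1 (MP_6659c6_co, random permutations). The most likely value of a binomial variable.

`mode_bound`: put `b i = C(N,i) k^i (N-k)^(N-i)`. Then `∑_{i ≤ N} b i = N^N` (binomial theorem for
`(k + (N-k))^N`), and `b i ≤ b k` for all `i ≤ N`: for `i < k` the ratio
`b (i+1) / b i = (N-i) k / ((i+1) (N-k))` is at least `1`, since `i + 1 ≤ k` and `N - k ≤ N - i`;
for `i ≥ k` it is at most `1`, since `(N - i) ≤ (N - k)` and `k ≤ i + 1`.
-/

namespace Pool.Agent.Lib.MP_6659c6_co.Rand

open Finset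

private theorem mode_step (N k i : ℕ) (hiN : i < N) :
    ∃ c : ℕ, N.choose i * k ^ i * (N - k) ^ (N - i) = c * (N - k) ∧
      (i + 1) * (N.choose (i + 1) * k ^ (i + 1) * (N - k) ^ (N - (i + 1))) = c * (k * (N - i)) := by
  refine ⟨N.choose i * k ^ i * (N - k) ^ (N - (i + 1)), ?_, ?_⟩
  · have h : N - i = N - (i + 1) + 1 := by omega
    rw [h, pow_succ]
    ring
  · have h := Nat.choose_succ_right_eq N i
    calc (i + 1) * (N.choose (i + 1) * k ^ (i + 1) * (N - k) ^ (N - (i + 1)))
        = (N.choose (i + 1) * (i + 1)) * k ^ (i + 1) * (N - k) ^ (N - (i + 1)) := by ring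
      _ = (N.choose i * (N - i)) * k ^ (i + 1) * (N - k) ^ (N - (i + 1)) := by rw [h]
      _ = _ := by rw [pow_succ]; ring

private theorem mode_up (N k i : ℕ) (hkN : k < N) (hi : i < k) :
    N.choose i * k ^ i * (N - k) ^ (N - i) ≤
      N.choose (i + 1) * k ^ (i + 1) * (N - k) ^ (N - (i + 1)) := by
  obtain ⟨c, h1, h2⟩ := mode_step N k i (by omega)
  refine Nat.le_of_mul_le_mul_left (c := i + 1) ?_ (Nat.succ_pos i)
  rw [h2, h1]
  calc (i + 1) * (c * (N - k)) = c * ((i + 1) * (N - k)) := by ring
    _ ≤ c * (k * (N - i)) := Nat.mul_le_mul_left _ (Nat.mul_le_mul (by omega) (by omega))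

private theorem mode_down (N k i : ℕ) (hi : k ≤ i) (hiN : i < N) :
    N.choose (i + 1) * k ^ (i + 1) * (N - k) ^ (N - (i + 1)) ≤
      N.choose i * k ^ i * (N - k) ^ (N - i) := by
  obtain ⟨c, h1, h2⟩ := mode_step N k i hiN
  refine Nat.le_of_mul_le_mul_left (c := i + 1) ?_ (Nat.succ_pos i)
  rw [h2, h1]
  calc c * (k * (N - i)) ≤ c * ((i + 1) * (N - k)) :=
        Nat.mul_le_mul_left _ (Nat.mul_le_mul (by omega) (by omega))
    _ = (i + 1) * (c * (N - k)) := by ring

private theorem mode_le (N k : ℕ) (hkN : k < N) (i : ℕ) (hi : i ≤ N) :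
    N.choose i * k ^ i * (N - k) ^ (N - i) ≤ N.choose k * k ^ k * (N - k) ^ (N - k) := by
  rcases le_total i k with h | h
  · have key : ∀ d i, i + d = k → N.choose i * k ^ i * (N - k) ^ (N - i) ≤
        N.choose k * k ^ k * (N - k) ^ (N - k) := by
      intro d
      induction d with
      | zero =>
        intro i hi
        rw [add_zero] at hi
        rw [hi]
      | succ d ih =>
        intro i hi
        exact (mode_up N k i hkN (by omega)).trans (ih (i + 1) (by omega))
    exact key (k - i) i (by omega)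
  · have key : ∀ d, k + d ≤ N → N.choose (k + d) * k ^ (k + d) * (N - k) ^ (N - (k + d)) ≤
        N.choose k * k ^ k * (N - k) ^ (N - k) := by
      intro d
      induction d with
      | zero =>
        intro _
        rw [add_zero]
      | succ d ih =>
        intro hd
        exact (mode_down N k (k + d) (by omega) (by omega)).trans (ih (by omega))
    have := key (i - k) (by omega)
    rwa [show k + (i - k) = i by omega] at this

theorem mode_bound (N k : ℕ) (hk : 0 < k) (hkN : k < N) :
    N ^ N ≤ (N + 1) * (N.choose k * k ^ k * (N - k) ^ (N - k)) := by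
  have h1 : N ^ N = ∑ i ∈ range (N + 1), N.choose i * k ^ i * (N - k) ^ (N - i) := by
    have h := add_pow k (N - k) N
    rw [show k + (N - k) = N by omega] at h
    rw [h]
    refine Finset.sum_congr rfl fun i _ => ?_
    push_cast
    ring
  rw [h1]
  calc ∑ i ∈ range (N + 1), N.choose i * k ^ i * (N - k) ^ (N - i)
      ≤ ∑ _i ∈ range (N + 1), N.choose k * k ^ k * (N - k) ^ (N - k) :=
        Finset.sum_le_sum fun i hi => mode_le N k hkN i (by
          have := Finset.mem_range.mp hi
          omega)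
    _ = (N + 1) * (N.choose k * k ^ k * (N - k) ^ (N - k)) := by
        rw [Finset.sum_const, Finset.card_range, smul_eq_mul]

end Pool.Agent.Lib.MP_6659c6_co.Rand
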