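import Mathlib

/-!
Real analysis for the random-permutation lower bound.
-/

namespace Pool.Agent.Lib.MP_6659c6_co.RandRealB

/-- For `D ≥ 64` the number `r = log D - 2 log log D` satisfies the first moment condition. -/
theorem large (D : ℕ) (hD : 64 ≤ D) (r : ℝ) (hr : r = Real.log D - 2 * Real.log (Real.log D)) :
    1 ≤ r ∧ 0 < r / (D + r) ∧ r / (D + r) < 1 ∧
    r / (D + r) * D / (1 - r / (D + r)) = r ∧
    -(r / (D + r)) * Real.log (r / (D + r)) - (1 - r / (D + r)) * Real.log (1 - r / (D + r))
      + Real.log (1 - (1 - r / (D + r)) ^ D) < 0 := by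
  obtain ⟨L, hL⟩ : ∃ L : ℝ, L = Real.log D := ⟨_, rfl⟩
  rw [← hL] at hr
  have hDR : (64 : ℝ) ≤ D := by exact_mod_cast hD
  have hD0 : (0 : ℝ) < D := by linarith
  have hlog2 := Real.log_two_gt_d9
  have hlog2' := Real.log_two_lt_d9
  have hL4 : 4.1 ≤ L := by
    have h1 : Real.log 64 ≤ Real.log D := Real.log_le_log (by norm_num) hDR
    have h2 : Real.log 64 = 6 * Real.log 2 := by
      rw [show (64 : ℝ) = 2 ^ (6 : ℕ) by norm_num, Real.log_pow]
      norm_num
    rw [hL]
    linarith
  have hL0 : 0 < L := by linarith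
  have hlogL : Real.log L ≤ 2 * Real.log 2 + L / 4 - 1 := by
    have h1 : Real.log L = Real.log 4 + Real.log (L / 4) := by
      rw [← Real.log_mul (by norm_num) (by positivity)]
      congr 1
      ring
    have h2 : Real.log 4 = 2 * Real.log 2 := by
      rw [show (4 : ℝ) = 2 ^ (2 : ℕ) by norm_num, Real.log_pow]
      norm_num
    have h3 := Real.log_le_sub_one_of_pos (show 0 < L / 4 by positivity)
    linarith
  have hlogL1 : 1.25 ≤ Real.log L := by
    have h1 : Real.log L = Real.log 4 + Real.log (L / 4) := by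
      rw [← Real.log_mul (by norm_num) (by positivity)]
      congr 1
      ring
    have h2 : Real.log 4 = 2 * Real.log 2 := by
      rw [show (4 : ℝ) = 2 ^ (2 : ℕ) by norm_num, Real.log_pow]
      norm_num
    have h3 : 0 ≤ Real.log (L / 4) := Real.log_nonneg (by linarith)
    linarith
  have hr1 : 1 ≤ r := by rw [hr]; linarith
  have hrL : r ≤ L := by rw [hr]; linarith
  have hLD : L ≤ D := by
    rw [hL]
    have := Real.log_le_sub_one_of_pos hD0
    linarith
  have hr0 : 0 < r := by linarith
  have hDr : 0 < (D : ℝ) + r := by linarith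
  have ha0 : 0 < r / (D + r) := by positivity
  have ha1 : r / (D + r) < 1 := by
    rw [div_lt_one hDr]
    linarith
  have h1a : 1 - r / (D + r) = D / (D + r) := by
    field_simp
    ring
  refine ⟨hr1, ha0, ha1, ?_, ?_⟩
  · rw [h1a]
    field_simp
  have hx0 : 0 < 1 - r / (D + r) := by linarith
  have hx1 : 1 - r / (D + r) < 1 := by linarith
  -- the power
  have hpow : L ^ 2 / D ≤ (1 - r / (D + r)) ^ D := by
    have h1 : (1 + r / D) ^ D ≤ Real.exp r := by
      have h2 : 1 + r / D ≤ Real.exp (r / D) := by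
        have := Real.add_one_le_exp (r / D)
        linarith
      calc (1 + r / D) ^ D ≤ (Real.exp (r / D)) ^ D := by
            apply pow_le_pow_left₀ (by positivity) h2
        _ = Real.exp r := by
            rw [← Real.exp_nat_mul]
            congr 1
            field_simp
    have h3 : (1 - r / (D + r)) ^ D = ((1 + r / D) ^ D)⁻¹ := by
      rw [h1a, ← inv_pow]
      congr 1
      field_simp
    have h4 : Real.exp r = D / L ^ 2 := by
      rw [hr, Real.exp_sub, hL, Real.exp_log hD0]
      congr 1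
      rw [two_mul, Real.exp_add, Real.exp_log (by rw [← hL]; exact hL0)]
      ring
    rw [h3]
    rw [h4] at h1
    have h5 : 0 < (1 + r / D) ^ D := by positivity
    calc L ^ 2 / D = (D / L ^ 2)⁻¹ := by rw [inv_div]
      _ ≤ _ := inv_anti₀ h5 h1
  have hpow1 : (1 - r / (D + r)) ^ D < 1 := by
    apply pow_lt_one₀ hx0.le hx1
    omega
  have hlog1 : Real.log (1 - (1 - r / (D + r)) ^ D) ≤ -(1 - r / (D + r)) ^ D := by
    have := Real.log_le_sub_one_of_pos (show 0 < 1 - (1 - r / (D + r)) ^ D by linarith)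
    linarith
  -- entropy, second half
  have hent2 : -((1 - r / (D + r)) * Real.log (1 - r / (D + r))) ≤ r / (D + r) := by
    have h1 := Real.log_le_sub_one_of_pos (show 0 < (1 - r / (D + r))⁻¹ by positivity)
    rw [Real.log_inv] at h1
    have h2 : (1 - r / (D + r)) * (-Real.log (1 - r / (D + r)))
        ≤ (1 - r / (D + r)) * ((1 - r / (D + r))⁻¹ - 1) :=
      mul_le_mul_of_nonneg_left h1 hx0.le
    have h3 : (1 - r / (D + r)) * ((1 - r / (D + r))⁻¹ - 1) = r / (D + r) := by
      rw [mul_sub, mul_inv_cancel₀ hx0.ne']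
      ring
    linarith
  -- entropy, first half
  have hent1 : -(r / (D + r)) * Real.log (r / (D + r)) ≤ r / (D + r) * (L + 1) := by
    rw [Real.log_div hr0.ne' hDr.ne']
    have h1 : Real.log (D + r) ≤ L + 1 := by
      have h2 : (D : ℝ) + r = D * (1 + r / D) := by field_simp
      rw [h2, Real.log_mul hD0.ne' (by positivity), ← hL]
      have h3 := Real.log_le_sub_one_of_pos (show 0 < 1 + r / D by positivity)
      have h4 : r / D ≤ 1 := by
        rw [div_le_one hD0]
        linarith
      linarith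
    have h5 : 0 ≤ Real.log r := Real.log_nonneg hr1
    have h6 : r / (D + r) * (Real.log (D + r) - Real.log r) ≤ r / (D + r) * (L + 1) :=
      mul_le_mul_of_nonneg_left (by linarith) ha0.le
    linarith
  have hfin : r / (D + r) * (L + 2) < L ^ 2 / D := by
    have h1 : r / (D + r) ≤ r / D := by
      apply div_le_div_of_nonneg_left hr0.le hD0
      linarith
    have h2 : r * (L + 2) < L ^ 2 := by
      have h3 : L < Real.log L * (L + 2) := by nlinarith
      rw [hr]
      nlinarith
    calc r / (D + r) * (L + 2) ≤ r / D * (L + 2) :=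
          mul_le_mul_of_nonneg_right h1 (by linarith)
      _ = r * (L + 2) / D := by ring
      _ < L ^ 2 / D := by
          apply div_lt_div_of_pos_right h2 hD0
  nlinarith

/-- Small degrees. -/
theorem small (D : ℕ) (h3 : 3 ≤ D) (hD : D ≤ 64) :
    ∃ e : ℕ, 1 ≤ e ∧ D ≤ 2 ^ (e - 1) ∧
      Real.log D - 2 * Real.log (Real.log D) ≤ (D : ℝ) * e / (1 * (2 ^ e - 1) - e) := by
  have hlog2 := Real.log_two_gt_d9
  have hlog2' := Real.log_two_lt_d9
  obtain ⟨L, hL⟩ : ∃ L : ℝ, L = Real.log D := ⟨_, rfl⟩
  have hDR : (3 : ℝ) ≤ D := by exact_mod_cast h3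
  have hL1 : 1.03 ≤ L := by
    have h1 : Real.log 3 ≤ Real.log D := Real.log_le_log (by norm_num) hDR
    have h2 : 1.03 ≤ Real.log 3 := by
      have h4 : 3 * Real.log 2 ≤ 2 * Real.log 3 := by
        have : Real.log ((2 : ℝ) ^ (3 : ℕ)) ≤ Real.log ((3 : ℝ) ^ (2 : ℕ)) :=
          Real.log_le_log (by norm_num) (by norm_num)
        rw [Real.log_pow, Real.log_pow] at this
        norm_num at this
        linarith
      linarith
    rw [hL]
    linarith
  have hL0 : 0 < L := by linarith
  have hlogL : Real.log 2 + 1 - 2 / L ≤ Real.log L := by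
    have h1 : Real.log L = Real.log 2 - Real.log (2 / L) := by
      rw [Real.log_div (by norm_num) hL0.ne']
      ring
    have h2 := Real.log_le_sub_one_of_pos (show 0 < 2 / L by positivity)
    linarith
  have hup : ∀ k : ℕ, D ≤ 2 ^ k → L ≤ k * Real.log 2 := by
    intro k hk
    rw [hL, ← Real.log_pow]
    apply Real.log_le_log (by linarith)
    exact_mod_cast hk
  -- f ≤ 1.7 for L ≤ 4.1
  have hf1 : L ≤ 4 → L - 2 * Real.log L ≤ 1.7 := by
    intro h4
    have h5 : L - 2 * (Real.log 2 + 1 - 2 / L) ≤ 1.7 := by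
      have h6 : L - 2 * (0.69 + 1 - 2 / L) ≤ 1.7 := by
        rw [show L - 2 * (0.69 + 1 - 2 / L) = (L ^ 2 - 3.38 * L + 4) / L by field_simp; ring,
          div_le_iff₀ hL0]
        nlinarith
      linarith
    linarith
  have hf2 : L ≤ 4.2 → L - 2 * Real.log L ≤ 1.9 := by
    intro h4
    have h5 : L - 2 * (Real.log 2 + 1 - 2 / L) ≤ 1.9 := by
      have h6 : L - 2 * (0.69 + 1 - 2 / L) ≤ 1.9 := by
        rw [show L - 2 * (0.69 + 1 - 2 / L) = (L ^ 2 - 3.38 * L + 4) / L by field_simp; ring,
          div_le_iff₀ hL0]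
        nlinarith
      linarith
    linarith
  rw [← hL]
  rcases le_or_gt D 4 with h | h
  · refine ⟨3, by norm_num, by norm_num; exact h, ?_⟩
    have h1 := hup 2 (by norm_num; exact h)
    have h2 := hf1 (by push_cast at h1; linarith)
    refine h2.trans ?_
    rw [le_div_iff₀ (by norm_num)]
    norm_num
    linarith
  rcases le_or_gt D 8 with h' | h'
  · refine ⟨4, by norm_num, by norm_num; exact h', ?_⟩
    have h1 := hup 3 (by norm_num; exact h')
    have h2 := hf1 (by push_cast at h1; linarith)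
    have h3 : (5 : ℝ) ≤ D := by exact_mod_cast h
    refine h2.trans ?_
    rw [le_div_iff₀ (by norm_num)]
    norm_num
    linarith
  rcases le_or_gt D 16 with h'' | h''
  · refine ⟨5, by norm_num, by norm_num; exact h'', ?_⟩
    have h1 := hup 4 (by norm_num; exact h'')
    have h2 := hf1 (by push_cast at h1; linarith)
    have h3 : (9 : ℝ) ≤ D := by exact_mod_cast h'
    refine h2.trans ?_
    rw [le_div_iff₀ (by norm_num)]
    norm_num
    linarith
  rcases le_or_gt D 32 with h3' | h3'
  · refine ⟨6, by norm_num, by norm_num; exact h3', ?_⟩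
    have h1 := hup 5 (by norm_num; exact h3')
    have h2 := hf1 (by push_cast at h1; linarith)
    have h3 : (17 : ℝ) ≤ D := by exact_mod_cast h''
    refine h2.trans ?_
    rw [le_div_iff₀ (by norm_num)]
    norm_num
    linarith
  · refine ⟨7, by norm_num, by norm_num; exact hD, ?_⟩
    have h1 := hup 6 (by norm_num; exact hD)
    have h2 := hf2 (by push_cast at h1; linarith)
    have h3 : (33 : ℝ) ≤ D := by exact_mod_cast h3'
    refine h2.trans ?_
    rw [le_div_iff₀ (by norm_num)]
    norm_num
    linarith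

/-- The form with `4 / 3`. -/
theorem small_case (D : ℕ) (hD : 3 ≤ D) (hD4 : Real.log (D : ℝ) ≤ 4) :
    Real.log D - 2 * Real.log (Real.log D) ≤ 4 / 3 := by
  have hlog2 := Real.log_two_gt_d9
  obtain ⟨L, hL⟩ : ∃ L : ℝ, L = Real.log D := ⟨_, rfl⟩
  rw [← hL] at hD4 ⊢
  have hDR : (3 : ℝ) ≤ D := by exact_mod_cast hD
  have hL1 : 1 ≤ L := by
    rw [hL, Real.le_log_iff_exp_le (by linarith)]
    have := Real.exp_one_lt_d9
    linarith
  have hL0 : 0 < L := by linarith
  rcases le_or_gt L (4 / 3) with h | h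
  · have := Real.log_nonneg hL1
    linarith
  have hlog : ∀ c : ℝ, 0 < c → Real.log c + 1 - c / L ≤ Real.log L := by
    intro c hc
    have h1 : Real.log L = Real.log c - Real.log (c / L) := by
      rw [Real.log_div hc.ne' hL0.ne']
      ring
    have h2 := Real.log_le_sub_one_of_pos (show 0 < c / L by positivity)
    linarith
  have h4 : Real.log 4 = 2 * Real.log 2 := by
    rw [show (4 : ℝ) = 2 ^ (2 : ℕ) by norm_num, Real.log_pow]
    norm_num
  rcases le_or_gt L (5 / 2) with h' | h'
  · have h1 := hlog 2 (by norm_num)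
    have h2 : L - 2 * (0.69 + 1 - 2 / L) ≤ 4 / 3 := by
      rw [show L - 2 * (0.69 + 1 - 2 / L) = (L ^ 2 - 3.38 * L + 4) / L by field_simp; ring,
        div_le_iff₀ hL0]
      nlinarith
    linarith
  · have h1 := hlog 4 (by norm_num)
    have h2 : L - 2 * (1.38 + 1 - 4 / L) ≤ 4 / 3 := by
      rw [show L - 2 * (1.38 + 1 - 4 / L) = (L ^ 2 - 4.76 * L + 8) / L by field_simp; ring,
        div_le_iff₀ hL0]
      nlinarith
    linarith

end Pool.Agent.Lib.MP_6659c6_co.RandRealB
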