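import Mathlib

/-! A greedy cover and a weighted alteration lemma. -/

set_option autoImplicit false

namespace Pool.Agent.Lib.MP_6659c6_co.Up5

open Finset

/-- The harmonic number as a real number. -/
noncomputable def hh (k : ℕ) : ℝ := ((harmonic k : ℚ) : ℝ)

theorem hh_one : hh 1 = 1 := by
  unfold hh
  simp [harmonic]

theorem hh_succ (k : ℕ) : hh (k + 1) = hh k + 1 / ((k : ℝ) + 1) := by
  unfold hh
  rw [harmonic_succ]
  push_cast
  rw [one_div]

theorem hh_ge_one (k : ℕ) (hk : 1 ≤ k) : 1 ≤ hh k := by
  induction k, hk using Nat.le_induction with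
  | base => rw [hh_one]
  | succ k hk ih =>
    rw [hh_succ]
    have : (0 : ℝ) ≤ 1 / ((k : ℝ) + 1) := by positivity
    linarith

/-- Greedy cover: choose elements covering at least `k` sets as long as possible, then lower `k`. -/
theorem greedy_cover {α ι : Type*} [DecidableEq α] [DecidableEq ι] (D : ℕ) (hD : 1 ≤ D)
    (M : Finset α) (B : ι → Finset α) :
    ∀ k : ℕ, 1 ≤ k → ∀ J : Finset ι, (∀ i ∈ J, (B i).Nonempty ∧ (B i ∩ M).card ≤ D) →
    ∃ T : Finset α, (∀ i ∈ J, ¬ Disjoint (B i) T) ∧
      (T.card : ℝ) ≤ (M.card : ℝ) / D * (hh k - 1)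
        + ∑ i ∈ J, (1 - ((B i ∩ M).card : ℝ) / D * (1 - 1 / (k : ℝ))) := by
  classical
  have hD0 : (0 : ℝ) < D := by exact_mod_cast hD
  intro k hk
  induction k, hk using Nat.le_induction with
  | base =>
    intro J hJ
    refine ⟨J.attach.image fun i => (hJ i.1 i.2).1.choose, ?_, ?_⟩
    · intro i hi
      rw [Finset.not_disjoint_iff]
      exact ⟨(hJ i hi).1.choose, (hJ i hi).1.choose_spec,
        Finset.mem_image.2 ⟨⟨i, hi⟩, Finset.mem_attach _ _, rfl⟩⟩
    · rw [hh_one]
      have h1 : (J.attach.image fun i => (hJ i.1 i.2).1.choose).card ≤ J.card := by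
        refine Finset.card_image_le.trans ?_
        rw [Finset.card_attach]
      have h2 : ((J.attach.image fun i => (hJ i.1 i.2).1.choose).card : ℝ) ≤ J.card := by
        exact_mod_cast h1
      simpa using h2
  | succ k hk ih =>
    have hk0 : (0 : ℝ) < k := by exact_mod_cast hk
    have main : ∀ n : ℕ, ∀ J : Finset ι, J.card = n →
        (∀ i ∈ J, (B i).Nonempty ∧ (B i ∩ M).card ≤ D) →
        ∃ T : Finset α, (∀ i ∈ J, ¬ Disjoint (B i) T) ∧
          (T.card : ℝ) ≤ (M.card : ℝ) / D * (hh (k + 1) - 1)
            + ∑ i ∈ J, (1 - ((B i ∩ M).card : ℝ) / D * (1 - 1 / (((k + 1 : ℕ)) : ℝ))) := by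
      intro n
      induction n using Nat.strong_induction_on with
      | _ n ihn =>
        intro J hJn hJ
        by_cases hu : ∃ u ∈ M, k + 1 ≤ (J.filter fun i => u ∈ B i).card
        · obtain ⟨u, _, hcard⟩ := hu
          have hsplit := Finset.card_filter_add_card_filter_not (s := J) (fun i => u ∈ B i)
          obtain ⟨T, hT1, hT2⟩ := ihn (J.filter fun i => ¬ u ∈ B i).card (by omega)
            (J.filter fun i => ¬ u ∈ B i) rfl
            (fun i hi => hJ i (Finset.mem_of_mem_filter i hi))
          refine ⟨insert u T, ?_, ?_⟩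
          · intro i hi
            rw [Finset.not_disjoint_iff]
            by_cases hui : u ∈ B i
            · exact ⟨u, hui, Finset.mem_insert_self _ _⟩
            · have h := hT1 i (Finset.mem_filter.2 ⟨hi, hui⟩)
              rw [Finset.not_disjoint_iff] at h
              obtain ⟨a, ha1, ha2⟩ := h
              exact ⟨a, ha1, Finset.mem_insert_of_mem ha2⟩
          · have h1 : ((insert u T).card : ℝ) ≤ T.card + 1 := by
              exact_mod_cast Finset.card_insert_le u T
            rw [← Finset.sum_filter_add_sum_filter_not J (fun i => u ∈ B i)]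
            have h2 : (1 : ℝ) ≤ ∑ i ∈ J.filter (fun i => u ∈ B i),
                (1 - ((B i ∩ M).card : ℝ) / D * (1 - 1 / (((k + 1 : ℕ)) : ℝ))) := by
              have hk1 : (0 : ℝ) < ((k + 1 : ℕ) : ℝ) := by positivity
              have h3 : ∀ i ∈ J.filter (fun i => u ∈ B i), 1 / (((k + 1 : ℕ)) : ℝ) ≤
                  (1 - ((B i ∩ M).card : ℝ) / D * (1 - 1 / (((k + 1 : ℕ)) : ℝ))) := by
                intro i hi
                have h4 : ((B i ∩ M).card : ℝ) ≤ D := by
                  exact_mod_cast (hJ i (Finset.mem_of_mem_filter i hi)).2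
                have h5 : ((B i ∩ M).card : ℝ) / D ≤ 1 := (div_le_one hD0).2 h4
                have h6 : 0 ≤ 1 - 1 / (((k + 1 : ℕ)) : ℝ) := by
                  rw [sub_nonneg, div_le_one hk1]
                  exact_mod_cast (by omega : 1 ≤ k + 1)
                nlinarith
              have h7 := Finset.card_nsmul_le_sum _ _ _ h3
              refine le_trans ?_ h7
              rw [nsmul_eq_mul, mul_one_div, le_div_iff₀ hk1, one_mul]
              exact_mod_cast hcard
            linarith
        · push Not at hu
          obtain ⟨T, hT1, hT2⟩ := ih J hJ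
          refine ⟨T, hT1, hT2.trans ?_⟩
          have hsum : ∑ i ∈ J, ((B i ∩ M).card : ℝ) ≤ k * M.card := by
            have h1 : ∑ i ∈ J, (B i ∩ M).card = ∑ u ∈ M, (J.filter fun i => u ∈ B i).card := by
              have h2 : ∀ i ∈ J, (B i ∩ M).card = ∑ u ∈ M, if u ∈ B i then 1 else 0 := by
                intro i _
                rw [Finset.inter_comm, ← Finset.filter_mem_eq_inter, Finset.card_filter]
              rw [Finset.sum_congr rfl h2, Finset.sum_comm]
              apply Finset.sum_congr rfl
              intro u _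
              rw [Finset.card_filter]
            have h3 : ∑ u ∈ M, (J.filter fun i => u ∈ B i).card ≤ ∑ u ∈ M, k :=
              Finset.sum_le_sum fun u hu' => by
                have := hu u hu'
                omega
            rw [Finset.sum_const, smul_eq_mul] at h3
            have h4 : ∑ i ∈ J, (B i ∩ M).card ≤ k * M.card := by
              rw [h1]
              linarith [h3, Nat.mul_comm k M.card]
            exact_mod_cast h4
          rw [hh_succ]
          have e : ∀ x : ℝ, ∑ i ∈ J, (1 - ((B i ∩ M).card : ℝ) / D * x)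
              = J.card - (∑ i ∈ J, ((B i ∩ M).card : ℝ)) / D * x := by
            intro x
            rw [Finset.sum_sub_distrib, Finset.sum_const, nsmul_eq_mul, mul_one, Finset.sum_div,
              Finset.sum_mul]
          rw [e, e]
          set s := ∑ i ∈ J, ((B i ∩ M).card : ℝ)
          have hkk : (((k + 1 : ℕ)) : ℝ) = (k : ℝ) + 1 := by push_cast; ring
          rw [hkk]
          have h5 : s / D * (1 / (k : ℝ) - 1 / ((k : ℝ) + 1)) ≤
              (M.card : ℝ) / D * (1 / ((k : ℝ) + 1)) := by
            have e1 : 1 / (k : ℝ) - 1 / ((k : ℝ) + 1) = 1 / ((k : ℝ) * ((k : ℝ) + 1)) := by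
              field_simp
              ring
            rw [e1, div_mul_div_comm, div_mul_div_comm, mul_one, mul_one,
              div_le_div_iff₀ (by positivity) (by positivity)]
            have h6 : 0 < (D : ℝ) * ((k : ℝ) + 1) := by positivity
            nlinarith
          have e2 : (M.card : ℝ) / D * (hh k + 1 / ((k : ℝ) + 1) - 1)
              = (M.card : ℝ) / D * (hh k - 1) + (M.card : ℝ) / D * (1 / ((k : ℝ) + 1)) := by ring
          have e3 : s / D * (1 - 1 / ((k : ℝ) + 1))
              = s / D * (1 - 1 / (k : ℝ)) + s / D * (1 / (k : ℝ) - 1 / ((k : ℝ) + 1)) := by ring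
          rw [e2, e3]
          linarith
    intro J hJ
    exact main J.card J rfl hJ

/-- Weighted derandomised alteration lemma. -/
lemma exists_small_hitting_w {α ι : Type*} [DecidableEq α] (p : ℝ) (hp0 : 0 ≤ p) (hp1 : p ≤ 1)
    (A : ι → Finset α) (w : ι → ℝ) (M : Finset α) :
    ∀ I : Finset ι, ∃ R ⊆ M, (R.card : ℝ) + ∑ i ∈ I.filter (fun i => Disjoint (A i) R), w i
      ≤ p * M.card + ∑ i ∈ I, w i * (1 - p) ^ (A i ∩ M).card := by
  classical
  induction M using Finset.induction_on with
  | empty =>
    intro I
    refine ⟨∅, subset_rfl, ?_⟩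
    simp
  | insert x M hx ih =>
    intro I
    obtain ⟨R1, hR1, h1⟩ := ih (I.filter fun i => x ∉ A i)
    obtain ⟨R2, hR2, h2⟩ := ih I
    -- the two options
    have key : p * ((1 : ℝ) + (p * M.card + ∑ i ∈ I.filter (fun i => x ∉ A i),
          w i * (1 - p) ^ (A i ∩ M).card)) +
        (1 - p) * (p * M.card + ∑ i ∈ I, w i * (1 - p) ^ (A i ∩ M).card)
        = p * (insert x M).card + ∑ i ∈ I, w i * (1 - p) ^ (A i ∩ insert x M).card := by
      rw [Finset.card_insert_of_notMem hx]
      rw [← Finset.sum_filter_add_sum_filter_not I (fun i => x ∉ A i)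
        (fun i => w i * (1 - p) ^ (A i ∩ M).card)]
      rw [← Finset.sum_filter_add_sum_filter_not I (fun i => x ∉ A i)
        (fun i => w i * (1 - p) ^ (A i ∩ insert x M).card)]
      have e1 : ∑ i ∈ I with x ∉ A i, w i * (1 - p) ^ (A i ∩ insert x M).card
          = ∑ i ∈ I with x ∉ A i, w i * (1 - p) ^ (A i ∩ M).card := by
        apply Finset.sum_congr rfl
        intro i hi
        rw [Finset.mem_filter] at hi
        rw [Finset.inter_insert_of_notMem hi.2]
      have e2 : ∑ i ∈ I with ¬ x ∉ A i, w i * (1 - p) ^ (A i ∩ insert x M).card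
          = (1 - p) * ∑ i ∈ I with ¬ x ∉ A i, w i * (1 - p) ^ (A i ∩ M).card := by
        rw [Finset.mul_sum]
        apply Finset.sum_congr rfl
        intro i hi
        rw [Finset.mem_filter, not_not] at hi
        rw [Finset.inter_insert_of_mem hi.2, Finset.card_insert_of_notMem (by simp [hx]), pow_succ]
        ring
      rw [e1, e2]
      push_cast
      ring
    by_cases hc : (1 : ℝ) + (p * M.card + ∑ i ∈ I.filter (fun i => x ∉ A i),
          w i * (1 - p) ^ (A i ∩ M).card) ≤ p * M.card + ∑ i ∈ I, w i * (1 - p) ^ (A i ∩ M).card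
    · refine ⟨insert x R1, Finset.insert_subset_insert x hR1, ?_⟩
      have hxR : x ∉ R1 := fun h => hx (hR1 h)
      rw [Finset.card_insert_of_notMem hxR]
      have e : (I.filter fun i => Disjoint (A i) (insert x R1)) =
          ((I.filter fun i => x ∉ A i).filter fun i => Disjoint (A i) R1) := by
        ext i
        simp only [Finset.mem_filter, Finset.disjoint_insert_right, and_assoc]
      rw [e, ← key]
      push_cast
      nlinarith
    · push Not at hc
      refine ⟨R2, hR2.trans (Finset.subset_insert x M), ?_⟩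
      rw [← key]
      nlinarith

end Pool.Agent.Lib.MP_6659c6_co.Up5
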