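import Pool.Agent.Lib.MP_6659c6_co.Upper3
import Pool.Agent.Lib.MP_6659c6_co.UpGreedy

/-! The upper bound for the total domination number: a random set, then a greedy cover. -/

set_option autoImplicit false

namespace Pool.Agent.Lib.MP_6659c6_co.Up5

open Finset

theorem totalDom_upper2 {V : Type} [Fintype V] (G : SimpleGraph V) [DecidableRel G.Adj]
    (hG : G.Connected)
    (h3 : 3 ≤ Fintype.card V) (Δ : ℕ) (hΔ1 : 1 ≤ Δ) (hΔ : ∀ v, G.degree v ≤ Δ) (k : ℕ) (hk : 1 ≤ k)
    (p c : ℝ) (hp0 : 0 ≤ p) (hp1 : p ≤ 1) (hc0 : 0 ≤ c) (hcΔ : ((Δ : ℝ) + 2) * c ≤ 1)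
    (ha : ∀ d : ℕ, 2 ≤ d → d ≤ Δ → p + (hh k - 1) / Δ
      + (1 - p) ^ d * (1 - (1 - 1 / (k : ℝ)) / Δ * d) ≤ 1 - c * d)
    (hb : ∀ d : ℕ, 2 ≤ d → d ≤ Δ → (1 - p) ^ (d - 1) * (1 - (1 - 1 / (k : ℝ)) / Δ * ((d : ℝ) - 1))
      ≤ 1 - c * (d + 1)) :
    (totalDomNumber G : ℝ) ≤ ∑ v, (1 - c * G.degree v) := by
  classical
  have hΔ0 : (0 : ℝ) < Δ := by exact_mod_cast hΔ1
  have hk0 : (1 : ℝ) ≤ k := by exact_mod_cast hk
  set β : ℝ := (1 - 1 / (k : ℝ)) / Δ with hβ
  have hkinv : 0 ≤ 1 - 1 / (k : ℝ) ∧ 1 - 1 / (k : ℝ) ≤ 1 := by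
    constructor
    · rw [sub_nonneg, div_le_one (by linarith)]
      exact hk0
    · have : (0 : ℝ) ≤ 1 / (k : ℝ) := by positivity
      linarith
  have hβ0 : 0 ≤ β := div_nonneg hkinv.1 hΔ0.le
  have hβΔ : β * Δ ≤ 1 := by
    rw [hβ, div_mul_cancel₀ _ hΔ0.ne']
    exact hkinv.2
  have hβs : ∀ s : ℕ, s ≤ Δ → 0 ≤ 1 - β * s ∧ 1 - β * s ≤ 1 := by
    intro s hs
    have h1 : (s : ℝ) ≤ Δ := by exact_mod_cast hs
    have h2 : β * s ≤ β * Δ := mul_le_mul_of_nonneg_left h1 hβ0
    have h3 : 0 ≤ β * s := mul_nonneg hβ0 (Nat.cast_nonneg _)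
    constructor <;> linarith
  set κ : ℝ := (hh k - 1) / Δ with hκ
  have hκ0 : 0 ≤ κ := div_nonneg (by linarith [hh_ge_one k hk]) hΔ0.le
  set N : V → Finset V := fun v => G.neighborFinset v with hN
  have hNcard : ∀ v, (N v).card = G.degree v := fun v => rfl
  have hmemN : ∀ v w, w ∈ N v ↔ G.Adj v w := fun v w => by simp [hN]
  set L : Finset V := univ.filter fun v => G.degree v = 1 with hL
  set P : Finset V := univ.filter fun v => ∃ u, G.degree u = 1 ∧ G.Adj u v with hP
  set M : Finset V := univ.filter fun v => v ∉ L ∧ v ∉ P with hM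
  have hLP : Disjoint L P := by
    rw [Finset.disjoint_left]
    intro v hv hv'
    rw [hL, Finset.mem_filter] at hv
    rw [hP, Finset.mem_filter] at hv'
    obtain ⟨_, u, hu, huv⟩ := hv'
    have := support_degree G hG h3 hu huv
    omega
  have hLPM : Disjoint (L ∪ P) M := by
    rw [Finset.disjoint_left]
    intro v hv hv'
    rw [hM, Finset.mem_filter] at hv'
    rw [Finset.mem_union] at hv
    tauto
  have huniv : (univ : Finset V) = (L ∪ P) ∪ M := by
    ext v
    simp only [Finset.mem_univ, Finset.mem_union, hM, Finset.mem_filter, true_and, true_iff]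
    tauto
  set I : Finset V := univ.filter fun v => v ∉ L ∧ Disjoint (N v) P with hI
  set s : V → ℕ := fun v => (N v ∩ M).card with hs
  have hsΔ : ∀ v, s v ≤ Δ := fun v =>
    (Finset.card_le_card Finset.inter_subset_left).trans ((hNcard v).le.trans (hΔ v))
  set wt : V → ℝ := fun v => 1 - β * s v with hwt
  have hwt0 : ∀ v, 0 ≤ wt v ∧ wt v ≤ 1 := fun v => hβs _ (hsΔ v)
  obtain ⟨R, hRM, hR⟩ := exists_small_hitting_w p hp0 hp1 N wt M I
  set U : Finset V := I.filter fun v => Disjoint (N v) R with hU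
  have hnb : ∀ v, ∃ w, G.Adj v w := by
    intro v
    have := degree_pos G hG h3 v
    have hne : (N v).Nonempty := by
      rw [← Finset.card_pos, hNcard]
      omega
    obtain ⟨w, hw⟩ := hne
    exact ⟨w, (hmemN v w).1 hw⟩
  choose nb hnb using hnb
  obtain ⟨T, hT1, hT2⟩ := greedy_cover Δ hΔ1 M N k hk U
    (fun v _ => ⟨⟨nb v, (hmemN v _).2 (hnb v)⟩, hsΔ v⟩)
  have hT3 : (T.card : ℝ) ≤ κ * M.card + ∑ v ∈ U, wt v := by
    refine hT2.trans (le_of_eq ?_)
    have e1 : ∀ v ∈ U, (1 - ((N v ∩ M).card : ℝ) / Δ * (1 - 1 / (k : ℝ))) = wt v := by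
      intro v _
      rw [hwt, hβ]
      simp only [hs]
      ring
    rw [Finset.sum_congr rfl e1, hκ]
    ring
  set S : Finset V := R ∪ P ∪ T with hS
  have hdom : IsTotalDominating G S := by
    intro v
    by_cases hvL : v ∈ L
    · refine ⟨nb v, ?_, hnb v⟩
      have : nb v ∈ P := by
        rw [hP, Finset.mem_filter]
        rw [hL, Finset.mem_filter] at hvL
        exact ⟨Finset.mem_univ _, v, hvL.2, hnb v⟩
      rw [hS]
      simp [this]
    · by_cases hvP : Disjoint (N v) P
      · by_cases hvR : Disjoint (N v) R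
        · have hvU : v ∈ U := by
            rw [hU, Finset.mem_filter, hI, Finset.mem_filter]
            exact ⟨⟨Finset.mem_univ _, hvL, hvP⟩, hvR⟩
          have h := hT1 v hvU
          rw [Finset.not_disjoint_iff] at h
          obtain ⟨w, hw1, hw2⟩ := h
          refine ⟨w, ?_, (hmemN v w).1 hw1⟩
          rw [hS, Finset.mem_union]
          exact Or.inr hw2
        · rw [Finset.not_disjoint_iff] at hvR
          obtain ⟨w, hw1, hw2⟩ := hvR
          refine ⟨w, ?_, (hmemN v w).1 hw1⟩
          rw [hS]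
          simp [hw2]
      · rw [Finset.not_disjoint_iff] at hvP
        obtain ⟨w, hw1, hw2⟩ := hvP
        refine ⟨w, ?_, (hmemN v w).1 hw1⟩
        rw [hS]
        simp [hw2]
  have hScard : S.card ≤ R.card + P.card + T.card := by
    rw [hS]
    calc (R ∪ P ∪ T).card ≤ (R ∪ P).card + T.card := Finset.card_union_le _ _
      _ ≤ (R.card + P.card) + T.card := by
        have := Finset.card_union_le R P
        omega
  have hγ : (totalDomNumber G : ℝ) ≤ S.card := by
    have : totalDomNumber G ≤ S.card := Nat.sInf_le ⟨S, hdom, rfl⟩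
    exact_mod_cast this
  have hq0 : 0 ≤ 1 - p := by linarith
  have hq1 : 1 - p ≤ 1 := by linarith
  -- bounds for the two types of vertices
  set ℓ : V → ℕ := fun v => (N v ∩ L).card with hℓ
  have hIM : I ⊆ M ∪ P := by
    intro v hv
    rw [hI, Finset.mem_filter] at hv
    rw [Finset.mem_union, hM, Finset.mem_filter]
    by_cases h : v ∈ P
    · exact Or.inr h
    · exact Or.inl ⟨Finset.mem_univ _, hv.2.1, h⟩
  have hMP : Disjoint M P := by
    rw [Finset.disjoint_left]
    intro v hv
    rw [hM, Finset.mem_filter] at hv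
    exact hv.2.2
  set g : V → ℝ := fun v => if v ∈ I then wt v * (1 - p) ^ (N v ∩ M).card else 0 with hg
  have hsumI : ∑ v ∈ I, wt v * (1 - p) ^ (N v ∩ M).card = ∑ v ∈ M, g v + ∑ v ∈ P, g v := by
    rw [← Finset.sum_union hMP]
    have : ∑ v ∈ M ∪ P, g v = ∑ v ∈ I, g v := by
      symm
      apply Finset.sum_subset hIM
      intro v _ hv
      rw [hg]
      simp [hv]
    rw [this]
    apply Finset.sum_congr rfl
    intro v hv
    rw [hg]
    simp [hv]
  have hMbound : ∀ v ∈ M, p + κ + g v ≤ 1 - c * G.degree v := by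
    intro v hv
    have hvM := hv
    rw [hM, Finset.mem_filter] at hv
    obtain ⟨_, hvL, hvP⟩ := hv
    have hd2 : 2 ≤ G.degree v := by
      have h1 := degree_pos G hG h3 v
      have h2 : G.degree v ≠ 1 := by
        intro h
        exact hvL (by rw [hL, Finset.mem_filter]; exact ⟨Finset.mem_univ _, h⟩)
      omega
    have h4 := ha (G.degree v) hd2 (hΔ v)
    rw [hg]
    by_cases hvI : v ∈ I
    · simp only [hvI, if_true]
      have hsub : N v ∩ M = N v := by
        apply Finset.inter_eq_left.2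
        intro w hw
        rw [hI, Finset.mem_filter] at hvI
        rw [hM, Finset.mem_filter]
        refine ⟨Finset.mem_univ _, ?_, ?_⟩
        · intro hwL
          apply hvP
          rw [hP, Finset.mem_filter]
          rw [hL, Finset.mem_filter] at hwL
          exact ⟨Finset.mem_univ _, w, hwL.2, ((hmemN v w).1 hw).symm⟩
        · exact Finset.disjoint_left.1 hvI.2.2 hw
      have hsv : s v = G.degree v := by
        simp only [hs]
        rw [hsub, hNcard]
      have hwv : wt v = 1 - β * G.degree v := by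
        simp only [hwt]
        rw [hsv]
      rw [hwv, hsub, hNcard]
      linarith [mul_comm ((1 - p) ^ G.degree v) (1 - β * (G.degree v : ℝ))]
    · simp only [hvI, if_false]
      have h5 : 0 ≤ (1 - p) ^ G.degree v := pow_nonneg hq0 _
      have h6 := (hβs _ (hΔ v)).1
      have h7 := mul_nonneg h5 h6
      linarith
  have hPbound : ∀ v ∈ P, 1 + g v ≤ 1 - c * G.degree v + ℓ v * (1 - c) := by
    intro v hv
    have hvP := hv
    rw [hP, Finset.mem_filter] at hv
    obtain ⟨_, u, hu, huv⟩ := hv
    have hd2 : 2 ≤ G.degree v := support_degree G hG h3 hu huv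
    have hℓ1 : 1 ≤ ℓ v := by
      rw [hℓ]
      apply Finset.card_pos.2
      refine ⟨u, ?_⟩
      rw [Finset.mem_inter, hmemN, hL, Finset.mem_filter]
      exact ⟨huv.symm, Finset.mem_univ _, hu⟩
    have hc1 : c ≤ 1 := by
      have : (0 : ℝ) ≤ Δ := Nat.cast_nonneg _
      nlinarith
    rcases Nat.lt_or_ge 1 (ℓ v) with h2 | h2
    · have hg1 : g v ≤ 1 := by
        rw [hg]
        by_cases hvI : v ∈ I
        · simp only [hvI, if_true]
          have h8 : (1 - p) ^ (N v ∩ M).card ≤ 1 := pow_le_one₀ hq0 hq1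
          have h9 : 0 ≤ (1 - p) ^ (N v ∩ M).card := pow_nonneg hq0 _
          calc wt v * (1 - p) ^ (N v ∩ M).card ≤ 1 * 1 :=
                mul_le_mul (hwt0 v).2 h8 h9 zero_le_one
            _ = 1 := one_mul 1
        · simp [hvI]
      have h5 : (2 : ℝ) ≤ ℓ v := by exact_mod_cast h2
      have h6 : (G.degree v : ℝ) ≤ Δ := by exact_mod_cast hΔ v
      have h7 : c * G.degree v ≤ c * Δ := mul_le_mul_of_nonneg_left h6 hc0
      have h8 : 2 * (1 - c) ≤ ℓ v * (1 - c) := mul_le_mul_of_nonneg_right h5 (by linarith)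
      nlinarith
    · have hℓe : ℓ v = 1 := by omega
      rw [hℓe]
      have h4 := hb (G.degree v) hd2 (hΔ v)
      rw [hg]
      by_cases hvI : v ∈ I
      · simp only [hvI, if_true]
        have hcardM : (N v ∩ M).card = G.degree v - 1 := by
          have hsplit : N v = (N v ∩ L) ∪ (N v ∩ M) := by
            ext w
            simp only [Finset.mem_union, Finset.mem_inter]
            constructor
            · intro hw
              by_cases hwL : w ∈ L
              · exact Or.inl ⟨hw, hwL⟩
              · right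
                refine ⟨hw, ?_⟩
                rw [hI, Finset.mem_filter] at hvI
                rw [hM, Finset.mem_filter]
                exact ⟨Finset.mem_univ _, hwL, Finset.disjoint_left.1 hvI.2.2 hw⟩
            · rintro (h | h) <;> exact h.1
          have hdis : Disjoint (N v ∩ L) (N v ∩ M) := by
            rw [Finset.disjoint_left]
            intro w hw hw'
            rw [Finset.mem_inter] at hw hw'
            have := hw'.2
            rw [hM, Finset.mem_filter] at this
            exact this.2.1 hw.2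
          have := Finset.card_union_of_disjoint hdis
          rw [← hsplit, hNcard] at this
          have e : (N v ∩ L).card = 1 := hℓe
          omega
        have hwv : wt v = 1 - β * ((G.degree v : ℝ) - 1) := by
          simp only [hwt, hs]
          rw [hcardM, Nat.cast_sub (by omega)]
          norm_num
        rw [hwv, hcardM]
        push_cast
        linarith [mul_comm ((1 - p) ^ (G.degree v - 1)) (1 - β * ((G.degree v : ℝ) - 1))]
      · simp only [hvI, if_false]
        have h5 : 0 ≤ (1 - p) ^ (G.degree v - 1) := pow_nonneg hq0 _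
        have h6 : 0 ≤ 1 - β * ((G.degree v : ℝ) - 1) := by
          have := (hβs _ (hΔ v)).1
          linarith
        have h7 := mul_nonneg h5 h6
        push_cast
        linarith
  have hLsum : ∑ v ∈ L, (1 - c * G.degree v) = ∑ v ∈ P, (ℓ v : ℝ) * (1 - c) := by
    have h1 : ∀ v ∈ L, (1 - c * G.degree v : ℝ) = ∑ w ∈ P, if G.Adj v w then (1 - c) else 0 := by
      intro v hv
      rw [hL, Finset.mem_filter] at hv
      rw [hv.2]
      obtain ⟨a, ha'⟩ := Finset.card_eq_one.1 (show (N v).card = 1 from hv.2)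
      have hva : G.Adj v a := by rw [← hmemN, ha']; simp
      have haP : a ∈ P := by
        rw [hP, Finset.mem_filter]
        exact ⟨Finset.mem_univ _, v, hv.2, hva⟩
      rw [Finset.sum_eq_single a]
      · simp [hva]
      · intro b _ hb'
        have : ¬ G.Adj v b := by
          rw [← hmemN, ha', Finset.mem_singleton]
          exact hb'
        simp [this]
      · intro h
        exact absurd haP h
    rw [Finset.sum_congr rfl h1, Finset.sum_comm]
    apply Finset.sum_congr rfl
    intro w _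
    rw [← Finset.sum_filter, Finset.sum_const, nsmul_eq_mul]
    congr 2
    rw [hℓ]
    congr 1
    ext v
    rw [Finset.mem_filter, Finset.mem_inter, hmemN, G.adj_comm]
    tauto
  have hfinal : (R.card : ℝ) + P.card + T.card ≤ ∑ v, (1 - c * G.degree v) := by
    have e0 : ∑ v, (1 - c * G.degree v : ℝ)
        = (∑ v ∈ P, (ℓ v : ℝ) * (1 - c) + ∑ v ∈ P, (1 - c * G.degree v))
          + ∑ v ∈ M, (1 - c * G.degree v) := by
      rw [huniv, Finset.sum_union hLPM, Finset.sum_union hLP, hLsum]
    have e1 : ∑ v ∈ M, (p + κ + g v) ≤ ∑ v ∈ M, (1 - c * G.degree v) := Finset.sum_le_sum hMbound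
    have e2 : ∑ v ∈ P, (1 + g v) ≤ ∑ v ∈ P, (1 - c * G.degree v + ℓ v * (1 - c)) :=
      Finset.sum_le_sum hPbound
    rw [Finset.sum_add_distrib, Finset.sum_const, nsmul_eq_mul] at e1
    rw [Finset.sum_add_distrib, Finset.sum_const, nsmul_eq_mul, Finset.sum_add_distrib] at e2
    rw [hsumI] at hR
    rw [e0]
    linarith
  have : (S.card : ℝ) ≤ R.card + P.card + T.card := by exact_mod_cast hScard
  linarith

end Pool.Agent.Lib.MP_6659c6_co.Up5
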