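import Mathlib

/-! Interpolation for `d ↦ q ^ d * (1 - β d)`. -/

set_option autoImplicit false

namespace Pool.Agent.Lib.MP_6659c6_co.Up5

/-- The function `x ↦ q ^ x (1 - β x)` is convex as long as `β x ≤ 1`, so a linear upper bound at the
two ends of an interval holds in between. -/
theorem interp2 (q β A B : ℝ) (hq : 0 < q) (hq1 : q ≤ 1) (hβ : 0 ≤ β) (n0 n1 : ℕ) (h01 : n0 < n1)
    (hβ1 : β * n1 ≤ 1) (h0 : q ^ n0 * (1 - β * n0) ≤ A - B * n0)
    (h1 : q ^ n1 * (1 - β * n1) ≤ A - B * n1) (d : ℕ) (hd0 : n0 ≤ d) (hd1 : d ≤ n1) :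
    q ^ d * (1 - β * d) ≤ A - B * d := by
  have hlt : (n0 : ℝ) < n1 := by exact_mod_cast h01
  have hd0' : (n0 : ℝ) ≤ d := by exact_mod_cast hd0
  have hd1' : (d : ℝ) ≤ n1 := by exact_mod_cast hd1
  have hpos : 0 < (n1 : ℝ) - n0 := by linarith
  set a : ℝ := (n1 - d) / (n1 - n0) with ha
  set b : ℝ := (d - n0) / (n1 - n0) with hb
  have ha0 : 0 ≤ a := div_nonneg (by linarith) hpos.le
  have hb0 : 0 ≤ b := div_nonneg (by linarith) hpos.le
  have hab : a + b = 1 := by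
    rw [ha, hb, ← add_div]
    rw [div_eq_one_iff_eq (ne_of_gt hpos)]
    ring
  have hcomb : a * n0 + b * n1 = d := by
    rw [ha, hb]
    field_simp
    ring
  have hconv := (convexOn_rpow_left hq).2 (Set.mem_univ (n0 : ℝ)) (Set.mem_univ (n1 : ℝ)) ha0 hb0 hab
  simp only [smul_eq_mul] at hconv
  rw [hcomb, Real.rpow_natCast, Real.rpow_natCast, Real.rpow_natCast] at hconv
  have hu : q ^ n1 ≤ q ^ n0 := pow_le_pow_of_le_one hq.le hq1 h01.le
  have hβd : 0 ≤ 1 - β * d := by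
    have : β * d ≤ β * n1 := mul_le_mul_of_nonneg_left hd1' hβ
    linarith
  have e1 : a * (q ^ n0 * (1 - β * n0)) ≤ a * (A - B * n0) := mul_le_mul_of_nonneg_left h0 ha0
  have e2 : b * (q ^ n1 * (1 - β * n1)) ≤ b * (A - B * n1) := mul_le_mul_of_nonneg_left h1 hb0
  have e3 : a * (A - B * n0) + b * (A - B * n1) = A - B * d := by
    have : a * (A - B * n0) + b * (A - B * n1) = (a + b) * A - B * (a * n0 + b * n1) := by ring
    rw [this, hab, hcomb]
    ring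
  have e4 : q ^ d * (1 - β * d) ≤ (a * q ^ n0 + b * q ^ n1) * (1 - β * d) :=
    mul_le_mul_of_nonneg_right hconv hβd
  have e5 : 0 ≤ a * b * ((q ^ n0 - q ^ n1) * (β * ((n1 : ℝ) - n0))) :=
    mul_nonneg (mul_nonneg ha0 hb0) (mul_nonneg (sub_nonneg.2 hu) (mul_nonneg hβ hpos.le))
  have e6 : (a * q ^ n0 + b * q ^ n1) * (1 - β * d) =
      a * (q ^ n0 * (1 - β * n0)) + b * (q ^ n1 * (1 - β * n1)) -
        a * b * ((q ^ n0 - q ^ n1) * (β * ((n1 : ℝ) - n0))) := by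
    have hb' : b = 1 - a := by linarith
    rw [← hcomb, hb']
    ring
  linarith

end Pool.Agent.Lib.MP_6659c6_co.Up5
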