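import Mathlib

/-! Numerical inequalities for `s = D ^ (1 / (D - 1))`, `D ≥ 5`. -/

set_option autoImplicit false

namespace Pool.Agent.Lib.MP_6659c6_co.Up5

/-- `(1 + 3 (D - 1) / D ^ 2) ^ (D - 1) ≤ D` for `D ≥ 5`. -/
theorem numA1 (D : ℕ) (hD : 5 ≤ D) : (1 + 3 * ((D : ℝ) - 1) / (D : ℝ) ^ 2) ^ (D - 1) ≤ (D : ℝ) := by
  by_cases h : D ≤ 20
  · interval_cases D <;> norm_num
  · push Not at h
    have hD' : (21 : ℝ) ≤ D := by exact_mod_cast h
    have hD0 : (0 : ℝ) < D := by linarith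
    have hx : 0 ≤ 3 * ((D : ℝ) - 1) / (D : ℝ) ^ 2 :=
      div_nonneg (by nlinarith) (by positivity)
    have h1 : 1 + 3 * ((D : ℝ) - 1) / (D : ℝ) ^ 2 ≤
        Real.exp (3 * ((D : ℝ) - 1) / (D : ℝ) ^ 2) := by
      have := Real.add_one_le_exp (3 * ((D : ℝ) - 1) / (D : ℝ) ^ 2)
      linarith
    have h2 : (1 + 3 * ((D : ℝ) - 1) / (D : ℝ) ^ 2) ^ (D - 1) ≤
        (Real.exp (3 * ((D : ℝ) - 1) / (D : ℝ) ^ 2)) ^ (D - 1) :=
      pow_le_pow_left₀ (by linarith) h1 _
    rw [← Real.exp_nat_mul] at h2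
    have h3 : ((D - 1 : ℕ) : ℝ) * (3 * ((D : ℝ) - 1) / (D : ℝ) ^ 2) ≤ 3 := by
      rw [Nat.cast_sub (by omega : 1 ≤ D), Nat.cast_one, ← mul_div_assoc,
        div_le_iff₀ (by positivity)]
      nlinarith
    have h4 : Real.exp 3 < 21 := by
      have h5 : Real.exp 3 = Real.exp 1 ^ 3 := by
        rw [← Real.exp_nat_mul]
        norm_num
      have h6 := Real.exp_one_lt_d9
      have h7 : Real.exp 1 ^ 3 ≤ 2.7182818286 ^ 3 :=
        pow_le_pow_left₀ (Real.exp_pos 1).le h6.le 3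
      rw [h5]
      refine h7.trans_lt ?_
      norm_num
    exact (h2.trans (Real.exp_le_exp.mpr h3)).trans (by linarith)

private theorem numA2_aux (D : ℕ) (q : ℝ) (hD : 1 ≤ D) (hq : 0 < q) (hq2 : (D : ℝ) ≤ q ^ 2)
    (h : (D : ℝ) < ((1 - 1 / (D : ℝ)) * (1 + 2 / q)) ^ (D - 1)) :
    (D : ℝ) < ((1 - 1 / (D : ℝ)) * (1 + 2 / Real.sqrt D)) ^ (D - 1) := by
  have hD' : (1 : ℝ) ≤ D := by exact_mod_cast hD
  have h1 : Real.sqrt D ≤ q := Real.sqrt_le_iff.mpr ⟨hq.le, hq2⟩
  have h2 : 0 < Real.sqrt D := Real.sqrt_pos.mpr (by linarith)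
  have h3 : 2 / q ≤ 2 / Real.sqrt D := div_le_div_of_nonneg_left (by norm_num) h2 h1
  have h4 : 0 ≤ 1 - 1 / (D : ℝ) := by
    rw [sub_nonneg, div_le_one (by linarith)]
    exact hD'
  refine h.trans_le (pow_le_pow_left₀ (mul_nonneg h4 (by positivity)) ?_ _)
  exact mul_le_mul_of_nonneg_left (by linarith) h4

/-- `D < ((1 - 1 / D) (1 + 2 / √D)) ^ (D - 1)` for `D ≥ 5`. -/
theorem numA2 (D : ℕ) (hD : 5 ≤ D) :
    (D : ℝ) < ((1 - 1 / (D : ℝ)) * (1 + 2 / Real.sqrt D)) ^ (D - 1) := by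
  by_cases h : D ≤ 15
  · interval_cases D
    · exact numA2_aux 5 2.237 (by norm_num) (by norm_num) (by norm_num) (by norm_num)
    · exact numA2_aux 6 2.45 (by norm_num) (by norm_num) (by norm_num) (by norm_num)
    · exact numA2_aux 7 2.65 (by norm_num) (by norm_num) (by norm_num) (by norm_num)
    · exact numA2_aux 8 2.83 (by norm_num) (by norm_num) (by norm_num) (by norm_num)
    · exact numA2_aux 9 3 (by norm_num) (by norm_num) (by norm_num) (by norm_num)
    · exact numA2_aux 10 3.17 (by norm_num) (by norm_num) (by norm_num) (by norm_num)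
    · exact numA2_aux 11 3.32 (by norm_num) (by norm_num) (by norm_num) (by norm_num)
    · exact numA2_aux 12 3.47 (by norm_num) (by norm_num) (by norm_num) (by norm_num)
    · exact numA2_aux 13 3.61 (by norm_num) (by norm_num) (by norm_num) (by norm_num)
    · exact numA2_aux 14 3.75 (by norm_num) (by norm_num) (by norm_num) (by norm_num)
    · exact numA2_aux 15 3.88 (by norm_num) (by norm_num) (by norm_num) (by norm_num)
  · push Not at h
    have hD' : (16 : ℝ) ≤ D := by exact_mod_cast h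
    set s : ℝ := Real.sqrt D with hs
    have hs2 : s ^ 2 = D := Real.sq_sqrt (by linarith)
    have hs4 : 4 ≤ s := by
      rw [hs]
      refine Real.le_sqrt_of_sq_le ?_
      linarith
    have hs0 : 0 < s := by linarith
    have h1 : 1 + 1 / s ≤ (1 - 1 / (D : ℝ)) * (1 + 2 / s) := by
      rw [← hs2]
      have h2 : (1 - 1 / s ^ 2) * (1 + 2 / s) - (1 + 1 / s) = (s ^ 2 - s - 2) / s ^ 3 := by
        field_simp
        ring
      have h3 : 0 ≤ (s ^ 2 - s - 2) / s ^ 3 := div_nonneg (by nlinarith) (by positivity)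
      linarith
    have h4 : Real.exp (1 / (s + 1)) ≤ 1 + 1 / s := by
      have h5 := Real.add_one_le_exp (-(1 / (s + 1)))
      rw [Real.exp_neg] at h5
      have h6 : -(1 / (s + 1)) + 1 = s / (s + 1) := by
        field_simp
        ring
      rw [h6] at h5
      have h7 : 0 < s / (s + 1) := by positivity
      have h8 : Real.exp (1 / (s + 1)) ≤ (s / (s + 1))⁻¹ := by
        rw [le_inv_comm₀ (Real.exp_pos _) h7]
        exact h5
      refine h8.trans (le_of_eq ?_)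
      field_simp
    have h9 : (Real.exp (1 / (s + 1))) ^ (D - 1) ≤
        ((1 - 1 / (D : ℝ)) * (1 + 2 / s)) ^ (D - 1) :=
      pow_le_pow_left₀ (Real.exp_pos _).le (h4.trans h1) _
    refine lt_of_lt_of_le ?_ h9
    rw [← Real.exp_nat_mul]
    have h10 : ((D - 1 : ℕ) : ℝ) * (1 / (s + 1)) = 3 + (s - 4) := by
      rw [Nat.cast_sub (by omega : 1 ≤ D), Nat.cast_one, ← hs2]
      field_simp
      ring
    rw [h10, Real.exp_add]
    have h11 : 20 < Real.exp 3 := by
      have h5 : Real.exp 3 = Real.exp 1 ^ 3 := by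
        rw [← Real.exp_nat_mul]
        norm_num
      have h6 := Real.exp_one_gt_d9
      have h7 : (2.7182818283 : ℝ) ^ 3 ≤ Real.exp 1 ^ 3 :=
        pow_le_pow_left₀ (by norm_num) h6.le 3
      rw [h5]
      refine lt_of_lt_of_le ?_ h7
      norm_num
    have h12 := Real.quadratic_le_exp_of_nonneg (by linarith : 0 ≤ s - 4)
    have h13 : (0 : ℝ) < 1 + (s - 4) + (s - 4) ^ 2 / 2 := by nlinarith
    calc (D : ℝ) = s ^ 2 := hs2.symm
      _ < 20 * (1 + (s - 4) + (s - 4) ^ 2 / 2) := by nlinarith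
      _ ≤ Real.exp 3 * Real.exp (s - 4) :=
        mul_le_mul h11.le h12 h13.le (Real.exp_pos _).le

end Pool.Agent.Lib.MP_6659c6_co.Up5
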