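import Mathlib

/-! Asymptotics of the parameters in the upper bound. -/

set_option autoImplicit false

open Filter

namespace Pool.Agent.Lib.MP_6659c6_co.Up5

/-- The choice `q = (k / D) ^ (1 / (D - 1))`. -/
noncomputable def qq (k D : ℕ) : ℝ := ((k : ℝ) / D) ^ (1 / ((D : ℝ) - 1))

/-- The choice `c = (q (D - 1) - (H_k - 1)) / D ^ 2`. -/
noncomputable def cc (k D : ℕ) : ℝ :=
  (qq k D * ((D : ℝ) - 1) - (((harmonic k : ℚ) : ℝ) - 1)) / (D : ℝ) ^ 2

/-- The inequalities, with `u = log (D / k) / (D - 1)`, `L = log (D / k)` and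
`x = D - D ^ 2 c`. -/
theorem numB_core {K H L D u q c x ε : ℝ} (hK : 1 ≤ K) (hH : 1 ≤ H) (hD : 2 ≤ D) (hε : 0 < ε)
    (hu : u * (D - 1) = L) (hq1 : 1 - u ≤ q) (hq2 : q ≤ 1 - u + u ^ 2) (hq3 : q ≤ 1)
    (hx : x = D - (q * (D - 1) - (H - 1))) (hc : c = (D - x) / D ^ 2)
    (hL : 4 * (H + 1) + K + 6 ≤ L) (h1 : L ^ 2 ≤ D - 1) (h2 : 100 * (L + H) ≤ D)
    (h3 : 2 * (L + H) ^ 2 ≤ ε * D) :
    0 < c ∧ (D + 2) * c ≤ 1 ∧
    (1 - q) + (H - 1) / D + q ^ 2 * (1 - (1 - 1 / K) / D * 2) ≤ 1 - c * 2 ∧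
    q * (1 - (1 - 1 / K) / D) ≤ 1 - 3 * c ∧
    K / D * (1 - (1 - 1 / K) / D * (D - 1)) ≤ 1 - c * (D + 1) ∧
    1 / c - D ≤ L + H + ε := by
  have hD0 : 0 < D := by linarith
  have hK0 : 0 < K := by linarith
  have hL0 : 0 < L := by linarith
  have hD1 : 0 < D - 1 := by linarith
  have hu0 : 0 < u := by
    by_contra h
    push Not at h
    nlinarith
  have huL : u * L ≤ 1 := by
    have h4 : u * L * (D - 1) = L ^ 2 := by
      calc u * L * (D - 1) = (u * (D - 1)) * L := by ring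
        _ = L ^ 2 := by rw [hu]; ring
    by_contra h
    push Not at h
    nlinarith
  have hu2 : u ≤ 1 / 10 := by
    by_contra h
    push Not at h
    nlinarith
  have hDu : L / D ≤ u := by
    rw [div_le_iff₀ hD0]
    nlinarith
  have hxu : x ≤ L + H := by
    rw [hx]
    nlinarith
  have hxl : L + H - 1 ≤ x := by
    have h4 : u ^ 2 * (D - 1) = u * L := by
      calc u ^ 2 * (D - 1) = u * (u * (D - 1)) := by ring
        _ = u * L := by rw [hu]
    rw [hx]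
    nlinarith
  have hx2 : K + 2 ≤ x := by linarith
  have hxD : x < D := by linarith
  have hc0 : 0 < c := by
    rw [hc]
    exact div_pos (by linarith) (by positivity)
  have hcD : c ≤ 1 / D := by
    rw [hc, div_le_div_iff₀ (by positivity) hD0]
    nlinarith
  have hcD2 : c * D ^ 2 = D - x := by
    rw [hc]
    field_simp
  have hk1 : 0 ≤ 1 - 1 / K := by
    rw [sub_nonneg, div_le_one hK0]
    exact hK
  have hk2 : 1 - 1 / K ≤ 1 := by
    have : 0 < 1 / K := by positivity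
    linarith
  have hLD : 4 * (H + 1) / D ≤ L / D := by
    rw [div_le_div_iff_of_pos_right hD0]
    linarith
  refine ⟨hc0, ?_, ?_, ?_, ?_, ?_⟩
  · rw [hc, mul_div_assoc', div_le_one (by positivity)]
    nlinarith
  · have h4 : (H + 1) / D ≤ q * (1 - q) := by
      have h5 : u / 4 ≤ q * (1 - q) := by
        have h6 : u - u ^ 2 ≤ 1 - q := by linarith
        have h7 : 0 ≤ 1 - q := by linarith
        have h8 : (1 - u) * (u - u ^ 2) ≤ q * (1 - q) := by
          refine mul_le_mul hq1 h6 ?_ (by linarith)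
          nlinarith
        nlinarith
      have h6 : 4 * ((H + 1) / D) ≤ u := by
        calc 4 * ((H + 1) / D) = 4 * (H + 1) / D := by ring
          _ ≤ L / D := hLD
          _ ≤ u := hDu
      linarith
    have h5 : 0 ≤ q ^ 2 * ((1 - 1 / K) / D) :=
      mul_nonneg (sq_nonneg _) (div_nonneg hk1 hD0.le)
    have h6 : (H + 1) / D = (H - 1) / D + 2 * (1 / D) := by
      field_simp
      ring
    nlinarith
  · have h4 : q * (1 - (1 - 1 / K) / D) ≤ q := by
      have h5 : 0 ≤ (1 - 1 / K) / D := div_nonneg hk1 hD0.le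
      have h6 : 0 ≤ q := by linarith
      nlinarith
    have h5 : 6 / D ≤ u := by
      refine le_trans ?_ hDu
      rw [div_le_div_iff_of_pos_right hD0]
      linarith
    have h6 : 3 * c ≤ u / 2 := by
      have h7 : 6 / D = 6 * (1 / D) := by ring
      linarith
    nlinarith
  · have h4 : K / D * (1 - (1 - 1 / K) / D * (D - 1)) = (D + (K - 1)) / D ^ 2 := by
      field_simp
      ring
    have h5 : 1 - c * (D + 1) = (x * D - D + x) / D ^ 2 := by
      rw [hc]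
      field_simp
      ring
    rw [h4, h5, div_le_div_iff_of_pos_right (by positivity)]
    nlinarith
  · have h4 : 1 / c = D ^ 2 / (D - x) := by
      rw [hc, one_div_div]
    have hDx : 0 < D - x := by linarith
    rw [h4, sub_le_iff_le_add, div_le_iff₀ hDx]
    have h5 : x ≤ L + H := hxu
    have h6 : (L + H) ≤ D / 2 := by linarith
    have h7 : 0 ≤ x := by linarith
    have h8 : (L + H) ^ 2 ≤ ε * (D - (L + H)) := by nlinarith
    have h9 : (L + H + ε + D) * (D - (L + H)) ≤ (L + H + ε + D) * (D - x) := by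
      refine mul_le_mul_of_nonneg_left (by linarith) ?_
      linarith
    refine le_trans ?_ h9
    nlinarith

theorem numB (k : ℕ) (hk : 1 ≤ k) (ε : ℝ) (hε : 0 < ε) : ∀ᶠ D : ℕ in atTop,
    0 < qq k D ∧ qq k D ≤ 1 ∧ 0 < cc k D ∧ ((D : ℝ) + 2) * cc k D ≤ 1 ∧
    (1 - qq k D) + (((harmonic k : ℚ) : ℝ) - 1) / D
      + qq k D ^ 2 * (1 - (1 - 1 / (k : ℝ)) / D * 2) ≤ 1 - cc k D * 2 ∧
    qq k D * (1 - (1 - 1 / (k : ℝ)) / D) ≤ 1 - 3 * cc k D ∧
    qq k D ^ (D - 1) * (1 - (1 - 1 / (k : ℝ)) / D * ((D : ℝ) - 1)) ≤ 1 - cc k D * ((D : ℝ) + 1) ∧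
    1 / cc k D - D ≤ Real.log D - Real.log k + ((harmonic k : ℚ) : ℝ) + ε := by
  obtain ⟨H, hHd⟩ : ∃ H : ℝ, H = ((harmonic k : ℚ) : ℝ) := ⟨_, rfl⟩
  obtain ⟨K, hKd⟩ : ∃ K : ℝ, K = (k : ℝ) := ⟨_, rfl⟩
  have hK1 : 1 ≤ K := by
    rw [hKd]
    exact_mod_cast hk
  have hK0 : 0 < K := by linarith
  have hH1 : 1 ≤ H := by
    have h1 : (1 : ℚ) ≤ harmonic k := by
      unfold harmonic
      calc (1 : ℚ) = ((0 + 1 : ℕ) : ℚ)⁻¹ := by norm_num
        _ ≤ ∑ i ∈ Finset.range k, ((i + 1 : ℕ) : ℚ)⁻¹ :=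
          Finset.single_le_sum (f := fun i : ℕ => ((i + 1 : ℕ) : ℚ)⁻¹)
            (fun i _ => by positivity) (Finset.mem_range.2 (by omega))
    rw [hHd]
    exact_mod_cast h1
  have hlK : 0 ≤ Real.log K := Real.log_nonneg hK1
  obtain ⟨δ, hδ, hδ1, hδ2⟩ : ∃ δ : ℝ, 0 < δ ∧ δ ≤ 1 / 400 ∧ δ ≤ ε / 8 := by
    refine ⟨min (1 / 400) (ε / 8), lt_min (by norm_num) (by positivity), min_le_left _ _,
      min_le_right _ _⟩
  have hlog : Tendsto (fun D : ℕ => Real.log (D : ℝ)) atTop atTop :=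
    Real.tendsto_log_atTop.comp tendsto_natCast_atTop_atTop
  have e1 : ∀ᶠ D : ℕ in atTop, 4 * (H + 1) + K + 6 + Real.log K ≤ Real.log (D : ℝ) :=
    hlog.eventually_ge_atTop _
  have e2 : ∀ᶠ D : ℕ in atTop, Real.log (D : ℝ) ^ 2 ≤ δ * D := by
    have h1 := (Real.isLittleO_pow_log_id_atTop (n := 2)).def hδ
    have h2 := tendsto_natCast_atTop_atTop (R := ℝ) |>.eventually h1
    filter_upwards [h2] with D hD
    rw [Real.norm_of_nonneg (by positivity), id, Real.norm_of_nonneg (by positivity)] at hD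
    exact hD
  have e3 : ∀ᶠ D : ℕ in atTop, k + 2 ≤ D := eventually_ge_atTop _
  filter_upwards [e1, e2, e3] with D h1 h2 h3
  obtain ⟨L, hLd⟩ : ∃ L : ℝ, L = Real.log (D : ℝ) - Real.log K := ⟨_, rfl⟩
  have hDk : K + 2 ≤ (D : ℝ) := by
    rw [hKd]
    exact_mod_cast h3
  have hD2 : (2 : ℝ) ≤ D := by linarith
  have hD0 : (0 : ℝ) < D := by linarith
  have hD1 : (0 : ℝ) < (D : ℝ) - 1 := by linarith
  have hb0 : 0 < K / (D : ℝ) := div_pos hK0 hD0
  have hb1 : K / (D : ℝ) ≤ 1 := by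
    rw [div_le_one hD0]
    linarith
  obtain ⟨u, hud⟩ : ∃ u : ℝ, u = L / ((D : ℝ) - 1) := ⟨_, rfl⟩
  have hqe : qq k D = Real.exp (-u) := by
    unfold qq
    rw [← hKd, Real.rpow_def_of_pos hb0, Real.log_div hK0.ne' hD0.ne', hud, hLd]
    congr 1
    ring
  have hL10 : 10 ≤ L := by linarith
  have hLlog : L ≤ Real.log (D : ℝ) := by linarith
  have hLH : L + H ≤ 2 * Real.log (D : ℝ) := by linarith
  have hlg1 : 1 ≤ Real.log (D : ℝ) := by linarith
  have hlgs : Real.log (D : ℝ) ≤ Real.log (D : ℝ) ^ 2 := by nlinarith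
  have hlgD : Real.log (D : ℝ) ≤ D / 400 := by nlinarith
  have hLs : L ^ 2 ≤ (D : ℝ) - 1 := by
    have h4 : L ^ 2 ≤ Real.log (D : ℝ) ^ 2 := by nlinarith
    nlinarith
  have huu : u * ((D : ℝ) - 1) = L := by
    rw [hud]
    field_simp
  have hu0 : 0 ≤ u := by
    rw [hud]
    exact div_nonneg (by linarith) hD1.le
  have hu1 : u ≤ 1 := by
    rw [hud, div_le_one hD1]
    nlinarith
  have hab : |Real.exp (-u) - 1 - (-u)| ≤ (-u) ^ 2 :=
    Real.abs_exp_sub_one_sub_id_le (by rw [abs_neg, abs_of_nonneg hu0]; exact hu1)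
  have hq1 : 1 - u ≤ qq k D := by
    rw [hqe]
    have := Real.add_one_le_exp (-u)
    linarith
  have hq2 : qq k D ≤ 1 - u + u ^ 2 := by
    rw [hqe]
    have := (abs_le.1 hab).2
    nlinarith
  have hq3 : qq k D ≤ 1 := by
    rw [hqe]
    exact Real.exp_le_one_iff.2 (by linarith)
  have hq0 : 0 < qq k D := by
    rw [hqe]
    exact Real.exp_pos _
  have hpow : qq k D ^ (D - 1) = K / D := by
    rw [hqe, ← Real.exp_nat_mul, Nat.cast_sub (by omega), Nat.cast_one]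
    have h4 : ((D : ℝ) - 1) * -u = Real.log (K / D) := by
      rw [Real.log_div hK0.ne' hD0.ne']
      have h5 : ((D : ℝ) - 1) * -u = -(u * ((D : ℝ) - 1)) := by ring
      rw [h5, huu, hLd]
      ring
    rw [h4, Real.exp_log hb0]
  have hcc : cc k D = ((D : ℝ) - ((D : ℝ) - (qq k D * ((D : ℝ) - 1) - (H - 1)))) / (D : ℝ) ^ 2 := by
    unfold cc
    rw [← hHd]
    congr 1
    ring
  obtain ⟨g1, g2, g3, g4, g5, g6⟩ := numB_core (K := K) (H := H) (L := L) (D := (D : ℝ)) (u := u)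
    (q := qq k D) (c := cc k D) (ε := ε) hK1 hH1 hD2 hε huu hq1 hq2 hq3 rfl hcc (by linarith)
    hLs (by linarith) (by nlinarith)
  rw [← hHd, ← hKd]
  refine ⟨hq0, hq3, g1, g2, g3, g4, ?_, ?_⟩
  · rw [hpow]
    exact g5
  · rw [← hLd]
    exact g6

end Pool.Agent.Lib.MP_6659c6_co.Up5
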