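import Pool.Agent.Lib.MP_6659c6_co.UpDom
import Pool.Agent.Lib.MP_6659c6_co.UpInterp
import Pool.Agent.Lib.MP_6659c6_co.UpNumA
import Pool.Agent.Lib.MP_6659c6_co.UpNumB

/-! Upper bounds for the admissible constants. -/

set_option autoImplicit false

namespace Pool.Agent.Lib.MP_6659c6_co.Up5

open Finset Real

/-- Admissibility from the parameters `k`, `q = 1 - p`, `c`. -/
theorem admissible_of_params (Δ : ℕ) (h3 : 3 ≤ Δ) (k : ℕ) (hk : 1 ≤ k) (q c : ℝ)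
    (hq0 : 0 < q) (hq1 : q ≤ 1) (hc : 0 < c) (hcΔ : ((Δ : ℝ) + 2) * c ≤ 1)
    (h2 : (1 - q) + (hh k - 1) / Δ + q ^ 2 * (1 - (1 - 1 / (k : ℝ)) / Δ * 2) ≤ 1 - c * 2)
    (hΔ : (1 - q) + (hh k - 1) / Δ + q ^ Δ * (1 / (k : ℝ)) ≤ 1 - c * Δ)
    (hb2 : q * (1 - (1 - 1 / (k : ℝ)) / Δ) ≤ 1 - 3 * c)
    (hbΔ : q ^ (Δ - 1) * (1 - (1 - 1 / (k : ℝ)) / Δ * ((Δ : ℝ) - 1)) ≤ 1 - c * ((Δ : ℝ) + 1)) :
    Admissible Δ (1 / c - Δ) := by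
  intro V _ G hG hcard hdeg
  classical
  have hx3 : (3 : ℝ) ≤ Δ := by exact_mod_cast h3
  have hx0 : (0 : ℝ) < Δ := by linarith
  have hk0 : (1 : ℝ) ≤ k := by exact_mod_cast hk
  set β : ℝ := (1 - 1 / (k : ℝ)) / Δ with hβ
  have hkinv : 0 ≤ 1 - 1 / (k : ℝ) ∧ 1 - 1 / (k : ℝ) ≤ 1 := by
    constructor
    · rw [sub_nonneg, div_le_one (by linarith)]
      exact hk0
    · have : (0 : ℝ) ≤ 1 / (k : ℝ) := by positivity
      linarith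
  have hβ0 : 0 ≤ β := div_nonneg hkinv.1 hx0.le
  have hβe : β * Δ = 1 - 1 / (k : ℝ) := by rw [hβ, div_mul_cancel₀ _ hx0.ne']
  have hβΔ : β * Δ ≤ 1 := by rw [hβe]; exact hkinv.2
  have ha : ∀ d : ℕ, 2 ≤ d → d ≤ Δ → (1 - q) + (hh k - 1) / Δ
      + (1 - (1 - q)) ^ d * (1 - β * d) ≤ 1 - c * d := by
    intro d hd2 hdΔ
    have h4 := interp2 q β (q - (hh k - 1) / Δ) c hq0 hq1 hβ0 2 Δ (by omega) hβΔ
      (by push_cast; linarith)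
      (by
        have : 1 - β * (Δ : ℝ) = 1 / (k : ℝ) := by rw [hβe]; ring
        rw [this]
        linarith) d hd2 hdΔ
    rw [sub_sub_cancel]
    linarith
  have hb : ∀ d : ℕ, 2 ≤ d → d ≤ Δ → (1 - (1 - q)) ^ (d - 1) * (1 - β * ((d : ℝ) - 1))
      ≤ 1 - c * (d + 1) := by
    intro d hd2 hdΔ
    have hcast : ((Δ - 1 : ℕ) : ℝ) = (Δ : ℝ) - 1 := by
      rw [Nat.cast_sub (by omega)]
      norm_num
    have hcastd : ((d - 1 : ℕ) : ℝ) = (d : ℝ) - 1 := by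
      rw [Nat.cast_sub (by omega)]
      norm_num
    have h4 := interp2 q β (1 - 2 * c) c hq0 hq1 hβ0 1 (Δ - 1) (by omega)
      (by rw [hcast]; nlinarith)
      (by push_cast; rw [pow_one, mul_one]; linarith)
      (by rw [hcast]; linarith) (d - 1) (by omega) (by omega)
    rw [hcastd] at h4
    rw [sub_sub_cancel]
    linarith
  have hdeg' : ∀ v, G.degree v ≤ Δ := by
    intro v
    have := hdeg v
    rwa [Set.ncard_eq_toFinset_card', Set.toFinset_card, SimpleGraph.card_neighborSet_eq_degree]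
      at this
  have hmain := totalDom_upper2 G hG hcard Δ (by omega) hdeg' k hk (1 - q) c (by linarith)
    (by linarith) hc.le hcΔ ha hb
  have hsum : ∑ v, (1 - c * (G.degree v : ℝ)) = Fintype.card V - c * (2 * G.edgeFinset.card) := by
    rw [Finset.sum_sub_distrib, ← Finset.mul_sum]
    have := G.sum_degrees_eq_twice_card_edges
    have h5 : (∑ v, (G.degree v : ℝ)) = 2 * G.edgeFinset.card := by exact_mod_cast this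
    rw [h5]
    simp
  rw [hsum] at hmain
  have hm : (G.edgeSet.ncard : ℝ) = G.edgeFinset.card := by
    rw [Set.ncard_eq_toFinset_card']
    rfl
  rw [hm]
  have hr : (Δ : ℝ) + (1 / c - Δ) = 1 / c := by ring
  rw [hr]
  have : c * (2 * (G.edgeFinset.card : ℝ)) ≤ Fintype.card V - totalDomNumber G := by linarith
  have h9 : (G.edgeFinset.card : ℝ) = 1 / 2 * (1 / c) * (c * (2 * (G.edgeFinset.card : ℝ))) := by
    field_simp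
  rw [h9]
  exact mul_le_mul_of_nonneg_left this (by positivity)

/-- The explicit upper bound. -/
noncomputable def UU (Δ : ℕ) : ℝ :=
  (Δ : ℝ) ^ 2 * (Δ : ℝ) ^ (1 / ((Δ : ℝ) - 1)) / ((Δ : ℝ) - 1) - Δ

theorem s_facts (Δ : ℕ) (h5 : 5 ≤ Δ) (s : ℝ) (hs : s = (Δ : ℝ) ^ (1 / ((Δ : ℝ) - 1))) :
    0 < s ∧ s ^ (Δ - 1) = Δ ∧ 1 + 3 * ((Δ : ℝ) - 1) / (Δ : ℝ) ^ 2 ≤ s := by
  have hx5 : (5 : ℝ) ≤ Δ := by exact_mod_cast h5
  have hx0 : (0 : ℝ) < Δ := by linarith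
  have hs0 : 0 < s := by rw [hs]; exact Real.rpow_pos_of_pos hx0 _
  have hcast : ((Δ - 1 : ℕ) : ℝ) = (Δ : ℝ) - 1 := by
    rw [Nat.cast_sub (by omega)]
    norm_num
  have hspow : s ^ (Δ - 1) = Δ := by
    rw [hs, ← Real.rpow_natCast, ← Real.rpow_mul hx0.le, hcast, one_div,
      inv_mul_cancel₀ (by linarith), Real.rpow_one]
  refine ⟨hs0, hspow, ?_⟩
  have h := (numA1 Δ h5).trans hspow.ge
  have h0 : 0 ≤ 1 + 3 * ((Δ : ℝ) - 1) / (Δ : ℝ) ^ 2 := by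
    have : 0 ≤ 3 * ((Δ : ℝ) - 1) / (Δ : ℝ) ^ 2 := div_nonneg (by linarith) (by positivity)
    linarith
  exact (pow_le_pow_iff_left₀ h0 hs0.le (by omega)).1 h

/-- For `Δ ≥ 5` the constant `Δ ^ 2 Δ ^ (1 / (Δ - 1)) / (Δ - 1) - Δ` is admissible. -/
theorem admissible_UU (Δ : ℕ) (h5 : 5 ≤ Δ) : Admissible Δ (UU Δ) := by
  have hx5 : (5 : ℝ) ≤ Δ := by exact_mod_cast h5
  have hx0 : (0 : ℝ) < Δ := by linarith
  have hx1 : (0 : ℝ) < Δ - 1 := by linarith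
  obtain ⟨s, hs⟩ : ∃ s : ℝ, s = (Δ : ℝ) ^ (1 / ((Δ : ℝ) - 1)) := ⟨_, rfl⟩
  obtain ⟨hs0, hspow, hs1⟩ := s_facts Δ h5 s hs
  obtain ⟨q, hq⟩ : ∃ q : ℝ, q = 1 / s := ⟨_, rfl⟩
  have hq0 : 0 < q := by rw [hq]; positivity
  have hqs : q * s = 1 := by rw [hq]; field_simp
  have hΔ2 : (0 : ℝ) < (Δ : ℝ) ^ 2 := by positivity
  have hq2 : q * ((Δ : ℝ) ^ 2 + 3 * ((Δ : ℝ) - 1)) ≤ (Δ : ℝ) ^ 2 := by
    have h1 : q * (1 + 3 * ((Δ : ℝ) - 1) / (Δ : ℝ) ^ 2) ≤ 1 :=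
      (mul_le_mul_of_nonneg_left hs1 hq0.le).trans hqs.le
    have h2 : q * (1 + 3 * ((Δ : ℝ) - 1) / (Δ : ℝ) ^ 2) * (Δ : ℝ) ^ 2 ≤ 1 * (Δ : ℝ) ^ 2 :=
      mul_le_mul_of_nonneg_right h1 hΔ2.le
    have h3 : q * (1 + 3 * ((Δ : ℝ) - 1) / (Δ : ℝ) ^ 2) * (Δ : ℝ) ^ 2
        = q * ((Δ : ℝ) ^ 2 + 3 * ((Δ : ℝ) - 1)) := by
      field_simp
    linarith
  have hqpow : q ^ (Δ - 1) = 1 / Δ := by
    rw [hq, div_pow, one_pow, hspow]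
  have hqpow' : q ^ Δ = q / Δ := by
    have : q ^ Δ = q ^ (Δ - 1) * q := by
      rw [← pow_succ]
      congr 1
      omega
    rw [this, hqpow]
    ring
  have hq1 : q ≤ 1 := by nlinarith
  set c : ℝ := q * ((Δ : ℝ) - 1) / (Δ : ℝ) ^ 2 with hc
  have hc0 : 0 < c := by positivity
  have hcm : c * (Δ : ℝ) ^ 2 = q * ((Δ : ℝ) - 1) := by rw [hc]; field_simp
  have e : UU Δ = 1 / c - Δ := by
    unfold UU
    rw [← hs, hc, hq]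
    field_simp
  rw [e]
  have hh1 : hh 1 - 1 = 0 := by rw [hh_one]; ring
  have hz : (1 - 1 / ((1 : ℕ) : ℝ)) / (Δ : ℝ) = 0 := by simp
  -- `q (Δ + 1) ≤ Δ`
  have hq3 : q * ((Δ : ℝ) + 1) ≤ Δ := by
    have h1 : q * (((Δ : ℝ) ^ 2 + Δ)) ≤ q * ((Δ : ℝ) ^ 2 + 3 * ((Δ : ℝ) - 1)) :=
      mul_le_mul_of_nonneg_left (by linarith) hq0.le
    have h2 : q * ((Δ : ℝ) + 1) * Δ ≤ Δ * Δ := by nlinarith
    exact le_of_mul_le_mul_right h2 hx0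
  refine admissible_of_params Δ (by omega) 1 le_rfl q c hq0 hq1 hc0 ?_ ?_ ?_ ?_ ?_
  · have h1 : (((Δ : ℝ) + 2) * c) * (Δ : ℝ) ^ 2 ≤ 1 * (Δ : ℝ) ^ 2 := by
      rw [mul_assoc, hcm, one_mul]
      nlinarith
    exact le_of_mul_le_mul_right h1 hΔ2
  · rw [hh1, hz]
    have h1 : (2 * c) * (Δ : ℝ) ^ 2 ≤ (q * (1 - q)) * (Δ : ℝ) ^ 2 := by
      rw [mul_assoc, hcm]
      -- `2 (Δ - 1) ≤ (1 - q) Δ ^ 2`
      have h2 : 2 * ((Δ : ℝ) - 1) ≤ (1 - q) * (Δ : ℝ) ^ 2 := by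
        have h3 : 0 < (Δ : ℝ) ^ 2 + 3 * ((Δ : ℝ) - 1) := by positivity
        have h4 : (2 * ((Δ : ℝ) - 1)) * ((Δ : ℝ) ^ 2 + 3 * ((Δ : ℝ) - 1))
            ≤ ((1 - q) * (Δ : ℝ) ^ 2) * ((Δ : ℝ) ^ 2 + 3 * ((Δ : ℝ) - 1)) := by
          have h5 : ((1 - q) * (Δ : ℝ) ^ 2) * ((Δ : ℝ) ^ 2 + 3 * ((Δ : ℝ) - 1))
              = (Δ : ℝ) ^ 2 * ((Δ : ℝ) ^ 2 + 3 * ((Δ : ℝ) - 1))
                - (Δ : ℝ) ^ 2 * (q * ((Δ : ℝ) ^ 2 + 3 * ((Δ : ℝ) - 1))) := by ring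
          have h6 : (Δ : ℝ) ^ 2 * (q * ((Δ : ℝ) ^ 2 + 3 * ((Δ : ℝ) - 1)))
              ≤ (Δ : ℝ) ^ 2 * (Δ : ℝ) ^ 2 := mul_le_mul_of_nonneg_left hq2 hΔ2.le
          rw [h5]
          have h7 : (2 * ((Δ : ℝ) - 1)) * ((Δ : ℝ) ^ 2 + 3 * ((Δ : ℝ) - 1))
              ≤ (Δ : ℝ) ^ 2 * (3 * ((Δ : ℝ) - 1)) := by
            have h8 : 2 * ((Δ : ℝ) ^ 2 + 3 * ((Δ : ℝ) - 1)) ≤ 3 * (Δ : ℝ) ^ 2 := by nlinarith
            nlinarith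
          nlinarith
        exact le_of_mul_le_mul_right h4 h3
      nlinarith
    have h2 : 2 * c ≤ q * (1 - q) := le_of_mul_le_mul_right h1 hΔ2
    nlinarith
  · rw [hh1, hqpow']
    have h1 : c * Δ = q - q / Δ := by
      rw [hc]
      field_simp
    rw [h1]
    push_cast
    apply le_of_eq
    ring
  · rw [hz]
    have h1 : (q + 3 * c) * (Δ : ℝ) ^ 2 ≤ 1 * (Δ : ℝ) ^ 2 := by
      rw [add_mul, mul_assoc, hcm, one_mul]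
      linarith
    have h2 := le_of_mul_le_mul_right h1 hΔ2
    linarith
  · rw [hz, hqpow]
    have h1 : (1 / (Δ : ℝ) + c * ((Δ : ℝ) + 1)) * (Δ : ℝ) ^ 2 ≤ 1 * (Δ : ℝ) ^ 2 := by
      have h2 : (1 / (Δ : ℝ) + c * ((Δ : ℝ) + 1)) * (Δ : ℝ) ^ 2
          = Δ + (c * (Δ : ℝ) ^ 2) * ((Δ : ℝ) + 1) := by
        field_simp
      rw [h2, hcm]
      nlinarith
    have h2 := le_of_mul_le_mul_right h1 hΔ2
    linarith

/-- The explicit upper bound is below `2 √Δ`. -/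
theorem UU_lt (Δ : ℕ) (h5 : 5 ≤ Δ) : UU Δ < 2 * Real.sqrt Δ := by
  have hx5 : (5 : ℝ) ≤ Δ := by exact_mod_cast h5
  have hx0 : (0 : ℝ) < Δ := by linarith
  have hx1 : (0 : ℝ) < Δ - 1 := by linarith
  obtain ⟨s, hs⟩ : ∃ s : ℝ, s = (Δ : ℝ) ^ (1 / ((Δ : ℝ) - 1)) := ⟨_, rfl⟩
  obtain ⟨hs0, hspow, _⟩ := s_facts Δ h5 s hs
  have hsq : 0 < Real.sqrt Δ := Real.sqrt_pos.2 hx0
  have h0 : 0 < (1 - 1 / (Δ : ℝ)) * (1 + 2 / Real.sqrt Δ) := by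
    have h1 : 0 < 1 - 1 / (Δ : ℝ) := by
      rw [sub_pos, div_lt_one hx0]
      linarith
    positivity
  have h := numA2 Δ h5
  have h1 : s ^ (Δ - 1) < ((1 - 1 / (Δ : ℝ)) * (1 + 2 / Real.sqrt Δ)) ^ (Δ - 1) := by
    rw [hspow]; exact h
  have h2 : s < (1 - 1 / (Δ : ℝ)) * (1 + 2 / Real.sqrt Δ) :=
    lt_of_pow_lt_pow_left₀ (Δ - 1) h0.le h1
  unfold UU
  rw [← hs]
  have h3 : (Δ : ℝ) ^ 2 * s / ((Δ : ℝ) - 1)
      < (Δ : ℝ) ^ 2 * ((1 - 1 / (Δ : ℝ)) * (1 + 2 / Real.sqrt Δ)) / ((Δ : ℝ) - 1) := by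
    apply div_lt_div_of_pos_right _ hx1
    exact mul_lt_mul_of_pos_left h2 (by positivity)
  have h4 : (Δ : ℝ) ^ 2 * ((1 - 1 / (Δ : ℝ)) * (1 + 2 / Real.sqrt Δ)) / ((Δ : ℝ) - 1)
      = Δ + 2 * Real.sqrt Δ := by
    have h6 : Real.sqrt Δ * Real.sqrt Δ = Δ := Real.mul_self_sqrt hx0.le
    have h7 : (Δ : ℝ) / Real.sqrt Δ = Real.sqrt Δ := by
      rw [div_eq_iff hsq.ne']
      exact h6.symm
    have h5 : (Δ : ℝ) ^ 2 * ((1 - 1 / (Δ : ℝ)) * (1 + 2 / Real.sqrt Δ)) / ((Δ : ℝ) - 1)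
        = Δ + 2 * (Δ / Real.sqrt Δ) := by
      field_simp
    rw [h5, h7]
  linarith

open Filter in
/-- For every `k` and `ε` the constant `log Δ - log k + H_k + ε` is admissible for large `Δ`. -/
theorem admissible_eventually (k : ℕ) (hk : 1 ≤ k) (ε : ℝ) (hε : 0 < ε) :
    ∀ᶠ Δ : ℕ in atTop, ∃ x : ℝ, Admissible Δ x ∧
      x ≤ Real.log Δ - Real.log k + ((harmonic k : ℚ) : ℝ) + ε := by
  filter_upwards [numB k hk ε hε, eventually_ge_atTop 3] with Δ h h3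
  obtain ⟨hq0, hq1, hc0, hcΔ, h2, hb2, hbΔ, hx⟩ := h
  refine ⟨_, ?_, hx⟩
  have hx3 : (3 : ℝ) ≤ Δ := by exact_mod_cast h3
  have hx0 : (0 : ℝ) < Δ := by linarith
  have hk0 : (0 : ℝ) < k := by exact_mod_cast hk
  have hcast : ((Δ - 1 : ℕ) : ℝ) = (Δ : ℝ) - 1 := by
    rw [Nat.cast_sub (by omega)]
    norm_num
  have hqpow : qq k Δ ^ (Δ - 1) = k / Δ := by
    unfold qq
    rw [← Real.rpow_natCast, ← Real.rpow_mul (by positivity), hcast, one_div,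
      inv_mul_cancel₀ (by linarith), Real.rpow_one]
  have hqpow' : qq k Δ ^ Δ = qq k Δ * (k / Δ) := by
    have : qq k Δ ^ Δ = qq k Δ ^ (Δ - 1) * qq k Δ := by
      rw [← pow_succ]
      congr 1
      omega
    rw [this, hqpow]
    ring
  refine admissible_of_params Δ h3 k hk (qq k Δ) (cc k Δ) hq0 hq1 hc0 hcΔ h2 ?_ hb2 hbΔ
  rw [hqpow']
  unfold hh cc
  apply le_of_eq
  field_simp
  ring

end Pool.Agent.Lib.MP_6659c6_co.Up5
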