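import Pool.Agent.Lib.MP_6659c6_co.Defs

section

/-!
Counting colourings: sets that are hard to cover by translates.
-/

namespace Pool.Agent.Lib.MP_6659c6_co

open Finset

section Cnt

/-- The number of elements satisfying a predicate. -/
noncomputable def cnt {γ : Type*} [Fintype γ] (Q : γ → Prop) : ℕ :=
  (@Finset.filter γ Q (fun a => Classical.propDecidable (Q a)) univ).card

lemma cnt_eq_card {γ : Type*} [Fintype γ] (Q : γ → Prop) [DecidablePred Q] :
    cnt Q = (univ.filter Q).card := by
  unfold cnt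
  congr!

lemma cnt_congr {γ : Type*} [Fintype γ] {Q R : γ → Prop} (h : ∀ a, Q a ↔ R a) : cnt Q = cnt R := by
  have : Q = R := funext fun a => propext (h a)
  rw [this]

lemma cnt_mono {γ : Type*} [Fintype γ] {Q R : γ → Prop} (h : ∀ a, Q a → R a) : cnt Q ≤ cnt R := by
  classical
  rw [cnt_eq_card, cnt_eq_card]
  exact Finset.card_le_card (Finset.monotone_filter_right _ fun a _ => h a)

lemma cnt_and_add_and_not {γ : Type*} [Fintype γ] (Q R : γ → Prop) :
    cnt (fun a => Q a ∧ R a) + cnt (fun a => Q a ∧ ¬ R a) = cnt Q := by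
  classical
  rw [cnt_eq_card, cnt_eq_card, cnt_eq_card, ← Finset.filter_filter, ← Finset.filter_filter]
  exact Finset.card_filter_add_card_filter_not _

end Cnt

section Counting

variable {α : Type*} [Fintype α] [DecidableEq α] {k : ℕ}

lemma cnt_fiber_eq (Q : (α → Fin k) → Prop) (b : α)
    (hQ : ∀ c v, Q (Function.update c b v) ↔ Q c) (v w : Fin k) :
    cnt (fun c : α → Fin k => Q c ∧ c b = v) = cnt (fun c : α → Fin k => Q c ∧ c b = w) := by
  classical
  rw [cnt_eq_card, cnt_eq_card]
  refine Finset.card_bij' (fun c _ => Function.update c b w)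
    (fun c _ => Function.update c b v) ?_ ?_ ?_ ?_
  · intro c hc
    rw [Finset.mem_filter] at hc ⊢
    exact ⟨Finset.mem_univ _, (hQ c w).2 hc.2.1, by simp⟩
  · intro c hc
    rw [Finset.mem_filter] at hc ⊢
    exact ⟨Finset.mem_univ _, (hQ c v).2 hc.2.1, by simp⟩
  · intro c hc
    rw [Finset.mem_filter] at hc
    rw [Function.update_idem, ← hc.2.2, Function.update_eq_self]
  · intro c hc
    rw [Finset.mem_filter] at hc
    rw [Function.update_idem, ← hc.2.2, Function.update_eq_self]

lemma indep_coord (Q : (α → Fin k) → Prop) (b : α)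
    (hQ : ∀ c v, Q (Function.update c b v) ↔ Q c) (j : Fin k) :
    (cnt (fun c : α → Fin k => Q c ∧ c b ≠ j) : ℝ) = (1 - 1 / (k : ℝ)) * cnt Q := by
  classical
  have hk : 0 < k := j.pos
  have hk' : (0 : ℝ) < k := by exact_mod_cast hk
  have h1 : cnt Q = k * cnt (fun c : α → Fin k => Q c ∧ c b = j) := by
    rw [cnt_eq_card Q, Finset.card_eq_sum_card_fiberwise (f := fun c : α → Fin k => c b) (t := univ)
      (fun x _ => Finset.mem_univ _)]
    rw [Finset.sum_congr rfl (fun v _ => show _ =
      cnt (fun c : α → Fin k => Q c ∧ c b = j) from ?_)]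
    · simp
    · rw [Finset.filter_filter, ← cnt_eq_card]
      exact cnt_fiber_eq Q b hQ v j
  have h2 := cnt_and_add_and_not Q (fun c : α → Fin k => c b = j)
  have h1' : (cnt Q : ℝ) = k * cnt (fun c : α → Fin k => Q c ∧ c b = j) := by exact_mod_cast h1
  have h2' : (cnt (fun c : α → Fin k => Q c ∧ c b = j) : ℝ)
      + cnt (fun c : α → Fin k => Q c ∧ ¬ c b = j) = cnt Q := by exact_mod_cast h2
  have h3 : (cnt (fun c : α → Fin k => Q c ∧ c b = j) : ℝ) = 1 / k * cnt Q := by
    rw [h1']
    field_simp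
  rw [h3] at h2'
  change (cnt (fun c : α → Fin k => Q c ∧ ¬ c b = j) : ℝ) = _
  linarith

lemma indep_block (j : Fin k) (B : Finset α) :
    ∀ (Q : (α → Fin k) → Prop), (∀ b ∈ B, ∀ c v, Q (Function.update c b v) ↔ Q c) →
    (cnt (fun c : α → Fin k => Q c ∧ ∀ b ∈ B, c b ≠ j) : ℝ)
      = (1 - 1 / (k : ℝ)) ^ B.card * cnt Q := by
  induction B using Finset.induction_on with
  | empty => intro Q _; simp
  | insert b B hb ih =>
    intro Q hQ
    have ih' := ih Q (fun b' hb' => hQ b' (Finset.mem_insert_of_mem hb'))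
    have h := indep_coord (fun c : α → Fin k => Q c ∧ ∀ b' ∈ B, c b' ≠ j) b ?_ j
    · rw [Finset.card_insert_of_notMem hb, pow_succ]
      have e : cnt (fun c : α → Fin k => Q c ∧ ∀ b' ∈ insert b B, c b' ≠ j)
          = cnt (fun c : α → Fin k => (Q c ∧ ∀ b' ∈ B, c b' ≠ j) ∧ c b ≠ j) := by
        apply cnt_congr
        intro c
        simp only [Finset.forall_mem_insert]
        tauto
      rw [e, h, ih']
      ring
    · intro c v
      rw [hQ b (Finset.mem_insert_self b B) c v]
      apply and_congr_right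
      intro _
      apply forall₂_congr
      intro b' hb'
      rw [Function.update_of_ne]
      rintro rfl
      exact hb hb'

lemma hit_family {β : Type*} (j : Fin k) (t : ℕ) (B : β → Finset α) (hB : ∀ y, (B y).card = t)
    (Y : Finset β) : (∀ y ∈ Y, ∀ y' ∈ Y, y ≠ y' → Disjoint (B y) (B y')) →
    (cnt (fun c : α → Fin k => ∀ y ∈ Y, ∃ b ∈ B y, c b = j) : ℝ)
      = (1 - (1 - 1 / (k : ℝ)) ^ t) ^ Y.card * (k : ℝ) ^ (Fintype.card α) := by
  classical
  induction Y using Finset.induction_on with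
  | empty => intro _; simp [cnt_eq_card]
  | insert y Y hy ih =>
    intro hdis
    have ih' := ih (fun a ha b hb hab => hdis a (Finset.mem_insert_of_mem ha) b
      (Finset.mem_insert_of_mem hb) hab)
    have h := indep_block j (B y) (fun c : α → Fin k => ∀ y' ∈ Y, ∃ b ∈ B y', c b = j) ?_
    · have e1 : cnt (fun c : α → Fin k => ∀ y' ∈ insert y Y, ∃ b ∈ B y', c b = j)
          = cnt (fun c : α → Fin k => (∀ y' ∈ Y, ∃ b ∈ B y', c b = j) ∧
            ¬ ∀ b ∈ B y, c b ≠ j) := by
        apply cnt_congr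
        intro c
        simp only [Finset.forall_mem_insert]
        push Not
        tauto
      have e2 := cnt_and_add_and_not (fun c : α → Fin k => ∀ y' ∈ Y, ∃ b ∈ B y', c b = j)
        (fun c : α → Fin k => ∀ b ∈ B y, c b ≠ j)
      have e2' : (cnt (fun c : α → Fin k => (∀ y' ∈ Y, ∃ b ∈ B y', c b = j) ∧
            ∀ b ∈ B y, c b ≠ j) : ℝ)
          + cnt (fun c : α → Fin k => (∀ y' ∈ Y, ∃ b ∈ B y', c b = j) ∧
            ¬ ∀ b ∈ B y, c b ≠ j)
          = cnt (fun c : α → Fin k => ∀ y' ∈ Y, ∃ b ∈ B y', c b = j) := by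
        exact_mod_cast e2
      rw [e1, Finset.card_insert_of_notMem hy, pow_succ]
      rw [hB] at h
      rw [h, ih'] at e2'
      linear_combination e2'
    · intro b hb c v
      apply forall₂_congr
      intro y' hy'
      have hd : Disjoint (B y) (B y') :=
        hdis y (Finset.mem_insert_self y Y) y' (Finset.mem_insert_of_mem hy')
          (by rintro rfl; exact hy hy')
      apply exists_congr
      intro b'
      apply and_congr_right
      intro hb'
      rw [Function.update_of_ne]
      rintro rfl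
      exact Finset.disjoint_left.1 hd hb hb'

end Counting

section Translates

variable {A : Type*} [AddCommGroup A] [Fintype A] [DecidableEq A]

/-- The reflected translate `y - T`. -/
def reflTranslate (T : Finset A) (y : A) : Finset A := T.image fun x => y - x

lemma card_reflTranslate (T : Finset A) (y : A) : (reflTranslate T y).card = T.card :=
  Finset.card_image_of_injective _ (fun a b h => by simpa using h)

/-- There are at least `|A| / |T|²` pairwise disjoint reflected translates of `T`. -/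
lemma exists_disjoint_translates (T : Finset A) (hT : T.Nonempty) :
    ∃ Y : Finset A, (∀ y ∈ Y, ∀ y' ∈ Y, y ≠ y' →
      Disjoint (reflTranslate T y) (reflTranslate T y')) ∧
      Fintype.card A ≤ Y.card * T.card ^ 2 := by
  classical
  set good : Finset (Finset A) := univ.filter fun Y : Finset A =>
    ∀ y ∈ Y, ∀ y' ∈ Y, y ≠ y' → Disjoint (reflTranslate T y) (reflTranslate T y') with hgood
  have hne : good.Nonempty := ⟨∅, by simp [hgood]⟩
  obtain ⟨Y, hY, hmax⟩ := Finset.exists_max_image good Finset.card hne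
  rw [hgood, Finset.mem_filter] at hY
  refine ⟨Y, hY.2, ?_⟩
  have hcover : (univ : Finset A) ⊆
      ((Y ×ˢ (T ×ˢ T)).image fun q : A × (A × A) => q.1 - q.2.1 + q.2.2) := by
    intro z _
    by_contra hz
    rw [Finset.mem_image] at hz
    push Not at hz
    have hzY : z ∉ Y := by
      intro hzY
      obtain ⟨x, hx⟩ := hT
      exact hz (z, (x, x)) (by simp [hzY, hx]) (by simp)
    have hdisj : ∀ y ∈ Y, Disjoint (reflTranslate T z) (reflTranslate T y) := by
      intro y hy
      rw [Finset.disjoint_left]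
      intro w hw1 hw2
      unfold reflTranslate at hw1 hw2
      rw [Finset.mem_image] at hw1 hw2
      obtain ⟨x1, hx1, rfl⟩ := hw1
      obtain ⟨x2, hx2, h⟩ := hw2
      refine hz (y, (x2, x1)) (by simp [hy, hx1, hx2]) ?_
      simp only
      rw [h]
      abel
    have hins : insert z Y ∈ good := by
      rw [hgood, Finset.mem_filter]
      refine ⟨Finset.mem_univ _, ?_⟩
      intro y hy y' hy' hyy'
      rw [Finset.mem_insert] at hy hy'
      rcases hy with rfl | hy
      · rcases hy' with rfl | hy'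
        · exact absurd rfl hyy'
        · exact hdisj y' hy'
      · rcases hy' with rfl | hy'
        · exact (hdisj y hy).symm
        · exact hY.2 y hy y' hy' hyy'
    have := hmax _ hins
    rw [Finset.card_insert_of_notMem hzY] at this
    omega
  calc Fintype.card A = (univ : Finset A).card := (Finset.card_univ).symm
    _ ≤ _ := Finset.card_le_card hcover
    _ ≤ (Y ×ˢ (T ×ˢ T)).card := Finset.card_image_le
    _ = Y.card * T.card ^ 2 := by
      rw [Finset.card_product, Finset.card_product]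
      ring

end Translates

section Existence

variable {A : Type*} [AddCommGroup A] [Fintype A] [DecidableEq A]

lemma bad_count {k : ℕ} (hk : 1 ≤ k) (j : Fin k) (T : Finset A) (hT : 1 ≤ T.card) :
    (cnt (fun c : A → Fin k => ∀ y, ∃ x ∈ T, c (y - x) = j) : ℝ)
      ≤ Real.exp (-((Fintype.card A : ℝ) / (T.card : ℝ) ^ 2 * (1 - 1 / (k : ℝ)) ^ T.card))
        * (k : ℝ) ^ (Fintype.card A) := by
  obtain ⟨Y, hY, hcard⟩ := exists_disjoint_translates T (Finset.card_pos.1 hT)
  have h1 : (cnt (fun c : A → Fin k => ∀ y, ∃ x ∈ T, c (y - x) = j) : ℝ)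
      ≤ (cnt (fun c : A → Fin k => ∀ y ∈ Y, ∃ b ∈ reflTranslate T y, c b = j) : ℝ) := by
    have : cnt (fun c : A → Fin k => ∀ y, ∃ x ∈ T, c (y - x) = j) ≤
        cnt (fun c : A → Fin k => ∀ y ∈ Y, ∃ b ∈ reflTranslate T y, c b = j) := by
      apply cnt_mono
      intro c hc y _
      obtain ⟨x, hx, h⟩ := hc y
      exact ⟨y - x, Finset.mem_image_of_mem _ hx, h⟩
    exact_mod_cast this
  refine h1.trans ?_
  rw [hit_family j T.card (reflTranslate T) (card_reflTranslate T) Y hY]
  have hk' : (1 : ℝ) ≤ k := by exact_mod_cast hk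
  have hq0 : 0 ≤ 1 - 1 / (k : ℝ) := by
    rw [sub_nonneg, div_le_one (by linarith)]
    exact hk'
  have hq1 : 1 - 1 / (k : ℝ) ≤ 1 := by
    have : 0 ≤ 1 / (k : ℝ) := by positivity
    linarith
  set θ : ℝ := (1 - 1 / (k : ℝ)) ^ T.card with hθ
  have hθ0 : 0 ≤ θ := pow_nonneg hq0 _
  have hθ1 : θ ≤ 1 := pow_le_one₀ hq0 hq1
  apply mul_le_mul_of_nonneg_right _ (by positivity)
  have h2 : (1 - θ) ^ Y.card ≤ Real.exp (-(Y.card * θ)) := by
    have h3 : 1 - θ ≤ Real.exp (-θ) := by
      have := Real.add_one_le_exp (-θ)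
      linarith
    calc (1 - θ) ^ Y.card ≤ (Real.exp (-θ)) ^ Y.card := pow_le_pow_left₀ (by linarith) h3 _
      _ = Real.exp (-(Y.card * θ)) := by
        rw [← Real.exp_nat_mul]
        congr 1
        ring
  refine h2.trans (Real.exp_le_exp.2 ?_)
  have hTpos : (0 : ℝ) < (T.card : ℝ) ^ 2 := by
    have : (0 : ℝ) < T.card := by exact_mod_cast hT
    positivity
  have h4 : (Fintype.card A : ℝ) / (T.card : ℝ) ^ 2 ≤ Y.card := by
    rw [div_le_iff₀ hTpos]
    exact_mod_cast hcard
  have := mul_le_mul_of_nonneg_right h4 hθ0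
  linarith

/-- Existence of a colouring in which no colour class is covered by `t` translates. -/
theorem exists_good_coloring (k t : ℕ) (hk : 1 ≤ k) (ht : 1 ≤ t)
    (hsmall : (k : ℝ) * (Fintype.card A : ℝ) ^ t *
      Real.exp (-((Fintype.card A : ℝ) / (t : ℝ) ^ 2 * (1 - 1 / (k : ℝ)) ^ t)) < 1) :
    ∃ c : A → Fin k, ∀ j : Fin k, ∀ T : Finset A, T.card = t → ∃ y, ∀ x ∈ T, c (y - x) ≠ j := by
  classical
  by_contra hcon
  push Not at hcon
  have hcover : (univ : Finset (A → Fin k)) ⊆
      ((univ : Finset (Fin k)) ×ˢ (powersetCard t (univ : Finset A))).biUnion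
        (fun q : Fin k × Finset A => univ.filter fun c : A → Fin k =>
          ∀ y, ∃ x ∈ q.2, c (y - x) = q.1) := by
    intro c _
    obtain ⟨j, T, hT, h⟩ := hcon c
    rw [Finset.mem_biUnion]
    refine ⟨(j, T), ?_, ?_⟩
    · rw [Finset.mem_product, Finset.mem_powersetCard]
      exact ⟨Finset.mem_univ _, Finset.subset_univ _, hT⟩
    · rw [Finset.mem_filter]
      exact ⟨Finset.mem_univ _, h⟩
  have h1 := (Finset.card_le_card hcover).trans Finset.card_biUnion_le
  rw [Finset.card_univ, Fintype.card_fun, Fintype.card_fin] at h1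
  have h1' : ((k : ℝ)) ^ (Fintype.card A) ≤
      ∑ q ∈ (univ : Finset (Fin k)) ×ˢ (powersetCard t (univ : Finset A)),
        ((univ.filter fun c : A → Fin k => ∀ y, ∃ x ∈ q.2, c (y - x) = q.1).card : ℝ) := by
    exact_mod_cast h1
  set E : ℝ := Real.exp (-((Fintype.card A : ℝ) / (t : ℝ) ^ 2 * (1 - 1 / (k : ℝ)) ^ t)) with hE
  have h2 : ∑ q ∈ (univ : Finset (Fin k)) ×ˢ (powersetCard t (univ : Finset A)),
        ((univ.filter fun c : A → Fin k => ∀ y, ∃ x ∈ q.2, c (y - x) = q.1).card : ℝ)
      ≤ ∑ _q ∈ (univ : Finset (Fin k)) ×ˢ (powersetCard t (univ : Finset A)),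
        E * (k : ℝ) ^ (Fintype.card A) := by
    apply Finset.sum_le_sum
    rintro ⟨j, T⟩ hq
    rw [Finset.mem_product, Finset.mem_powersetCard] at hq
    have hT : T.card = t := hq.2.2
    have := bad_count hk j T (by omega)
    rw [hT, cnt_eq_card] at this
    exact this
  rw [Finset.sum_const, nsmul_eq_mul, Finset.card_product, Finset.card_powersetCard,
    Finset.card_univ, Finset.card_univ, Fintype.card_fin] at h2
  have h3 : ((Fintype.card A).choose t : ℝ) ≤ (Fintype.card A : ℝ) ^ t := by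
    exact_mod_cast Nat.choose_le_pow (Fintype.card A) t
  have hkpos : (0 : ℝ) < (k : ℝ) ^ (Fintype.card A) := by
    have : (0 : ℝ) < k := by exact_mod_cast hk
    positivity
  have hE0 : 0 < E := Real.exp_pos _
  have h4 : ((k * (Fintype.card A).choose t : ℕ) : ℝ) * (E * (k : ℝ) ^ (Fintype.card A))
      ≤ (k * (Fintype.card A : ℝ) ^ t * E) * (k : ℝ) ^ (Fintype.card A) := by
    push_cast
    have : (k : ℝ) * ((Fintype.card A).choose t : ℝ) ≤ k * (Fintype.card A : ℝ) ^ t :=
      mul_le_mul_of_nonneg_left h3 (Nat.cast_nonneg _)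
    calc (k : ℝ) * ((Fintype.card A).choose t : ℝ) * (E * (k : ℝ) ^ (Fintype.card A))
        ≤ k * (Fintype.card A : ℝ) ^ t * (E * (k : ℝ) ^ (Fintype.card A)) :=
          mul_le_mul_of_nonneg_right this (by positivity)
      _ = _ := by ring
  have h5 : (k * (Fintype.card A : ℝ) ^ t * E) * (k : ℝ) ^ (Fintype.card A)
      < 1 * (k : ℝ) ^ (Fintype.card A) := mul_lt_mul_of_pos_right hsmall hkpos
  linarith

/-- Existence of a set of prescribed size not covered by `t` translates. -/
theorem exists_good_set (k t D : ℕ) (hk : 1 ≤ k) (ht : 1 ≤ t) (hD : k * D ≤ Fintype.card A)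
    (hsmall : (k : ℝ) * (Fintype.card A : ℝ) ^ t *
      Real.exp (-((Fintype.card A : ℝ) / (t : ℝ) ^ 2 * (1 - 1 / (k : ℝ)) ^ t)) < 1) :
    ∃ S : Finset A, S.card = D ∧
      ∀ T : Finset A, T.card = t → ∃ y, ∀ x ∈ T, y - x ∉ S := by
  classical
  obtain ⟨c, hc⟩ := exists_good_coloring k t hk ht hsmall
  have : Nonempty (Fin k) := ⟨⟨0, hk⟩⟩
  obtain ⟨j, hj⟩ := Fintype.exists_le_card_fiber_of_mul_le_card c
    (n := D) (by rw [Fintype.card_fin]; exact hD)
  obtain ⟨S, hS, hcard⟩ := Finset.exists_subset_card_eq hj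
  refine ⟨S, hcard, fun T hT => ?_⟩
  obtain ⟨y, hy⟩ := hc j T hT
  refine ⟨y, fun x hx hmem => hy x hx ?_⟩
  have := hS hmem
  rw [Finset.mem_filter] at this
  exact this.2

end Existence

end Pool.Agent.Lib.MP_6659c6_co
end

section

/-!
Bipartite Cayley-type graphs and their total domination number.
-/

namespace Pool.Agent.Lib.MP_6659c6_co

open Finset

/-- The bipartite graph on `A × Bool` in which `(x, false)` and `(y, true)` are adjacent iff
`y - x ∈ S`. -/
def bip {A : Type} [AddCommGroup A] (S : Finset A) : SimpleGraph (A × Bool) where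
  Adj u v := (u.2 = false ∧ v.2 = true ∧ v.1 - u.1 ∈ S) ∨
    (u.2 = true ∧ v.2 = false ∧ u.1 - v.1 ∈ S)
  symm := ⟨by
    rintro u v (⟨h1, h2, h3⟩ | ⟨h1, h2, h3⟩)
    · exact Or.inr ⟨h2, h1, h3⟩
    · exact Or.inl ⟨h2, h1, h3⟩⟩
  loopless := ⟨by
    rintro u (⟨h1, h2, _⟩ | ⟨h1, h2, _⟩)
    · rw [h1] at h2; exact absurd h2 (by decide)
    · rw [h1] at h2; exact absurd h2 (by decide)⟩

variable {A : Type} [AddCommGroup A]

lemma bip_adj_false (S : Finset A) (x : A) (v : A × Bool) :
    (bip S).Adj (x, false) v ↔ v.2 = true ∧ v.1 - x ∈ S := by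
  simp [bip]

lemma bip_adj_true (S : Finset A) (y : A) (v : A × Bool) :
    (bip S).Adj (y, true) v ↔ v.2 = false ∧ y - v.1 ∈ S := by
  simp [bip]

lemma bip_neighborSet_ncard (S : Finset A) (v : A × Bool) :
    ((bip S).neighborSet v).ncard = S.card := by
  obtain ⟨x, b⟩ := v
  cases b
  · have : (bip S).neighborSet (x, false) = (fun a => (x + a, true)) '' (S : Set A) := by
      ext ⟨y, c⟩
      rw [SimpleGraph.mem_neighborSet, bip_adj_false, Set.mem_image]
      constructor
      · rintro ⟨h1, h2⟩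
        refine ⟨y - x, h2, ?_⟩
        simp only at h1
        rw [h1]
        simp
      · rintro ⟨a, ha, h⟩
        rw [Prod.mk.injEq] at h
        obtain ⟨rfl, rfl⟩ := h
        refine ⟨rfl, ?_⟩
        simpa using ha
    rw [this, Set.ncard_image_of_injective, Set.ncard_coe_finset]
    intro a b h
    simpa using h
  · have : (bip S).neighborSet (x, true) = (fun a => (x - a, false)) '' (S : Set A) := by
      ext ⟨y, c⟩
      rw [SimpleGraph.mem_neighborSet, bip_adj_true, Set.mem_image]
      constructor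
      · rintro ⟨h1, h2⟩
        refine ⟨x - y, h2, ?_⟩
        simp only at h1
        rw [h1]
        simp
      · rintro ⟨a, ha, h⟩
        rw [Prod.mk.injEq] at h
        obtain ⟨rfl, rfl⟩ := h
        refine ⟨rfl, ?_⟩
        simpa using ha
    rw [this, Set.ncard_image_of_injective, Set.ncard_coe_finset]
    intro a b h
    simpa using h

lemma bip_edges [Fintype A] (S : Finset A) :
    (bip S).edgeSet.ncard = Fintype.card A * S.card := by
  classical
  have h := (bip S).sum_degrees_eq_twice_card_edges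
  have hd : ∀ v, (bip S).degree v = S.card := by
    intro v
    have := bip_neighborSet_ncard S v
    rwa [Set.ncard_eq_toFinset_card', Set.toFinset_card, SimpleGraph.card_neighborSet_eq_degree]
      at this
  simp only [hd] at h
  rw [Finset.sum_const, Finset.card_univ, Fintype.card_prod, Fintype.card_bool, smul_eq_mul] at h
  have hm : (bip S).edgeSet.ncard = (bip S).edgeFinset.card := by
    rw [Set.ncard_eq_toFinset_card']
    rfl
  rw [hm]
  have : 2 * (bip S).edgeFinset.card = 2 * (Fintype.card A * S.card) := by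
    rw [← h]; ring
  omega

lemma bip_totalDom_ge [Fintype A] (S : Finset A) (hS : S.Nonempty) (t : ℕ)
    (hgood : ∀ T : Finset A, T.card ≤ t → ∃ y, ∀ x ∈ T, y - x ∉ S) :
    2 * (t + 1) ≤ totalDomNumber (bip S) := by
  classical
  unfold totalDomNumber
  apply le_csInf
  · refine ⟨_, Finset.univ, ?_, rfl⟩
    rintro ⟨x, b⟩
    obtain ⟨a, ha⟩ := hS
    cases b
    · refine ⟨(x + a, true), Finset.mem_univ _, ?_⟩
      rw [bip_adj_false]
      simpa using ha
    · refine ⟨(x - a, false), Finset.mem_univ _, ?_⟩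
      rw [bip_adj_true]
      simpa using ha
  · rintro m ⟨D, hD, rfl⟩
    set T0 : Finset A := univ.filter fun x => (x, false) ∈ D with hT0
    set T1 : Finset A := univ.filter fun x => (x, true) ∈ D with hT1
    have h0 : t + 1 ≤ T0.card := by
      by_contra hlt
      obtain ⟨y, hy⟩ := hgood T0 (by omega)
      obtain ⟨u, hu, hadj⟩ := hD (y, true)
      rw [bip_adj_true] at hadj
      refine hy u.1 ?_ hadj.2
      rw [hT0, Finset.mem_filter]
      refine ⟨Finset.mem_univ _, ?_⟩
      have : (u.1, false) = u := by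
        rw [← hadj.1]
      rw [this]
      exact hu
    have h1 : t + 1 ≤ T1.card := by
      by_contra hlt
      obtain ⟨y, hy⟩ := hgood (T1.image fun z => -z) (Finset.card_image_le.trans (by omega))
      obtain ⟨u, hu, hadj⟩ := hD (-y, false)
      rw [bip_adj_false] at hadj
      refine hy (-u.1) ?_ ?_
      · apply Finset.mem_image_of_mem
        rw [hT1, Finset.mem_filter]
        refine ⟨Finset.mem_univ _, ?_⟩
        have : (u.1, true) = u := by
          rw [← hadj.1]
        rw [this]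
        exact hu
      · have e : y - -u.1 = u.1 - -y := by abel
        rw [e]
        exact hadj.2
    have hsub : (T0.image fun x => (x, false)) ∪ (T1.image fun x => (x, true)) ⊆ D := by
      intro u hu
      rw [Finset.mem_union, Finset.mem_image, Finset.mem_image] at hu
      rcases hu with ⟨x, hx, rfl⟩ | ⟨x, hx, rfl⟩
      · rw [hT0, Finset.mem_filter] at hx
        exact hx.2
      · rw [hT1, Finset.mem_filter] at hx
        exact hx.2
    have hdisj : Disjoint (T0.image fun x => (x, false)) (T1.image fun x => (x, true)) := by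
      rw [Finset.disjoint_left]
      intro u hu hu'
      rw [Finset.mem_image] at hu hu'
      obtain ⟨x, _, rfl⟩ := hu
      obtain ⟨y, _, h⟩ := hu'
      simp at h
    have hc := Finset.card_le_card hsub
    rw [Finset.card_union_of_disjoint hdisj, Finset.card_image_of_injective,
      Finset.card_image_of_injective] at hc
    · omega
    · intro a b h
      simpa using h
    · intro a b h
      simpa using h

lemma bip_connected (p : ℕ) [Fact p.Prime] (S : Finset (ZMod p)) (hS : 2 ≤ S.card) :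
    (bip S).Connected := by
  rw [SimpleGraph.connected_iff_exists_forall_reachable]
  refine ⟨(0, false), ?_⟩
  obtain ⟨a, ha, b, hb, hab⟩ := Finset.one_lt_card.1 (show 1 < S.card by omega)
  have hstep : ∀ x : ZMod p, (bip S).Reachable (x, false) (x + (a - b), false) := by
    intro x
    have h1 : (bip S).Adj (x, false) (x + a, true) := by
      rw [bip_adj_false]; simpa using ha
    have h2 : (bip S).Adj (x + a, true) (x + (a - b), false) := by
      rw [bip_adj_true]
      refine ⟨rfl, ?_⟩
      have : x + a - (x + (a - b)) = b := by ring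
      simp only
      rw [this]
      exact hb
    exact h1.reachable.trans h2.reachable
  have hiter : ∀ n : ℕ, (bip S).Reachable ((0 : ZMod p), false) ((n : ZMod p) * (a - b), false) := by
    intro n
    induction n with
    | zero => simp
    | succ n ih =>
      refine ih.trans ?_
      have := hstep ((n : ZMod p) * (a - b))
      have e : ((n + 1 : ℕ) : ZMod p) * (a - b) = (n : ZMod p) * (a - b) + (a - b) := by
        push_cast; ring
      rw [e]
      exact this
  have hne : a - b ≠ 0 := sub_ne_zero.2 hab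
  have hall : ∀ z : ZMod p, (bip S).Reachable ((0 : ZMod p), false) (z, false) := by
    intro z
    have := hiter (z * (a - b)⁻¹).val
    rw [ZMod.natCast_val, ZMod.cast_id, mul_assoc, inv_mul_cancel₀ hne, mul_one] at this
    exact this
  rintro ⟨z, c⟩
  cases c
  · exact hall z
  · refine (hall (z - a)).trans ?_
    apply SimpleGraph.Adj.reachable
    rw [bip_adj_false]
    simpa using ha

/-- A set that is hard to cover gives a lower bound for admissible constants. -/
theorem lower_from_set (p : ℕ) [Fact p.Prime] (Δ t : ℕ) (hΔ : 2 ≤ Δ) (S : Finset (ZMod p))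
    (hS : S.card = Δ)
    (hgood : ∀ T : Finset (ZMod p), T.card ≤ t → ∃ y, ∀ x ∈ T, y - x ∉ S)
    (r : ℝ) (hr : Admissible Δ r) :
    (Δ : ℝ) * (t + 1) ≤ r * (p - (t + 1)) ∧ 0 < (p : ℝ) - (t + 1) := by
  have hconn := bip_connected p S (by omega)
  have hp2 : 2 ≤ p := (Fact.out : p.Prime).two_le
  have hcardV : Fintype.card (ZMod p × Bool) = p * 2 := by
    rw [Fintype.card_prod, ZMod.card, Fintype.card_bool]
  have h := hr (ZMod p × Bool) (bip S) hconn (by rw [hcardV]; omega)
    (fun v => by rw [bip_neighborSet_ncard, hS])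
  rw [bip_edges, hcardV, hS, ZMod.card] at h
  have hγ := bip_totalDom_ge S (Finset.card_pos.1 (by omega)) t hgood
  have hγ' : (2 : ℝ) * (t + 1) ≤ totalDomNumber (bip S) := by exact_mod_cast hγ
  have hpos : (0 : ℝ) < p * Δ := by
    have h1 : (0 : ℝ) < p := by exact_mod_cast (by omega : 0 < p)
    have h2 : (0 : ℝ) < Δ := by exact_mod_cast (by omega : 0 < Δ)
    positivity
  have hγle : (totalDomNumber (bip S) : ℝ) ≤ p * 2 := by
    have h1 : totalDomNumber (bip S) ≤ (Finset.univ : Finset (ZMod p × Bool)).card := by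
      apply Nat.sInf_le
      refine ⟨Finset.univ, ?_, rfl⟩
      intro v
      have h2 := bip_neighborSet_ncard S v
      have h3 : ((bip S).neighborSet v).Nonempty := by
        apply Set.nonempty_of_ncard_ne_zero
        omega
      obtain ⟨w, hw⟩ := h3
      exact ⟨w, Finset.mem_univ _, hw⟩
    rw [Finset.card_univ, hcardV] at h1
    exact_mod_cast h1
  push_cast at h
  have hgpos : 0 < (p : ℝ) * 2 - totalDomNumber (bip S) := by
    rcases lt_or_eq_of_le (sub_nonneg.2 hγle) with h1 | h1
    · exact h1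
    · rw [← h1, mul_zero] at h
      linarith
  have hsum : 0 < (Δ : ℝ) + r := by
    by_contra hneg
    push Not at hneg
    have : 1 / 2 * ((Δ : ℝ) + r) * ((p : ℝ) * 2 - totalDomNumber (bip S)) ≤ 0 := by
      apply mul_nonpos_of_nonpos_of_nonneg _ hgpos.le
      linarith
    linarith
  have h2 : 1 / 2 * ((Δ : ℝ) + r) * ((p : ℝ) * 2 - totalDomNumber (bip S))
      ≤ 1 / 2 * ((Δ : ℝ) + r) * ((p : ℝ) * 2 - 2 * (t + 1)) := by
    apply mul_le_mul_of_nonneg_left _ (by positivity)
    linarith
  refine ⟨by nlinarith, by linarith⟩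

end Pool.Agent.Lib.MP_6659c6_co
end

section

/-!
The upper bound: an alteration argument.
-/

namespace Pool.Agent.Lib.MP_6659c6_co

open Finset

/-- Derandomised alteration lemma. -/
lemma exists_small_hitting {α ι : Type*} [DecidableEq α] (p : ℝ) (hp0 : 0 ≤ p) (hp1 : p ≤ 1)
    (A : ι → Finset α) (M : Finset α) :
    ∀ I : Finset ι, ∃ R ⊆ M, (R.card : ℝ) + ((I.filter fun i => Disjoint (A i) R).card : ℝ)
      ≤ p * M.card + ∑ i ∈ I, (1 - p) ^ (A i ∩ M).card := by
  classical
  induction M using Finset.induction_on with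
  | empty =>
    intro I
    refine ⟨∅, subset_rfl, ?_⟩
    simp
  | insert x M hx ih =>
    intro I
    obtain ⟨R1, hR1, h1⟩ := ih (I.filter fun i => x ∉ A i)
    obtain ⟨R2, hR2, h2⟩ := ih I
    -- the two options
    have key : p * ((1 : ℝ) + (p * M.card + ∑ i ∈ I.filter (fun i => x ∉ A i),
          (1 - p) ^ (A i ∩ M).card)) +
        (1 - p) * (p * M.card + ∑ i ∈ I, (1 - p) ^ (A i ∩ M).card)
        = p * (insert x M).card + ∑ i ∈ I, (1 - p) ^ (A i ∩ insert x M).card := by
      rw [Finset.card_insert_of_notMem hx]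
      rw [← Finset.sum_filter_add_sum_filter_not I (fun i => x ∉ A i)
        (fun i => (1 - p) ^ (A i ∩ M).card)]
      rw [← Finset.sum_filter_add_sum_filter_not I (fun i => x ∉ A i)
        (fun i => (1 - p) ^ (A i ∩ insert x M).card)]
      have e1 : ∑ i ∈ I with x ∉ A i, (1 - p) ^ (A i ∩ insert x M).card
          = ∑ i ∈ I with x ∉ A i, (1 - p) ^ (A i ∩ M).card := by
        apply Finset.sum_congr rfl
        intro i hi
        rw [Finset.mem_filter] at hi
        rw [Finset.inter_insert_of_notMem hi.2]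
      have e2 : ∑ i ∈ I with ¬ x ∉ A i, (1 - p) ^ (A i ∩ insert x M).card
          = (1 - p) * ∑ i ∈ I with ¬ x ∉ A i, (1 - p) ^ (A i ∩ M).card := by
        rw [Finset.mul_sum]
        apply Finset.sum_congr rfl
        intro i hi
        rw [Finset.mem_filter, not_not] at hi
        rw [Finset.inter_insert_of_mem hi.2, Finset.card_insert_of_notMem (by simp [hx]), pow_succ]
        ring
      rw [e1, e2]
      push_cast
      ring
    by_cases hc : (1 : ℝ) + (p * M.card + ∑ i ∈ I.filter (fun i => x ∉ A i),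
          (1 - p) ^ (A i ∩ M).card) ≤ p * M.card + ∑ i ∈ I, (1 - p) ^ (A i ∩ M).card
    · refine ⟨insert x R1, Finset.insert_subset_insert x hR1, ?_⟩
      have hxR : x ∉ R1 := fun h => hx (hR1 h)
      rw [Finset.card_insert_of_notMem hxR]
      have e : (I.filter fun i => Disjoint (A i) (insert x R1)) =
          ((I.filter fun i => x ∉ A i).filter fun i => Disjoint (A i) R1) := by
        ext i
        simp only [Finset.mem_filter, Finset.disjoint_insert_right, and_assoc]
      rw [e, ← key]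
      push_cast
      nlinarith
    · push Not at hc
      refine ⟨R2, hR2.trans (Finset.subset_insert x M), ?_⟩
      rw [← key]
      nlinarith

end Pool.Agent.Lib.MP_6659c6_co
end

section

namespace Pool.Agent.Lib.MP_6659c6_co

open Finset

lemma walk_closed {V : Type} (G : SimpleGraph V) (Q : V → Prop)
    (hQ : ∀ a b, Q a → G.Adj a b → Q b) {a b : V} (w : G.Walk a b) (ha : Q a) : Q b := by
  induction w with
  | nil => exact ha
  | cons h _ ih => exact ih (hQ _ _ ha h)

lemma degree_pos {V : Type} [Fintype V] (G : SimpleGraph V) [DecidableRel G.Adj]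
    (hG : G.Connected) (h3 : 3 ≤ Fintype.card V) (v : V) : 1 ≤ G.degree v := by
  classical
  by_contra h
  have h0 : G.degree v = 0 := by omega
  have hcl : ∀ w, w = v := by
    intro w
    obtain ⟨q⟩ := hG.preconnected v w
    refine walk_closed G (fun x => x = v) ?_ q rfl
    rintro a b rfl hab
    rw [← SimpleGraph.mem_neighborFinset] at hab
    have : (G.neighborFinset a).card = 0 := h0
    rw [Finset.card_eq_zero] at this
    rw [this] at hab
    simp at hab
  have : Fintype.card V ≤ 1 := Fintype.card_le_one_iff.2 (fun a b => (hcl a).trans (hcl b).symm)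
  omega

lemma support_degree {V : Type} [Fintype V] (G : SimpleGraph V) [DecidableRel G.Adj]
    (hG : G.Connected) (h3 : 3 ≤ Fintype.card V) {u v : V} (hu : G.degree u = 1)
    (huv : G.Adj u v) : 2 ≤ G.degree v := by
  classical
  by_contra h
  have h1 : G.degree v = 1 := by
    have := degree_pos G hG h3 v
    omega
  have hNu : G.neighborFinset u = {v} := by
    obtain ⟨a, ha⟩ := Finset.card_eq_one.1 (show (G.neighborFinset u).card = 1 from hu)
    have : v ∈ G.neighborFinset u := by simpa using huv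
    rw [ha, Finset.mem_singleton] at this
    rw [ha, this]
  have hNv : G.neighborFinset v = {u} := by
    obtain ⟨a, ha⟩ := Finset.card_eq_one.1 (show (G.neighborFinset v).card = 1 from h1)
    have : u ∈ G.neighborFinset v := by simpa using huv.symm
    rw [ha, Finset.mem_singleton] at this
    rw [ha, this]
  have hcl : ∀ w, w = u ∨ w = v := by
    intro w
    obtain ⟨q⟩ := hG.preconnected u w
    refine walk_closed G (fun x => x = u ∨ x = v) ?_ q (Or.inl rfl)
    rintro a b (rfl | rfl) hab
    · rw [← SimpleGraph.mem_neighborFinset, hNu, Finset.mem_singleton] at hab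
      exact Or.inr hab
    · rw [← SimpleGraph.mem_neighborFinset, hNv, Finset.mem_singleton] at hab
      exact Or.inl hab
  have hsub : (Finset.univ : Finset V) ⊆ {u, v} := by
    intro w _
    rcases hcl w with h | h <;> simp [h]
  have := Finset.card_le_card hsub
  have h2 := Finset.card_le_two (a := u) (b := v)
  rw [Finset.card_univ] at this
  omega

theorem totalDom_upper {V : Type} [Fintype V] (G : SimpleGraph V) [DecidableRel G.Adj]
    (hG : G.Connected)
    (h3 : 3 ≤ Fintype.card V) (Δ : ℕ) (hΔ : ∀ v, G.degree v ≤ Δ) (p c : ℝ)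
    (hp0 : 0 ≤ p) (hp1 : p ≤ 1) (hc0 : 0 ≤ c) (hcΔ : ((Δ : ℝ) + 2) * c ≤ 1)
    (ha : ∀ d : ℕ, 2 ≤ d → d ≤ Δ → p + (1 - p) ^ d ≤ 1 - c * d)
    (hb : ∀ d : ℕ, 2 ≤ d → d ≤ Δ → (1 - p) ^ (d - 1) ≤ 1 - c * (d + 1)) :
    (totalDomNumber G : ℝ) ≤ ∑ v, (1 - c * G.degree v) := by
  classical
  set N : V → Finset V := fun v => G.neighborFinset v with hN
  have hNcard : ∀ v, (N v).card = G.degree v := fun v => rfl
  have hmemN : ∀ v w, w ∈ N v ↔ G.Adj v w := fun v w => by simp [hN]
  set L : Finset V := univ.filter fun v => G.degree v = 1 with hL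
  set P : Finset V := univ.filter fun v => ∃ u, G.degree u = 1 ∧ G.Adj u v with hP
  set M : Finset V := univ.filter fun v => v ∉ L ∧ v ∉ P with hM
  have hLP : Disjoint L P := by
    rw [Finset.disjoint_left]
    intro v hv hv'
    rw [hL, Finset.mem_filter] at hv
    rw [hP, Finset.mem_filter] at hv'
    obtain ⟨_, u, hu, huv⟩ := hv'
    have := support_degree G hG h3 hu huv
    omega
  have hLPM : Disjoint (L ∪ P) M := by
    rw [Finset.disjoint_left]
    intro v hv hv'
    rw [hM, Finset.mem_filter] at hv'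
    rw [Finset.mem_union] at hv
    tauto
  have huniv : (univ : Finset V) = (L ∪ P) ∪ M := by
    ext v
    simp only [Finset.mem_univ, Finset.mem_union, hM, Finset.mem_filter, true_and, true_iff]
    tauto
  set I : Finset V := univ.filter fun v => v ∉ L ∧ Disjoint (N v) P with hI
  obtain ⟨R, hRM, hR⟩ := exists_small_hitting p hp0 hp1 N M I
  set U : Finset V := I.filter fun v => Disjoint (N v) R with hU
  have hnb : ∀ v, ∃ w, G.Adj v w := by
    intro v
    have := degree_pos G hG h3 v
    have hne : (N v).Nonempty := by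
      rw [← Finset.card_pos, hNcard]
      omega
    obtain ⟨w, hw⟩ := hne
    exact ⟨w, (hmemN v w).1 hw⟩
  choose nb hnb using hnb
  set S : Finset V := R ∪ P ∪ U.image nb with hS
  have hdom : IsTotalDominating G S := by
    intro v
    by_cases hvL : v ∈ L
    · refine ⟨nb v, ?_, hnb v⟩
      have : nb v ∈ P := by
        rw [hP, Finset.mem_filter]
        rw [hL, Finset.mem_filter] at hvL
        exact ⟨Finset.mem_univ _, v, hvL.2, hnb v⟩
      rw [hS]
      simp [this]
    · by_cases hvP : Disjoint (N v) P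
      · by_cases hvR : Disjoint (N v) R
        · have hvU : v ∈ U := by
            rw [hU, Finset.mem_filter, hI, Finset.mem_filter]
            exact ⟨⟨Finset.mem_univ _, hvL, hvP⟩, hvR⟩
          refine ⟨nb v, ?_, hnb v⟩
          rw [hS, Finset.mem_union]
          exact Or.inr (Finset.mem_image_of_mem nb hvU)
        · rw [Finset.not_disjoint_iff] at hvR
          obtain ⟨w, hw1, hw2⟩ := hvR
          refine ⟨w, ?_, (hmemN v w).1 hw1⟩
          rw [hS]
          simp [hw2]
      · rw [Finset.not_disjoint_iff] at hvP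
        obtain ⟨w, hw1, hw2⟩ := hvP
        refine ⟨w, ?_, (hmemN v w).1 hw1⟩
        rw [hS]
        simp [hw2]
  have hScard : S.card ≤ R.card + P.card + U.card := by
    rw [hS]
    calc (R ∪ P ∪ U.image nb).card ≤ (R ∪ P).card + (U.image nb).card := Finset.card_union_le _ _
      _ ≤ (R.card + P.card) + U.card :=
        add_le_add (Finset.card_union_le _ _) Finset.card_image_le
  have hγ : (totalDomNumber G : ℝ) ≤ S.card := by
    have : totalDomNumber G ≤ S.card := Nat.sInf_le ⟨S, hdom, rfl⟩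
    exact_mod_cast this
  have hq0 : 0 ≤ 1 - p := by linarith
  have hq1 : 1 - p ≤ 1 := by linarith
  -- bounds for the two types of vertices
  set ℓ : V → ℕ := fun v => (N v ∩ L).card with hℓ
  have hIM : I ⊆ M ∪ P := by
    intro v hv
    rw [hI, Finset.mem_filter] at hv
    rw [Finset.mem_union, hM, Finset.mem_filter]
    by_cases h : v ∈ P
    · exact Or.inr h
    · exact Or.inl ⟨Finset.mem_univ _, hv.2.1, h⟩
  have hMP : Disjoint M P := by
    rw [Finset.disjoint_left]
    intro v hv
    rw [hM, Finset.mem_filter] at hv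
    exact hv.2.2
  set g : V → ℝ := fun v => if v ∈ I then (1 - p) ^ (N v ∩ M).card else 0 with hg
  have hsumI : ∑ v ∈ I, (1 - p) ^ (N v ∩ M).card = ∑ v ∈ M, g v + ∑ v ∈ P, g v := by
    rw [← Finset.sum_union hMP]
    have : ∑ v ∈ M ∪ P, g v = ∑ v ∈ I, g v := by
      symm
      apply Finset.sum_subset hIM
      intro v _ hv
      rw [hg]
      simp [hv]
    rw [this]
    apply Finset.sum_congr rfl
    intro v hv
    rw [hg]
    simp [hv]
  have hMbound : ∀ v ∈ M, p + g v ≤ 1 - c * G.degree v := by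
    intro v hv
    have hvM := hv
    rw [hM, Finset.mem_filter] at hv
    obtain ⟨_, hvL, hvP⟩ := hv
    have hd2 : 2 ≤ G.degree v := by
      have h1 := degree_pos G hG h3 v
      have h2 : G.degree v ≠ 1 := by
        intro h
        exact hvL (by rw [hL, Finset.mem_filter]; exact ⟨Finset.mem_univ _, h⟩)
      omega
    have h4 := ha (G.degree v) hd2 (hΔ v)
    rw [hg]
    by_cases hvI : v ∈ I
    · simp only [hvI, if_true]
      have hsub : N v ∩ M = N v := by
        apply Finset.inter_eq_left.2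
        intro w hw
        rw [hI, Finset.mem_filter] at hvI
        rw [hM, Finset.mem_filter]
        refine ⟨Finset.mem_univ _, ?_, ?_⟩
        · intro hwL
          apply hvP
          rw [hP, Finset.mem_filter]
          rw [hL, Finset.mem_filter] at hwL
          exact ⟨Finset.mem_univ _, w, hwL.2, ((hmemN v w).1 hw).symm⟩
        · exact Finset.disjoint_left.1 hvI.2.2 hw
      rw [hsub, hNcard]
      exact h4
    · simp only [hvI, if_false]
      have : 0 ≤ (1 - p) ^ G.degree v := pow_nonneg hq0 _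
      linarith
  have hPbound : ∀ v ∈ P, 1 + g v ≤ 1 - c * G.degree v + ℓ v * (1 - c) := by
    intro v hv
    have hvP := hv
    rw [hP, Finset.mem_filter] at hv
    obtain ⟨_, u, hu, huv⟩ := hv
    have hd2 : 2 ≤ G.degree v := support_degree G hG h3 hu huv
    have hℓ1 : 1 ≤ ℓ v := by
      rw [hℓ]
      apply Finset.card_pos.2
      refine ⟨u, ?_⟩
      rw [Finset.mem_inter, hmemN, hL, Finset.mem_filter]
      exact ⟨huv.symm, Finset.mem_univ _, hu⟩
    have hc1 : c ≤ 1 := by
      have : (0 : ℝ) ≤ Δ := Nat.cast_nonneg _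
      nlinarith
    rcases Nat.lt_or_ge 1 (ℓ v) with h2 | h2
    · have hg1 : g v ≤ 1 := by
        rw [hg]
        by_cases hvI : v ∈ I
        · simp only [hvI, if_true]
          exact pow_le_one₀ hq0 hq1
        · simp [hvI]
      have h5 : (2 : ℝ) ≤ ℓ v := by exact_mod_cast h2
      have h6 : (G.degree v : ℝ) ≤ Δ := by exact_mod_cast hΔ v
      have h7 : c * G.degree v ≤ c * Δ := mul_le_mul_of_nonneg_left h6 hc0
      have h8 : 2 * (1 - c) ≤ ℓ v * (1 - c) := mul_le_mul_of_nonneg_right h5 (by linarith)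
      nlinarith
    · have hℓe : ℓ v = 1 := by omega
      rw [hℓe]
      have h4 := hb (G.degree v) hd2 (hΔ v)
      rw [hg]
      by_cases hvI : v ∈ I
      · simp only [hvI, if_true]
        have hcardM : (N v ∩ M).card = G.degree v - 1 := by
          have hsplit : N v = (N v ∩ L) ∪ (N v ∩ M) := by
            ext w
            simp only [Finset.mem_union, Finset.mem_inter]
            constructor
            · intro hw
              by_cases hwL : w ∈ L
              · exact Or.inl ⟨hw, hwL⟩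
              · right
                refine ⟨hw, ?_⟩
                rw [hI, Finset.mem_filter] at hvI
                rw [hM, Finset.mem_filter]
                exact ⟨Finset.mem_univ _, hwL, Finset.disjoint_left.1 hvI.2.2 hw⟩
            · rintro (h | h) <;> exact h.1
          have hdis : Disjoint (N v ∩ L) (N v ∩ M) := by
            rw [Finset.disjoint_left]
            intro w hw hw'
            rw [Finset.mem_inter] at hw hw'
            have := hw'.2
            rw [hM, Finset.mem_filter] at this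
            exact this.2.1 hw.2
          have := Finset.card_union_of_disjoint hdis
          rw [← hsplit, hNcard] at this
          have e : (N v ∩ L).card = 1 := hℓe
          omega
        rw [hcardM]
        push_cast
        nlinarith
      · simp only [hvI, if_false]
        have : 0 ≤ (1 - p) ^ (G.degree v - 1) := pow_nonneg hq0 _
        push_cast
        nlinarith
  have hLsum : ∑ v ∈ L, (1 - c * G.degree v) = ∑ v ∈ P, (ℓ v : ℝ) * (1 - c) := by
    have h1 : ∀ v ∈ L, (1 - c * G.degree v : ℝ) = ∑ w ∈ P, if G.Adj v w then (1 - c) else 0 := by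
      intro v hv
      rw [hL, Finset.mem_filter] at hv
      rw [hv.2]
      obtain ⟨a, ha'⟩ := Finset.card_eq_one.1 (show (N v).card = 1 from hv.2)
      have hva : G.Adj v a := by rw [← hmemN, ha']; simp
      have haP : a ∈ P := by
        rw [hP, Finset.mem_filter]
        exact ⟨Finset.mem_univ _, v, hv.2, hva⟩
      rw [Finset.sum_eq_single a]
      · simp [hva]
      · intro b _ hb'
        have : ¬ G.Adj v b := by
          rw [← hmemN, ha', Finset.mem_singleton]
          exact hb'
        simp [this]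
      · intro h
        exact absurd haP h
    rw [Finset.sum_congr rfl h1, Finset.sum_comm]
    apply Finset.sum_congr rfl
    intro w _
    rw [← Finset.sum_filter, Finset.sum_const, nsmul_eq_mul]
    congr 2
    rw [hℓ]
    congr 1
    ext v
    rw [Finset.mem_filter, Finset.mem_inter, hmemN, G.adj_comm]
    tauto
  have hfinal : (R.card : ℝ) + P.card + U.card ≤ ∑ v, (1 - c * G.degree v) := by
    have e0 : ∑ v, (1 - c * G.degree v : ℝ)
        = (∑ v ∈ P, (ℓ v : ℝ) * (1 - c) + ∑ v ∈ P, (1 - c * G.degree v))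
          + ∑ v ∈ M, (1 - c * G.degree v) := by
      rw [huniv, Finset.sum_union hLPM, Finset.sum_union hLP, hLsum]
    have e1 : ∑ v ∈ M, (p + g v) ≤ ∑ v ∈ M, (1 - c * G.degree v) := Finset.sum_le_sum hMbound
    have e2 : ∑ v ∈ P, (1 + g v) ≤ ∑ v ∈ P, (1 - c * G.degree v + ℓ v * (1 - c)) :=
      Finset.sum_le_sum hPbound
    rw [Finset.sum_add_distrib, Finset.sum_const, nsmul_eq_mul] at e1
    rw [Finset.sum_add_distrib, Finset.sum_const, nsmul_eq_mul, Finset.sum_add_distrib] at e2
    rw [hsumI] at hR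
    rw [e0]
    linarith
  have : (S.card : ℝ) ≤ R.card + P.card + U.card := by exact_mod_cast hScard
  linarith

end Pool.Agent.Lib.MP_6659c6_co
end

section

/-!
The lower bound: choice of the parameters.
-/

namespace Pool.Agent.Lib.MP_6659c6_co

open Finset Real

lemma exp_neg_le_one_sub (k : ℕ) (hk : 2 ≤ k) :
    Real.exp (-(1 / ((k : ℝ) - 1))) ≤ 1 - 1 / k := by
  have hk' : (2 : ℝ) ≤ k := by exact_mod_cast hk
  have h1 : (0 : ℝ) < (k : ℝ) - 1 := by linarith
  have h2 := Real.add_one_le_exp (1 / ((k : ℝ) - 1))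
  rw [Real.exp_neg]
  have h3 : (1 : ℝ) / ((k : ℝ) - 1) + 1 = k / (k - 1) := by
    field_simp
    ring
  rw [h3] at h2
  have h4 : (0 : ℝ) < k / (k - 1) := by positivity
  calc (Real.exp (1 / ((k : ℝ) - 1)))⁻¹ ≤ ((k : ℝ) / (k - 1))⁻¹ := inv_anti₀ h4 h2
    _ = 1 - 1 / k := by
      rw [inv_div]
      field_simp

lemma log_le_tenth (L : ℝ) (hL : 64 ≤ L) : log L ≤ L / 10 := by
  have h1 := Real.log_le_sub_one_of_pos (show 0 < L / 64 by linarith)
  rw [Real.log_div (by linarith) (by norm_num)] at h1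
  have h2 : log 64 ≤ 4.2 := by
    have h : (64 : ℝ) = 2 ^ 6 := by norm_num
    rw [h, Real.log_pow]
    have := Real.log_two_lt_d9
    push_cast
    linarith
  linarith

/-- **Lower bound.** -/
theorem lower_bound (Δ : ℕ) (hΔ : 64 ≤ log (Δ : ℝ)) (r : ℝ) (hr : Admissible Δ r) :
    log Δ - 6 * log (log Δ) - 8 ≤ r := by
  set L := log (Δ : ℝ) with hL
  have hL0 : 0 < L := by linarith
  have hΔ0 : (0 : ℝ) < Δ := by
    rcases Nat.eq_zero_or_pos Δ with h | h
    · rw [h] at hL
      simp at hL
      linarith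
    · exact_mod_cast h
  have hΔ1 : 1 ≤ Δ := by exact_mod_cast hΔ0
  have hexpL : Real.exp L = Δ := by rw [hL, Real.exp_log hΔ0]
  have hΔ2 : 2 ≤ Δ := by
    by_contra h
    have h1 : Δ = 1 := by omega
    rw [h1] at hL
    simp at hL
    linarith
  have hlogL := log_le_tenth L hΔ
  have hlogL0 : 0 ≤ log L := Real.log_nonneg (by linarith)
  -- the parameter K
  set K : ℕ := ⌈L / 4⌉₊ with hK
  have hK1 : L / 4 ≤ K := Nat.le_ceil _
  have hK2 : (K : ℝ) < L / 4 + 1 := Nat.ceil_lt_add_one (by linarith)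
  have hKpos : 16 ≤ K := by
    have : (16 : ℝ) ≤ K := by linarith
    exact_mod_cast this
  obtain ⟨p, hp, hpl, hpu⟩ := Nat.exists_prime_lt_and_le_two_mul (K * Δ)
    (by have := Nat.mul_pos (by omega : 0 < K) (by omega : 0 < Δ); omega)
  have : Fact p.Prime := ⟨hp⟩
  set k : ℕ := p / Δ with hk
  have hkK : K ≤ k := by
    rw [hk, Nat.le_div_iff_mul_le (by omega)]
    exact hpl.le
  have hk2K : k ≤ 2 * K := by
    rw [hk]
    apply Nat.div_le_of_le_mul
    calc p ≤ 2 * (K * Δ) := hpu
      _ = Δ * (2 * K) := by ring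
  have hkΔ : k * Δ ≤ p := Nat.div_mul_le_self p Δ
  have hpk : p < (k + 1) * Δ := by
    rw [hk]
    have h := Nat.lt_mul_div_succ p (show 0 < Δ by omega)
    calc p < Δ * (p / Δ + 1) := h
      _ = (p / Δ + 1) * Δ := by ring
  have hkK' : (K : ℝ) ≤ k := by exact_mod_cast hkK
  have hk2K' : (k : ℝ) ≤ 2 * K := by exact_mod_cast hk2K
  have hk2 : 2 ≤ k := by omega
  have hk1 : (0 : ℝ) < (k : ℝ) - 1 := by
    have : (2 : ℝ) ≤ k := by exact_mod_cast hk2
    linarith
  -- the parameter t
  set x : ℝ := L - 6 * log L with hx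
  have hx0 : 0 < x := by rw [hx]; linarith
  have hxL : x ≤ L := by rw [hx]; linarith
  set t : ℕ := ⌊((k : ℝ) - 1) * x⌋₊ with ht
  have ht1 : (t : ℝ) ≤ ((k : ℝ) - 1) * x := Nat.floor_le (by positivity)
  have ht2 : ((k : ℝ) - 1) * x < t + 1 := Nat.lt_floor_add_one _
  have htpos : 1 ≤ t := by
    rw [ht, Nat.one_le_floor_iff]
    have h1 : (15 : ℝ) ≤ (k : ℝ) - 1 := by
      have : (16 : ℝ) ≤ K := by exact_mod_cast hKpos
      linarith
    have h2 : (1 : ℝ) ≤ x := by rw [hx]; linarith
    nlinarith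
  have htL : (t : ℝ) ≤ 0.516 * L ^ 2 := by
    have h1 : (k : ℝ) - 1 ≤ L / 2 + 1 := by linarith
    have h2 : ((k : ℝ) - 1) * x ≤ (L / 2 + 1) * L :=
      mul_le_mul h1 hxL hx0.le (by linarith)
    nlinarith
  have hp0 : (0 : ℝ) < p := by exact_mod_cast hp.pos
  have hpKΔ : (K : ℝ) * Δ ≤ p := by exact_mod_cast hpl.le
  have hpu' : (p : ℝ) ≤ 2 * (K * Δ) := by exact_mod_cast hpu
  -- (i)
  have hi : L ^ 6 / Δ ≤ (1 - 1 / (k : ℝ)) ^ t := by
    have h1 := exp_neg_le_one_sub k hk2
    have h2 : (Real.exp (-(1 / ((k : ℝ) - 1)))) ^ t ≤ (1 - 1 / (k : ℝ)) ^ t :=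
      pow_le_pow_left₀ (Real.exp_pos _).le h1 t
    refine le_trans ?_ h2
    rw [← Real.exp_nat_mul]
    have h3 : L ^ 6 / Δ = Real.exp (-x) := by
      rw [hx, neg_sub, Real.exp_sub, hexpL]
      congr 1
      rw [show (6 : ℝ) * log L = ((6 : ℕ) : ℝ) * log L by norm_num, Real.exp_nat_mul,
        Real.exp_log hL0]
    rw [h3]
    apply Real.exp_le_exp.2
    have h4 : (t : ℝ) * (1 / ((k : ℝ) - 1)) ≤ x := by
      rw [mul_one_div, div_le_iff₀ hk1]
      linarith
    linarith
  -- the exponential condition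
  have hsmall : (k : ℝ) * (Fintype.card (ZMod p) : ℝ) ^ t *
      Real.exp (-((Fintype.card (ZMod p) : ℝ) / (t : ℝ) ^ 2 * (1 - 1 / (k : ℝ)) ^ t)) < 1 := by
    rw [ZMod.card]
    have ht0 : (0 : ℝ) < t := by exact_mod_cast htpos
    have hk0 : (0 : ℝ) < k := by linarith
    have h1 : 0.9 * L ^ 3 ≤ (p : ℝ) / (t : ℝ) ^ 2 * (1 - 1 / (k : ℝ)) ^ t := by
      have h2 : (K : ℝ) * Δ / (t : ℝ) ^ 2 * (L ^ 6 / Δ) ≤
          (p : ℝ) / (t : ℝ) ^ 2 * (1 - 1 / (k : ℝ)) ^ t := by
        apply mul_le_mul _ hi (by positivity) (by positivity)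
        exact div_le_div_of_nonneg_right hpKΔ (by positivity)
      refine le_trans ?_ h2
      have h3 : (K : ℝ) * Δ / (t : ℝ) ^ 2 * (L ^ 6 / Δ) = K * L ^ 6 / (t : ℝ) ^ 2 := by
        field_simp
      rw [h3, le_div_iff₀ (by positivity)]
      have h4 : (t : ℝ) ^ 2 ≤ 0.27 * L ^ 4 := by
        have : (t : ℝ) ^ 2 ≤ (0.516 * L ^ 2) ^ 2 := pow_le_pow_left₀ ht0.le htL 2
        have e : (0.516 * L ^ 2) ^ 2 = 0.266256 * L ^ 4 := by ring
        have h5 : 0 < L ^ 4 := by positivity
        rw [e] at this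
        linarith
      have h5 : 0.9 * L ^ 3 * (t : ℝ) ^ 2 ≤ 0.9 * L ^ 3 * (0.27 * L ^ 4) :=
        mul_le_mul_of_nonneg_left h4 (by positivity)
      have h6 : L / 4 * L ^ 6 ≤ K * L ^ 6 := mul_le_mul_of_nonneg_right hK1 (by positivity)
      have h7 : 0.9 * L ^ 3 * (0.27 * L ^ 4) = 0.243 * L ^ 7 := by ring
      have h8 : L / 4 * L ^ 6 = 0.25 * L ^ 7 := by ring
      have h9 : 0 < L ^ 7 := by positivity
      linarith
    have h2K : 2 * (K : ℝ) ≤ L := by linarith
    have hlogk : log (k : ℝ) ≤ L / 10 := by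
      have : log (k : ℝ) ≤ log L := Real.log_le_log hk0 (by linarith)
      linarith
    have hlogp : log (p : ℝ) ≤ 1.1 * L := by
      have h3 : log (p : ℝ) ≤ log (L * Δ) := by
        apply Real.log_le_log hp0
        nlinarith
      rw [Real.log_mul (by linarith) (by linarith)] at h3
      linarith
    have h4 : (k : ℝ) * (p : ℝ) ^ t = Real.exp (log k + t * log p) := by
      rw [Real.exp_add, Real.exp_log hk0, Real.exp_nat_mul, Real.exp_log hp0]
    rw [h4, ← Real.exp_add]
    rw [Real.exp_lt_one_iff]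
    have h5 : (t : ℝ) * log p ≤ 0.516 * L ^ 2 * (1.1 * L) := by
      apply mul_le_mul htL hlogp
      · apply Real.log_nonneg
        exact_mod_cast hp.one_le
      · positivity
    have h6 : 0.516 * L ^ 2 * (1.1 * L) = 0.5676 * L ^ 3 := by ring
    have h7 : L / 10 < 0.1 * L ^ 3 := by
      have : L < L ^ 3 := by
        have : 1 < L ^ 2 := by nlinarith
        calc L = L * 1 := by ring
          _ < L * L ^ 2 := by apply mul_lt_mul_of_pos_left this hL0
          _ = L ^ 3 := by ring
      linarith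
    linarith
  obtain ⟨S, hScard, hS⟩ := exists_good_set (A := ZMod p) k t Δ (by omega) htpos
    (by rw [ZMod.card]; exact hkΔ) hsmall
  -- t ≤ p
  have htp : t ≤ p := by
    by_contra hlt
    push Not at hlt
    -- if every vertex set of size t ... use the real inequality
    have h1 : (p : ℝ) < t := by exact_mod_cast hlt
    have h2 : (Δ : ℝ) ≤ p := by
      have : (1 : ℝ) ≤ K := by exact_mod_cast (by omega : 1 ≤ K)
      nlinarith
    have h3 : (Δ : ℝ) < L ^ 2 := by nlinarith
    have h4 : L ^ 6 < Δ := by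
      have : Real.exp (6 * log L) < Real.exp L := by
        apply Real.exp_lt_exp.2
        linarith
      rwa [hexpL, show (6 : ℝ) * log L = ((6 : ℕ) : ℝ) * log L by norm_num, Real.exp_nat_mul,
        Real.exp_log hL0] at this
    have h5 : L ^ 2 ≤ L ^ 6 := pow_le_pow_right₀ (by linarith) (by norm_num)
    linarith
  have hgood : ∀ T : Finset (ZMod p), T.card ≤ t → ∃ y, ∀ x ∈ T, y - x ∉ S := by
    intro T hT
    obtain ⟨T', hT', hcard⟩ := Finset.exists_superset_card_eq hT (by rw [ZMod.card]; exact htp)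
    obtain ⟨y, hy⟩ := hS T' hcard
    exact ⟨y, fun x hx => hy x (hT' hx)⟩
  obtain ⟨hmain, hpos⟩ := lower_from_set p Δ t hΔ2 S hScard hgood r hr
  have hr0 : 0 < r := by
    by_contra hneg
    push Not at hneg
    have h1 : r * ((p : ℝ) - (t + 1)) ≤ 0 := mul_nonpos_of_nonpos_of_nonneg hneg hpos.le
    have h2 : (0 : ℝ) < Δ * (t + 1) := by positivity
    linarith
  have h1 : (Δ : ℝ) * (t + 1) ≤ r * ((k + 1) * Δ) := by
    have h2 : (p : ℝ) ≤ (k + 1) * Δ := by exact_mod_cast hpk.le
    have h3 : r * ((p : ℝ) - (t + 1)) ≤ r * ((k + 1) * Δ) := by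
      apply mul_le_mul_of_nonneg_left _ hr0.le
      have : (0 : ℝ) ≤ (t : ℝ) + 1 := by positivity
      linarith
    linarith
  have h2 : (t : ℝ) + 1 ≤ r * (k + 1) := by
    have : (Δ : ℝ) * (t + 1) ≤ Δ * (r * (k + 1)) := by linarith
    exact le_of_mul_le_mul_left this hΔ0
  have h3 : ((k : ℝ) - 1) * x ≤ r * (k + 1) := by linarith
  have h4 : (0 : ℝ) < (k : ℝ) + 1 := by linarith
  have h5 : x - 8 ≤ r := by
    have h6 : (x - 8) * ((k : ℝ) + 1) ≤ r * (k + 1) := by
      refine le_trans ?_ h3
      have h7 : 2 * x ≤ 8 * ((k : ℝ) + 1) := by linarith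
      nlinarith
    exact le_of_mul_le_mul_right h6 h4
  rw [hx] at h5
  linarith

end Pool.Agent.Lib.MP_6659c6_co
end

section

namespace Pool.Agent.Lib.MP_6659c6_co

open Finset Real

lemma interp (q A B : ℝ) (hq : 0 < q) (n0 n1 : ℕ) (h01 : n0 < n1)
    (h0 : q ^ n0 ≤ A - B * n0) (h1 : q ^ n1 ≤ A - B * n1) (d : ℕ) (hd0 : n0 ≤ d) (hd1 : d ≤ n1) :
    q ^ d ≤ A - B * d := by
  have hlt : (n0 : ℝ) < n1 := by exact_mod_cast h01
  have hd0' : (n0 : ℝ) ≤ d := by exact_mod_cast hd0
  have hd1' : (d : ℝ) ≤ n1 := by exact_mod_cast hd1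
  have hpos : 0 < (n1 : ℝ) - n0 := by linarith
  set a : ℝ := (n1 - d) / (n1 - n0) with ha
  set b : ℝ := (d - n0) / (n1 - n0) with hb
  have ha0 : 0 ≤ a := div_nonneg (by linarith) hpos.le
  have hb0 : 0 ≤ b := div_nonneg (by linarith) hpos.le
  have hab : a + b = 1 := by
    rw [ha, hb, ← add_div]
    rw [div_eq_one_iff_eq (ne_of_gt hpos)]
    ring
  have hcomb : a * n0 + b * n1 = d := by
    rw [ha, hb]
    field_simp
    ring
  have hconv := (convexOn_rpow_left hq).2 (Set.mem_univ (n0 : ℝ)) (Set.mem_univ (n1 : ℝ)) ha0 hb0 hab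
  simp only [smul_eq_mul] at hconv
  rw [hcomb, Real.rpow_natCast, Real.rpow_natCast, Real.rpow_natCast] at hconv
  have e1 : a * q ^ n0 ≤ a * (A - B * n0) := mul_le_mul_of_nonneg_left h0 ha0
  have e2 : b * q ^ n1 ≤ b * (A - B * n1) := mul_le_mul_of_nonneg_left h1 hb0
  have e3 : a * (A - B * n0) + b * (A - B * n1) = A - B * d := by
    have : a * (A - B * n0) + b * (A - B * n1) = (a + b) * A - B * (a * n0 + b * n1) := by ring
    rw [this, hab, hcomb]
    ring
  linarith

lemma log_anchor (a x : ℝ) (ha : 0 < a) (hx : 0 < x) : log a + 1 - a / x ≤ log x := by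
  have h := Real.one_sub_inv_le_log_of_pos (div_pos hx ha)
  rw [Real.log_div (ne_of_gt hx) (ne_of_gt ha), inv_div] at h
  linarith

lemma log_four : 1.386 ≤ log 4 := by
  have h : (4 : ℝ) = 2 ^ 2 := by norm_num
  rw [h, Real.log_pow]
  have := Real.log_two_gt_d9
  push_cast
  linarith

lemma log_eight : 2.079 ≤ log 8 := by
  have h : (8 : ℝ) = 2 ^ 3 := by norm_num
  rw [h, Real.log_pow]
  have := Real.log_two_gt_d9
  push_cast
  linarith

lemma log_le_half (x : ℝ) (hx : 0 < x) : log x ≤ x / 2 := by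
  have h := Real.log_le_sub_one_of_pos (show 0 < x / 2 by positivity)
  rw [Real.log_div (ne_of_gt hx) (by norm_num)] at h
  have := Real.log_two_lt_d9
  linarith

/-- The numerical inequalities behind the upper bound. -/
lemma log_ineqs (Δ : ℕ) (h3 : 3 ≤ Δ) :
    1.05 ≤ log Δ ∧ 2 * ((Δ : ℝ) - log Δ - 1) ≤ log Δ * (Δ - log Δ) ∧
      3 * ((Δ : ℝ) - log Δ - 1) ≤ log Δ * Δ := by
  have hx3 : (3 : ℝ) ≤ Δ := by exact_mod_cast h3
  have hx0 : (0 : ℝ) < Δ := by linarith
  rcases Nat.lt_or_ge Δ 8 with h8 | h8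
  · have h := log_anchor 4 Δ (by norm_num) hx0
    have h4 := log_four
    have hhalf := log_le_half Δ hx0
    set L := log (Δ : ℝ) with hL
    have hLb : 2.386 - 4 / (Δ : ℝ) ≤ L := by linarith
    clear_value L
    clear h
    interval_cases Δ
    all_goals
      norm_num at hLb hhalf ⊢
      refine ⟨by linarith, ?_, by linarith⟩
      nlinarith
  · have hx8 : (8 : ℝ) ≤ Δ := by exact_mod_cast h8
    have h := log_anchor 8 Δ (by norm_num) hx0
    have h4 := log_eight
    have hmono : log 8 ≤ log (Δ : ℝ) := Real.log_le_log (by norm_num) hx8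
    have hlt : log (Δ : ℝ) ≤ Δ / 2 := log_le_half Δ hx0
    have hmul : (log 8 + 1 - 8 / (Δ : ℝ)) * Δ ≤ log Δ * Δ :=
      mul_le_mul_of_nonneg_right h hx0.le
    have e : (log 8 + 1 - 8 / (Δ : ℝ)) * Δ = (log 8 + 1) * Δ - 8 := by
      field_simp
    rw [e] at hmul
    set L := log (Δ : ℝ) with hL
    refine ⟨by linarith, ?_, ?_⟩
    · nlinarith
    · nlinarith

/-- **Upper bound.** -/
theorem admissible_upper (Δ : ℕ) (h3 : 3 ≤ Δ) :
    Admissible Δ ((1 + log Δ) / (1 - (1 + log Δ) / Δ)) := by
  intro V _ G hG hcard hdeg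
  classical
  have hx3 : (3 : ℝ) ≤ Δ := by exact_mod_cast h3
  have hx0 : (0 : ℝ) < Δ := by linarith
  obtain ⟨hL1, hI1, hI2⟩ := log_ineqs Δ h3
  have hhalf := log_le_half Δ hx0
  set L := log (Δ : ℝ) with hL
  have hDL : 0 < (Δ : ℝ) - L - 1 := by
    rcases Nat.lt_or_ge Δ 4 with h | h
    · have : Δ = 3 := by omega
      subst this
      norm_num at hhalf ⊢
      have : L < 2 := by linarith
      linarith
    · have : (4 : ℝ) ≤ Δ := by exact_mod_cast h
      have h5 := Real.log_le_sub_one_of_pos (show 0 < (Δ : ℝ) / 4 by positivity)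
      rw [Real.log_div (ne_of_gt hx0) (by norm_num)] at h5
      have h6 : log 4 < 1.4 := by
        have h : (4 : ℝ) = 2 ^ 2 := by norm_num
        rw [h, Real.log_pow]
        have := Real.log_two_lt_d9
        push_cast
        linarith
      linarith
  set c : ℝ := (Δ - L - 1) / Δ ^ 2 with hc
  set p : ℝ := L / Δ with hp
  have hc0 : 0 < c := by positivity
  have hp0 : 0 ≤ p := by positivity
  have hp1 : p ≤ 1 / 2 := by
    rw [hp, div_le_iff₀ hx0]
    linarith
  have hq : 0 < 1 - p := by linarith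
  have hΔ2 : (0 : ℝ) < Δ ^ 2 := by positivity
  -- endpoint values
  have hcΔ : ((Δ : ℝ) + 2) * c ≤ 1 := by
    rw [hc, mul_div_assoc', div_le_one hΔ2]
    nlinarith
  have hqΔ : (1 - p) ^ Δ ≤ 1 / Δ := by
    have h1 : 1 - p ≤ Real.exp (-p) := by
      have := Real.add_one_le_exp (-p)
      linarith
    calc (1 - p) ^ Δ ≤ (Real.exp (-p)) ^ Δ := pow_le_pow_left₀ hq.le h1 _
      _ = Real.exp (-L) := by
        rw [← Real.exp_nat_mul]
        congr 1
        rw [hp]
        field_simp
      _ = 1 / Δ := by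
        rw [Real.exp_neg, hL, Real.exp_log hx0, one_div]
  have hend_a2 : (1 - p) ^ 2 ≤ (1 - p) - c * (2 : ℕ) := by
    have : 2 * c ≤ p * (1 - p) := by
      rw [hc, hp]
      have e : L / Δ * (1 - L / Δ) = (L * (Δ - L)) / Δ ^ 2 := by
        field_simp
      rw [e, mul_div_assoc']
      exact div_le_div_of_nonneg_right hI1 hΔ2.le
    push_cast
    nlinarith
  have hend_aΔ : (1 - p) ^ Δ ≤ (1 - p) - c * Δ := by
    have e : (1 - p) - c * Δ = 1 / Δ := by
      rw [hc, hp]
      field_simp
      ring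
    rw [e]
    exact hqΔ
  have ha : ∀ d : ℕ, 2 ≤ d → d ≤ Δ → p + (1 - p) ^ d ≤ 1 - c * d := by
    intro d hd2 hdΔ
    have := interp (1 - p) (1 - p) c hq 2 Δ (by omega) hend_a2 hend_aΔ d hd2 hdΔ
    linarith
  have hend_b1 : (1 - p) ^ 1 ≤ (1 - 2 * c) - c * (1 : ℕ) := by
    have : 3 * c ≤ p := by
      rw [hc, hp, mul_div_assoc', div_le_div_iff₀ hΔ2 hx0]
      nlinarith
    push_cast
    rw [pow_one]
    linarith
  have hend_bΔ : (1 - p) ^ (Δ - 1) ≤ (1 - 2 * c) - c * ((Δ - 1 : ℕ) : ℝ) := by
    have hcast : ((Δ - 1 : ℕ) : ℝ) = (Δ : ℝ) - 1 := by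
      rw [Nat.cast_sub (by omega)]
      norm_num
    rw [hcast]
    have h1 : (1 - p) ^ (Δ - 1) * (1 - p) = (1 - p) ^ Δ := by
      rw [← pow_succ]
      congr 1
      omega
    have h2 : (1 - p) ^ (Δ - 1) ≤ 1 / (Δ - L) := by
      rw [le_div_iff₀ (by linarith)]
      have : (Δ : ℝ) - L = Δ * (1 - p) := by
        rw [hp]; field_simp
      rw [this, ← mul_assoc, mul_comm _ (Δ : ℝ), mul_assoc, h1]
      calc (Δ : ℝ) * (1 - p) ^ Δ ≤ Δ * (1 / Δ) := mul_le_mul_of_nonneg_left hqΔ hx0.le
        _ = 1 := by field_simp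
    have h3' : 1 - 2 * c - c * ((Δ : ℝ) - 1) = (Δ * L + L + 1) / Δ ^ 2 := by
      rw [hc]
      field_simp
      ring
    rw [h3']
    refine h2.trans ?_
    rw [div_le_div_iff₀ (by linarith) hΔ2]
    nlinarith [mul_nonneg (mul_nonneg (sub_nonneg.2 hL1) (sub_nonneg.2 hhalf))
      (show (0 : ℝ) ≤ Δ + 1 by linarith)]
  have hb : ∀ d : ℕ, 2 ≤ d → d ≤ Δ → (1 - p) ^ (d - 1) ≤ 1 - c * (d + 1) := by
    intro d hd2 hdΔ
    have h4 := interp (1 - p) (1 - 2 * c) c hq 1 (Δ - 1) (by omega) hend_b1 hend_bΔ (d - 1)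
      (by omega) (by omega)
    have hcast : ((d - 1 : ℕ) : ℝ) = (d : ℝ) - 1 := by
      rw [Nat.cast_sub (by omega)]
      norm_num
    rw [hcast] at h4
    linarith
  have hdeg' : ∀ v, G.degree v ≤ Δ := by
    intro v
    have := hdeg v
    rwa [Set.ncard_eq_toFinset_card', Set.toFinset_card, SimpleGraph.card_neighborSet_eq_degree]
      at this
  have hmain := totalDom_upper G hG hcard Δ hdeg' p c hp0 (by linarith) hc0.le hcΔ ha hb
  have hsum : ∑ v, (1 - c * (G.degree v : ℝ)) = Fintype.card V - c * (2 * G.edgeFinset.card) := by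
    rw [Finset.sum_sub_distrib, ← Finset.mul_sum]
    have := G.sum_degrees_eq_twice_card_edges
    have h5 : (∑ v, (G.degree v : ℝ)) = 2 * G.edgeFinset.card := by exact_mod_cast this
    rw [h5]
    simp
  rw [hsum] at hmain
  have hm : (G.edgeSet.ncard : ℝ) = G.edgeFinset.card := by
    rw [Set.ncard_eq_toFinset_card']
    rfl
  rw [hm]
  have hr : (Δ : ℝ) + (1 + L) / (1 - (1 + L) / Δ) = 1 / c := by
    have h6 : (Δ : ℝ) - (1 + L) ≠ 0 := by
      have : 0 < (Δ : ℝ) - (1 + L) := by linarith
      exact ne_of_gt this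
    have h7 : (1 : ℝ) - (1 + L) / Δ = (Δ - (1 + L)) / Δ := by
      field_simp
    have h8 : (Δ : ℝ) - L - 1 ≠ 0 := ne_of_gt hDL
    rw [h7, hc]
    field_simp
    ring
  rw [hr]
  have : c * (2 * (G.edgeFinset.card : ℝ)) ≤ Fintype.card V - totalDomNumber G := by linarith
  have h9 : (G.edgeFinset.card : ℝ) = 1 / 2 * (1 / c) * (c * (2 * (G.edgeFinset.card : ℝ))) := by
    field_simp
  rw [h9]
  exact mul_le_mul_of_nonneg_left this (by positivity)

end Pool.Agent.Lib.MP_6659c6_co
end
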